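import Pool.Agent.W104.Irr.Defs

/-!
Statements of the lemmas used in the exact determination of `n(p)` (MP_033e98_co).
-/

namespace Pool.Agent.W104.Irr

open Finset Pool.Agent.Helper999.Irr

/-- final step of case L2 (pure arithmetic). -/
def L2fin : Prop :=
  ∀ (p a f i cx Sw : ℕ) (U : Finset ℕ), a < f → f + 1 ≤ p → U.card + a + 1 ≤ f →
    (∀ t ∈ U, p + 1 < t) → a + 1 ≤ Sw → p + i ≤ cx + a + 1 →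
    ¬ (Sw = p ∧ cx + a + 1 = p + i ∧ f = a + 1) →
    ∃ φ β X Y : ℕ, (φ = p ∨ (a < φ ∧ φ ≤ f)) ∧ 1 ≤ β ∧ β ≤ p ∧
      cx + φ + β = X + i + p ∧ Sw + β = p + Y ∧
      (X = p ∨ (a < X ∧ X ≤ f) ∨ (p < X ∧ X ∉ U)) ∧
      (Y = p ∨ (a < Y ∧ Y ≤ f) ∨ (p < Y ∧ Y ∉ U)) ∧ X ≠ Y ∧ X ≠ φ ∧ Y ≠ φ

/-- final step of case B1 (pure arithmetic). -/
def B1fin : Prop :=
  ∀ (p a f R γ : ℕ) (U : Finset ℕ), 3 ≤ p → a < f → f ≤ p → U.card + a + 2 ≤ f →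
    (∀ t ∈ U, p < t) → 2 * p ≤ R + 1 → R ∉ U → R - 1 ∉ U → a + 1 ≤ γ →
    ∃ β α X Y Z : ℕ, 1 ≤ β ∧ β ≤ p ∧ 1 ≤ α ∧ α ≤ p ∧ γ + β = p + X ∧ β + α = p + Y ∧
      R + α = p + Z ∧ ((a < X ∧ X ≤ f) ∨ (p < X ∧ X ∉ U)) ∧
      (a < Y ∧ Y ≤ f) ∧ ((a < Z ∧ Z ≤ f) ∨ (p < Z ∧ Z ∉ U)) ∧ X ≠ Y ∧ X ≠ Z ∧ Y ≠ Z

/-- final step of case S3 for small sums (pure arithmetic). -/
def S3fin : Prop :=
  ∀ (p a f R σ : ℕ) (U : Finset ℕ), 3 ≤ p → a < f → f ≤ p → U.card + a + 1 ≤ f →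
    2 * p ≤ R → R ∉ U → a + 1 ≤ σ → σ < p →
    ∃ α X Z : ℕ, 1 ≤ α ∧ α ≤ p ∧ σ + α = p + X ∧ R + α = p + Z ∧ a < X ∧ X ≤ f ∧
      p < Z ∧ Z ∉ U

/-- final edge with two large sums, by counting degrees. -/
def E3 : Prop :=
  ∀ {V : Type} [DecidableEq V] (P : Finset V) (sl d : V → ℕ) (p A B : ℕ),
    Set.InjOn sl P → P.card + 1 ≤ p → (∀ v ∈ P, 2 ≤ d v) → (∀ v ∈ P, sl v + p ≤ d v * p) →
    ∑ v ∈ P, (d v - 2) + 5 ≤ p → 3 * p ≤ A + 3 → p ≤ B → A ≠ B →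
    ∃ α : ℕ, 1 ≤ α ∧ α ≤ p ∧ ∀ v ∈ P, A + α ≠ p + sl v ∧ B + α ≠ p + sl v

/-- labelling with prescribed labels at the bottom and at the top. -/
def LabelList : Prop :=
  ∀ {V : Type} [DecidableEq V] (Lf : Finset V) (bot tp : List V), (bot ++ tp).Nodup →
    (∀ x ∈ bot ++ tp, x ∈ Lf) →
    ∃ e : V → ℕ, (∀ x ∈ Lf, 1 ≤ e x ∧ e x ≤ Lf.card) ∧ Set.InjOn e Lf ∧
      (∀ (i : ℕ) (h : i < bot.length), e bot[i] = i + 1) ∧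
      (∀ (i : ℕ) (h : i < tp.length), e tp[i] + i = Lf.card)

end Pool.Agent.W104.Irr
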