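import Pool.Agent.W104.Irr.Greedy
import Pool.Agent.W104.Irr.Stmts

/-!
Common lemmas: the final check of a labelling, the initial state with closed vertices `A`.
-/

namespace Pool.Agent.W104.Irr

open Finset Pool.Agent.Helper999.Irr

variable {V : Type} [Fintype V] [DecidableEq V] {T : SimpleGraph V} {c : V} {par : V → V}
  {dep : V → ℕ}

lemma root_notMem_leaves : c ∉ leaves c par := fun h => (mem_leaves.1 h).1 rfl

/-- final check -/
theorem fin_lab {p : ℕ} {e sl : V → ℕ} (hLL : LL c par p e)
    (hlab : ∀ v, v ≠ c → v ∉ leaves c par → 1 ≤ e v ∧ e v ≤ p)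
    (hval : ∀ v, v ≠ c → v ∉ leaves c par → S c par e v + e v = p + sl v)
    (hroot : S c par e c = p + sl c) (hone : ∀ v, v ∉ leaves c par → 1 ≤ sl v)
    (hinj : ∀ u v, u ∉ leaves c par → v ∉ leaves c par → sl u = sl v → u = v) :
    Lab c par p := by
  have hW : ∀ v, v ∉ leaves c par → W c par e v = p + sl v := by
    intro v hv
    unfold W
    by_cases hvc : v = c
    · subst hvc
      rw [if_pos rfl]
      exact hroot
    · rw [if_neg hvc]
      exact hval v hvc hv
  refine ⟨e, ?_, ?_⟩
  · intro v hv
    by_cases hvl : v ∈ leaves c par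
    · exact hLL.1 v hvl
    · exact hlab v hv hvl
  · apply W_injective c par p e hLL.1 hLL.2
    · intro v hv
      rw [hW v hv]
      have := hone v hv
      omega
    · intro u v hu hv huv
      rw [hW u hu, hW v hv] at huv
      exact hinj u v hu hv (by omega)

/-- Initial state: all vertices of `As` are vertices with one child, a leaf with a label in
`(ε, ε + |As|]`; the slot is the label of the leaf minus `ε`. -/
theorem init_closed {p ε b q : ℕ} {Res : Finset ℕ} {As : Finset V}
    {l : V → V} {lam : V → ℕ}
    (hA : ∀ x ∈ As, x ≠ c ∧ x ∉ leaves c par ∧ ch c par x = {l x} ∧ l x ∈ leaves c par)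
    (hl : ∀ x ∈ As, ε < lam (l x) ∧ lam (l x) ≤ As.card + ε)
    (hLL : LL c par p lam) (hε : ε < p) (hRes : ∀ t ∈ Res, p < t) (hq : As.card + b ≤ q)
    (hqp : q ≤ p) :
    St c par p Res q b As (fun x => if x ∈ As then p - ε else lam x) (fun x => lam (l x) - ε)
      (As.card + b) q := by
  refine ⟨?_, ?_, ?_, ?_, ?_, ?_, ?_, ?_, ?_, hq, le_refl _⟩
  · intro v hv
    exact ⟨(hA v hv).1, (hA v hv).2.1⟩
  · intro v hv u hu
    rw [(hA v hv).2.2.1, mem_singleton] at hu
    subst hu
    exact Or.inl (hA v hv).2.2.2
  · intro v hv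
    simp only [if_pos hv]
    omega
  · intro v hv
    have h1 : l v ∉ As := fun hcon => (hA _ hcon).2.1 (hA v hv).2.2.2
    unfold S
    rw [(hA v hv).2.2.1, sum_singleton, if_neg h1, if_pos hv]
    have := hl v hv
    omega
  · intro v hv
    have := hl v hv
    omega
  · intro u hu w hw huw
    have h1 := hl u hu
    have h2 := hl w hw
    simp only at huw
    have h3 : l u = l w := hLL.2 (hA u hu).2.2.2 (hA w hw).2.2.2 (by omega)
    have h4 : l u ∈ ch c par u := by rw [(hA u hu).2.2.1]; exact mem_singleton_self _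
    have h5 : l w ∈ ch c par w := by rw [(hA w hw).2.2.1]; exact mem_singleton_self _
    rw [h3] at h4
    exact (mem_ch.1 h4).2.symm.trans (mem_ch.1 h5).2
  · intro v hv
    have := hl v hv
    omega
  · intro v hv hcon
    have := hl v hv
    have := hRes _ hcon
    omega
  · have h1 : As.filter (fun v => p < lam (l v) - ε) = ∅ := by
      rw [filter_eq_empty_iff]
      intro v hv
      have := hl v hv
      omega
    rw [h1, card_empty]
    omega

end Pool.Agent.W104.Irr
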