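import Pool.Agent.W104.Irr.Defs

/-!
The greedy procedure: single steps.
-/

namespace Pool.Agent.W104.Irr

open Finset Pool.Agent.Helper999.Irr

variable {V : Type} [Fintype V] [DecidableEq V] {T : SimpleGraph V} {c : V} {par : V → V}
  {dep : V → ℕ}

lemma S_congr {e e' : V → ℕ} {v : V} (h : ∀ u ∈ ch c par v, e' u = e u) :
    S c par e' v = S c par e v := sum_congr rfl h

lemma dep_ch (h : Rooted T c par dep) {u v : V} (hu : u ∈ ch c par v) : dep u = dep v + 1 := by
  rw [mem_ch] at hu
  rw [(h.h1 u hu.1).2, hu.2]

lemma notMem_ch_self (h : Rooted T c par dep) (v : V) : v ∉ ch c par v := by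
  intro hv
  have := dep_ch h hv
  omega

lemma S_update_of_notMem {e : V → ℕ} {v w : V} {y : ℕ} (h : v ∉ ch c par w) :
    S c par (Function.update e v y) w = S c par e w := by
  apply S_congr
  intro u hu
  rw [Function.update_of_ne]
  rintro rfl
  exact h hu

lemma notMem_ch_of_St {p : ℕ} {Res : Finset ℕ} {q b : ℕ} {P : Finset V} {e sl : V → ℕ} {a f : ℕ}
    (st : St c par p Res q b P e sl a f) {v w : V} (hvP : v ∉ P) (hvl : v ∉ leaves c par)
    (hw : w ∈ P) : v ∉ ch c par w := by
  intro hv
  rcases st.cl w hw v hv with h1 | h1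
  · exact hvl h1
  · exact hvP h1

lemma filter_insert_update {P : Finset V} {sl : V → ℕ} {v : V} (hvP : v ∉ P) (t p : ℕ) :
    ((insert v P).filter (fun u => p < Function.update sl v t u)).card =
      (P.filter (fun u => p < sl u)).card + if p < t then 1 else 0 := by
  have h1 : P.filter (fun u => p < Function.update sl v t u) = P.filter (fun u => p < sl u) := by
    apply filter_congr
    intro u hu
    rw [Function.update_of_ne]
    rintro rfl
    exact hvP hu
  rw [filter_insert, Function.update_self, h1]
  split_ifs with h2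
  · rw [card_insert_of_notMem]
    intro h3
    exact hvP (mem_filter.1 h3).1
  · simp

theorem St.assign (h : Rooted T c par dep) {p : ℕ} {Res : Finset ℕ} {q b : ℕ} {P : Finset V}
    {e sl : V → ℕ} {a f : ℕ} (st : St c par p Res q b P e sl a f) {v : V} (hvP : v ∉ P)
    (hvc : v ≠ c) (hvl : v ∉ leaves c par) (hch : ∀ u ∈ ch c par v, u ∈ leaves c par ∨ u ∈ P)
    (t a' f' : ℕ) (h1 : S c par e v < p + t) (h2 : t ≤ S c par e v) (h3 : 1 ≤ t)
    (hinj : ∀ u ∈ P, sl u ≠ t) (hres : t ∉ Res) (ha : a ≤ a') (hf : f' ≤ f) (haf : a' ≤ f')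
    (hlow : t ≤ a' ∨ (f' < t ∧ t ≤ q) ∨ p < t)
    (hcnt : f' + 1 + a = a' + f + if p < t then 1 else 0) :
    St c par p Res q b (insert v P) (Function.update e v (p + t - S c par e v))
      (Function.update sl v t) a' f' := by
  have hne : ∀ u ∈ P, u ≠ v := by
    rintro u hu rfl
    exact hvP hu
  refine ⟨?_, ?_, ?_, ?_, ?_, ?_, ?_, ?_, ?_, haf, hf.trans st.fq⟩
  · intro u hu
    rcases mem_insert.1 hu with rfl | hu
    · exact ⟨hvc, hvl⟩
    · exact st.nl u hu
  · intro u hu w hw
    rcases mem_insert.1 hu with rfl | hu
    · rcases hch w hw with h4 | h4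
      · exact Or.inl h4
      · exact Or.inr (mem_insert_of_mem h4)
    · rcases st.cl u hu w hw with h4 | h4
      · exact Or.inl h4
      · exact Or.inr (mem_insert_of_mem h4)
  · intro u hu
    rcases mem_insert.1 hu with rfl | hu
    · rw [Function.update_self]; omega
    · rw [Function.update_of_ne (hne u hu)]; exact st.lab u hu
  · intro u hu
    rcases mem_insert.1 hu with rfl | hu
    · rw [Function.update_self, Function.update_self, S_update_of_notMem (notMem_ch_self h u)]
      omega
    · rw [Function.update_of_ne (hne u hu), Function.update_of_ne (hne u hu),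
        S_update_of_notMem (notMem_ch_of_St st hvP hvl hu)]
      exact st.val u hu
  · intro u hu
    rcases mem_insert.1 hu with rfl | hu
    · rw [Function.update_self]; exact h3
    · rw [Function.update_of_ne (hne u hu)]; exact st.one u hu
  · intro u hu w hw huw
    rw [mem_coe] at hu hw
    rcases mem_insert.1 hu with rfl | hu' <;> rcases mem_insert.1 hw with rfl | hw'
    · rfl
    · rw [Function.update_self, Function.update_of_ne (hne w hw')] at huw
      exact absurd huw.symm (hinj w hw')
    · rw [Function.update_self, Function.update_of_ne (hne u hu')] at huw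
      exact absurd huw (hinj u hu')
    · rw [Function.update_of_ne (hne u hu'), Function.update_of_ne (hne w hw')] at huw
      exact st.inj hu' hw' huw
  · intro u hu
    rcases mem_insert.1 hu with rfl | hu
    · rw [Function.update_self]; exact hlow
    · rw [Function.update_of_ne (hne u hu)]
      rcases st.low u hu with h4 | h4 | h4
      · left; omega
      · right; left; omega
      · right; right; exact h4
  · intro u hu
    rcases mem_insert.1 hu with rfl | hu
    · rw [Function.update_self]; exact hres
    · rw [Function.update_of_ne (hne u hu)]; exact st.res u hu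
  · rw [filter_insert_update hvP, card_insert_of_notMem hvP]
    have := st.cnt
    omega

/-- the number of used slots above `p` -/
lemma top_card {p : ℕ} {Res : Finset ℕ} {q b : ℕ} {P : Finset V} {e sl : V → ℕ} {a f : ℕ}
    (st : St c par p Res q b P e sl a f) :
    (top p P sl).card = (P.filter (fun v => p < sl v)).card := by
  unfold top
  apply card_image_of_injOn
  intro u hu w hw huw
  exact st.inj (mem_filter.1 hu).1 (mem_filter.1 hw).1 huw

lemma mem_top {p : ℕ} {P : Finset V} {sl : V → ℕ} {t : ℕ} :
    t ∈ top p P sl ↔ ∃ v ∈ P, p < t ∧ sl v = t := by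
  unfold top
  rw [mem_image]
  constructor
  · rintro ⟨v, hv, rfl⟩
    rw [mem_filter] at hv
    exact ⟨v, hv.1, hv.2, rfl⟩
  · rintro ⟨v, hv, h1, h2⟩
    exact ⟨v, mem_filter.2 ⟨hv, h2 ▸ h1⟩, h2⟩

/-- slots in `(a, f]` are unused -/
lemma free_mid {p : ℕ} {Res : Finset ℕ} {q b : ℕ} {P : Finset V} {e sl : V → ℕ} {a f : ℕ}
    (st : St c par p Res q b P e sl a f) (hq : q ≤ p) {t : ℕ} (h1 : a < t) (h2 : t ≤ f) :
    ∀ u ∈ P, sl u ≠ t := by
  intro u hu hut
  have := st.low u hu
  have := st.fq
  omega

/-- The general step of the greedy procedure. -/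
theorem step (h : Rooted T c par dep) {p : ℕ} {Res : Finset ℕ} {q b : ℕ} {P : Finset V}
    {e sl : V → ℕ} {a f : ℕ} (st : St c par p Res q b P e sl a f) (hq : q ≤ p)
    (hRes : ∀ t ∈ Res, p < t) {v : V} (hvP : v ∉ P)
    (hvc : v ≠ c) (hvl : v ∉ leaves c par) (hch : ∀ u ∈ ch c par v, u ∈ leaves c par ∨ u ∈ P)
    (hS : f ≤ S c par e v ∨ a + 1 ≤ S c par e v)
    (hk : a + (P.filter (fun v => p < sl v)).card + Res.card + 1 ≤ f) :
    ∃ y t a' f', St c par p Res q b (insert v P) (Function.update e v y)
      (Function.update sl v t) a' f' ∧ a ≤ a' ∧ f' ≤ f ∧ a < t ∧ a' + 1 ≤ y := by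
  classical
  obtain ⟨s, hs⟩ : ∃ s, s = S c par e v := ⟨_, rfl⟩
  have hfq := st.fq
  have htc := top_card st
  -- candidates above p
  by_cases hc : ∃ t, p < t ∧ t ≤ s ∧ s < t + p ∧ t ∉ top p P sl ∧ t ∉ Res
  · -- the largest one
    obtain ⟨t, ⟨ht1, ht2, ht3, ht4, ht5⟩, hmax⟩ :
        ∃ t, (p < t ∧ t ≤ s ∧ s < t + p ∧ t ∉ top p P sl ∧ t ∉ Res) ∧
          ∀ t', t < t' → ¬ (p < t' ∧ t' ≤ s ∧ s < t' + p ∧ t' ∉ top p P sl ∧ t' ∉ Res) := by
      have hb : ∀ t, (p < t ∧ t ≤ s ∧ s < t + p ∧ t ∉ top p P sl ∧ t ∉ Res) → t ≤ s :=
        fun t ht => ht.2.1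
      obtain ⟨t0, ht0⟩ := hc
      have h1 := Nat.findGreatest_spec
        (P := fun t => p < t ∧ t ≤ s ∧ s < t + p ∧ t ∉ top p P sl ∧ t ∉ Res) (hb t0 ht0) ht0
      refine ⟨_, h1, ?_⟩
      intro t' ht' hcon
      have := Nat.le_findGreatest
        (P := fun t => p < t ∧ t ≤ s ∧ s < t + p ∧ t ∉ top p P sl ∧ t ∉ Res) (hb t' hcon) hcon
      omega
    -- the run above t
    have hrun : s - t ≤ (top p P sl ∪ Res).card := by
      have : (Ioc t s) ⊆ top p P sl ∪ Res := by
        intro t' ht'
        rw [mem_Ioc] at ht'
        have := hmax t' ht'.1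
        rw [mem_union]
        by_contra hcon
        push Not at hcon
        exact this ⟨by omega, ht'.2, by omega, hcon.1, hcon.2⟩
      have h2 := card_le_card this
      rw [Nat.card_Ioc] at h2
      exact h2
    have hun := card_union_le (top p P sl) Res
    refine ⟨p + t - S c par e v, t, a, f, ?_, le_refl _, le_refl _, by omega, by omega⟩
    apply st.assign h hvP hvc hvl hch t a f (by omega) (by omega) (by omega)
    · intro u hu hut
      exact ht4 (mem_top.2 ⟨u, hu, ht1, hut⟩)
    · exact ht5
    · exact le_refl _
    · exact le_refl _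
    · omega
    · right; right; exact ht1
    · rw [if_pos ht1]; omega
  · push Not at hc
    by_cases hsf : f ≤ s
    · -- take f
      have hrun : s ≤ p + (top p P sl ∪ Res).card := by
        rcases le_or_gt s p with h1 | h1
        · omega
        · rcases le_or_gt s (2 * p) with h2 | h2
          · have : (Ioc p s) ⊆ top p P sl ∪ Res := by
              intro t' ht'
              rw [mem_Ioc] at ht'
              rw [mem_union]
              by_contra hcon
              push Not at hcon
              exact hcon.2 (hc t' ht'.1 ht'.2 (by omega) hcon.1)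
            have h3 := card_le_card this
            rw [Nat.card_Ioc] at h3
            omega
          · exfalso
            have : (Ioc (s - p) s) ⊆ top p P sl ∪ Res := by
              intro t' ht'
              rw [mem_Ioc] at ht'
              rw [mem_union]
              by_contra hcon
              push Not at hcon
              exact hcon.2 (hc t' (by omega) ht'.2 (by omega) hcon.1)
            have h3 := card_le_card this
            rw [Nat.card_Ioc] at h3
            have hun := card_union_le (top p P sl) Res
            omega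
      have hun := card_union_le (top p P sl) Res
      refine ⟨p + f - S c par e v, f, a, f - 1, ?_, le_refl _, by omega, by omega, by omega⟩
      apply st.assign h hvP hvc hvl hch f a (f - 1) (by omega) (by omega) (by omega)
      · exact free_mid st hq (by omega) (le_refl _)
      · intro hcon
        have := hRes f hcon
        omega
      · exact le_refl _
      · omega
      · omega
      · right; left; omega
      · rw [if_neg (by omega)]; omega
    · -- take a + 1
      have ha : a + 1 ≤ s := by omega
      refine ⟨p + (a + 1) - S c par e v, a + 1, a + 1, f, ?_, by omega, le_refl _, by omega,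
        by omega⟩
      apply st.assign h hvP hvc hvl hch (a + 1) (a + 1) f (by omega) (by omega) (by omega)
      · exact free_mid st hq (by omega) (by omega)
      · intro hcon
        have := hRes _ hcon
        omega
      · omega
      · exact le_refl _
      · omega
      · left; exact le_refl _
      · rw [if_neg (by omega)]; omega

end Pool.Agent.W104.Irr
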