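import Pool.Agent.Helper999.Irr.Final

/-!
Basic definitions for the exact value of `n(p)` (MP_033e98_co).

`T` is rooted at `c`; `e v` is the label of the edge from `v` to its parent. The weighted degree
of an inner vertex `v` is written `p + sl v`; `sl v` is its slot.
-/

namespace Pool.Agent.W104.Irr

open Finset Pool.Agent.Helper999.Irr

/-- sum of the labels of the edges to the children -/
def S {V : Type} [Fintype V] [DecidableEq V] (c : V) (par : V → V) (e : V → ℕ) (v : V) : ℕ :=
  ∑ u ∈ ch c par v, e u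

/-- State of the greedy procedure. `P` is the set of processed inner vertices, `e` the labels,
`sl` the slots; slots in `(a, f]` are free; slots `> p` not in `Res` may be used. `q` is the top
of the first row (`p`, or `p - 1` when the slot `p` is kept free), `b` the number of slots `≤ a`
kept free. -/
structure St {V : Type} [Fintype V] [DecidableEq V] (c : V) (par : V → V) (p : ℕ)
    (Res : Finset ℕ) (q b : ℕ) (P : Finset V) (e sl : V → ℕ) (a f : ℕ) : Prop where
  nl : ∀ v ∈ P, v ≠ c ∧ v ∉ leaves c par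
  cl : ∀ v ∈ P, ∀ u ∈ ch c par v, u ∈ leaves c par ∨ u ∈ P
  lab : ∀ v ∈ P, 1 ≤ e v ∧ e v ≤ p
  val : ∀ v ∈ P, S c par e v + e v = p + sl v
  one : ∀ v ∈ P, 1 ≤ sl v
  inj : Set.InjOn sl P
  low : ∀ v ∈ P, sl v ≤ a ∨ (f < sl v ∧ sl v ≤ q) ∨ p < sl v
  res : ∀ v ∈ P, sl v ∉ Res
  cnt : f + P.card + b = a + q + (P.filter (fun v => p < sl v)).card
  af : a ≤ f
  fq : f ≤ q

/-- the used slots above `p` -/
def top {V : Type} [DecidableEq V] (p : ℕ) (P : Finset V) (sl : V → ℕ) : Finset ℕ :=
  (P.filter (fun v => p < sl v)).image sl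

/-- Good labelling. -/
def Lab {V : Type} [Fintype V] [DecidableEq V] (c : V) (par : V → V) (p : ℕ) : Prop :=
  ∃ e : V → ℕ, (∀ v, v ≠ c → 1 ≤ e v ∧ e v ≤ p) ∧ Function.Injective (W c par e)

/-- leaf labels: a bijection from the leaves onto `[1, p]` when `p` is the number of leaves -/
def LL {V : Type} [Fintype V] [DecidableEq V] (c : V) (par : V → V) (p : ℕ) (e : V → ℕ) : Prop :=
  (∀ v ∈ leaves c par, 1 ≤ e v ∧ e v ≤ p) ∧ Set.InjOn e (leaves c par)

end Pool.Agent.W104.Irr
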