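import Pool.Agent.W104.Irr.L2fine

/-!
Descendants, chains, leaf children.
-/

namespace Pool.Agent.W104.Irr

open Finset Pool.Agent.Helper999.Irr

variable {V : Type} [Fintype V] [DecidableEq V] {T : SimpleGraph V} {c : V} {par : V → V}
  {dep : V → ℕ}

/-- the children which are leaves -/
def lch (c : V) (par : V → V) (v : V) : Finset V := (ch c par v).filter (fun u => u ∈ leaves c par)

lemma mem_lch {u v : V} : u ∈ lch c par v ↔ u ∈ ch c par v ∧ u ∈ leaves c par := by
  unfold lch
  rw [mem_filter]

lemma Desc.dep_le (h : Rooted T c par dep) {x v : V} (hd : Desc c par x v) : dep x ≤ dep v := by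
  induction hd with
  | refl => exact le_refl _
  | step h1 _ ih => have := (h.h1 _ h1).2; omega

lemma Desc.of_ch {x u v : V} (hu : u ∈ ch c par x) (hd : Desc c par u v) : Desc c par x v := by
  induction hd with
  | refl =>
    apply Desc.step (mem_ch.1 hu).1
    rw [(mem_ch.1 hu).2]
    exact Desc.refl
  | step h1 _ ih => exact Desc.step h1 ih

lemma Desc.ne_root {x v : V} (hx : x ≠ c) (hd : Desc c par x v) : v ≠ c := by
  cases hd with
  | refl => exact hx
  | step h1 _ => exact h1

lemma Desc.child {x v u : V} (hd : Desc c par x v) (hu : u ∈ ch c par v) : Desc c par x u := by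
  apply Desc.step (mem_ch.1 hu).1
  rw [(mem_ch.1 hu).2]
  exact hd

lemma desc_sib (h : Rooted T c par dep) {x t k v : V} (ht : t ∈ ch c par x) (hk : k ∈ ch c par x)
    (htk : t ≠ k) (hd : Desc c par t v) : ¬ Desc c par k v := by
  induction hd with
  | refl =>
    intro hcon
    cases hcon with
    | refl => exact htk rfl
    | step h1 h2 =>
      rw [(mem_ch.1 ht).2] at h2
      have := h2.dep_le h
      have := dep_ch h hk
      omega
  | step h1 h2 ih =>
    intro hcon
    cases hcon with
    | refl =>
      rw [(mem_ch.1 hk).2] at h2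
      have := h2.dep_le h
      have := dep_ch h ht
      omega
    | step h3 h4 => exact ih h4

lemma Up.desc {P : Finset V} {z t : V} {n : ℕ} (hu : Up c par P z n t) : Desc c par t z := by
  induction hu with
  | zero => exact Desc.refl
  | succ hu h1 h2 h3 h4 ih =>
    rename_i n u v
    have huv : u ∈ ch c par v := by rw [h4]; exact mem_singleton_self _
    exact Desc.of_ch huv ih

/-- the vertices of a chain -/
lemma Up.verts (h : Rooted T c par dep) {P : Finset V} {z t : V} {n : ℕ}
    (hu : Up c par P z n t) (hz : z ∉ leaves c par) :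
    ∃ D : Finset V, D.card = n ∧ ∀ v ∈ D, v ≠ c ∧ v ∉ leaves c par ∧ Desc c par t v ∧ v ≠ z ∧
      ∃ u, u ∉ leaves c par ∧ ch c par v = {u} := by
  induction hu with
  | zero => exact ⟨∅, card_empty, fun v hv => absurd hv (notMem_empty v)⟩
  | succ hu h1 h2 h3 h4 ih =>
    rename_i n u v
    obtain ⟨D, hD, hD2⟩ := ih
    have huv : u ∈ ch c par v := by rw [h4]; exact mem_singleton_self _
    have hul : u ∉ leaves c par := by
      cases hu with
      | zero => exact hz
      | succ _ _ h7 _ _ => exact h7
    have hdu := dep_ch h huv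
    have hvD : v ∉ D := by
      intro hv
      have := (hD2 v hv).2.2.1.dep_le h
      omega
    refine ⟨insert v D, by rw [card_insert_of_notMem hvD, hD], ?_⟩
    intro w hw
    rcases mem_insert.1 hw with rfl | hw
    · refine ⟨h1, h2, Desc.refl, ?_, u, hul, h4⟩
      rintro rfl
      have := (Up.desc hu).dep_le h
      omega
    · obtain ⟨h5, h6, h7, h8, h9⟩ := hD2 w hw
      exact ⟨h5, h6, Desc.of_ch huv h7, h8, h9⟩

/-- change of the set in `Up` -/
lemma Up.change (h : Rooted T c par dep) {P : Finset V} {z t : V} {n : ℕ}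
    (hu : Up c par ∅ z n t) (hz : z ∉ leaves c par)
    (hP : ∀ v, Desc c par t v → v ≠ z → (∃ u, ch c par v = {u} ∧
      u ∉ leaves c par) → v ∉ P) :
    Up c par P z n t := by
  induction hu with
  | zero => exact Up.zero
  | succ hu h1 h2 h3 h4 ih =>
    rename_i n u v
    have huv : u ∈ ch c par v := by rw [h4]; exact mem_singleton_self _
    have hul : u ∉ leaves c par := by
      cases hu with
      | zero => exact hz
      | succ _ _ h7 _ _ => exact h7
    refine Up.succ (ih ?_) h1 h2 ?_ h4
    · intro v' hd h6 h7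
      exact hP v' (Desc.of_ch huv hd) h6 h7
    · apply hP v Desc.refl ?_ ⟨u, h4, hul⟩
      rintro rfl
      have := (Up.desc hu).dep_le h
      have := dep_ch h huv
      omega

/-- initial ready vertices have large sums -/
lemma ready_ok {p : ℕ} {x : V} (hx : x ∈ ch c par c)
    (hxl : x ∉ leaves c par) {As K : Finset V} {z : V} {e0 : V → ℕ}
    (hAll : ∀ v, v ≠ c → ∀ l ∈ leaves c par, ch c par v = {l} → v ∈ As ∨ v = z)
    (hK : ∀ v ∈ K, par v ∈ K ∨ par v = x) (hcK : c ∉ K)
    (hyA : ∀ v ∈ As, p ≤ e0 v + 1)
    (hpair : ∀ v, v ≠ x → v ≠ z → v ∉ K → 2 ≤ (lch c par v).card →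
      p ≤ ∑ u ∈ lch c par v, e0 u + 1) (hzc : z ≠ c)
    (hw : (∃ u ∈ ch c par c, u ≠ x ∧ u ∉ leaves c par) ∨ 2 ≤ (lch c par c).card) :
    (∀ v, v ∉ leaves c par → v ≠ c → v ≠ x → v ∉ As ∪ K → v ≠ z →
      (∀ u ∈ ch c par v, u ∈ leaves c par ∨ u ∈ As ∪ K) → p ≤ S c par e0 v + 1) ∧
    ((∀ u ∈ ch c par c, u ≠ x → u ∈ leaves c par ∨ u ∈ As ∪ K) →
      p ≤ ∑ u ∈ (ch c par c).erase x, e0 u + 1) := by
  have hxc : x ≠ c := (mem_ch.1 hx).1
  constructor
  · intro v hvl hvc hvx hvP hvz hch
    by_cases h1 : ∃ u ∈ ch c par v, u ∉ leaves c par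
    · obtain ⟨u, hu, hul⟩ := h1
      rcases hch u hu with h2 | h2
      · exact absurd h2 hul
      · rcases mem_union.1 h2 with h3 | h3
        · have h4 : e0 u ≤ S c par e0 v :=
            single_le_sum (f := e0) (fun _ _ => Nat.zero_le _) hu
          have := hyA u h3
          omega
        · exfalso
          have h4 := hK u h3
          rw [(mem_ch.1 hu).2] at h4
          rcases h4 with h4 | h4
          · exact hvP (mem_union_right _ h4)
          · exact hvx h4
    · push Not at h1
      have h2 : lch c par v = ch c par v := by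
        unfold lch
        rw [filter_true_of_mem h1]
      have h3 : ch c par v ≠ ∅ := fun hcon => hvl (mem_leaves.2 ⟨hvc, hcon⟩)
      have h4 : (ch c par v).card ≠ 1 := by
        intro h4
        obtain ⟨l, hl⟩ := card_eq_one.1 h4
        have h5 : l ∈ ch c par v := by rw [hl]; exact mem_singleton_self _
        rcases hAll v hvc l (h1 l h5) hl with h6 | h6
        · exact hvP (mem_union_left _ h6)
        · exact hvz h6
      have h5 : 0 < (ch c par v).card := card_pos.2 (nonempty_iff_ne_empty.2 h3)
      have h6 := hpair v hvx hvz (fun hcon => hvP (mem_union_right _ hcon))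
        (by rw [h2]; omega)
      rw [h2] at h6
      exact h6
  · intro hch
    by_cases h1 : ∃ u ∈ ch c par c, u ≠ x ∧ u ∉ leaves c par
    · obtain ⟨u, hu, hux, hul⟩ := h1
      rcases hch u hu hux with h2 | h2
      · exact absurd h2 hul
      · rcases mem_union.1 h2 with h3 | h3
        · have h4 : e0 u ≤ ∑ u ∈ (ch c par c).erase x, e0 u :=
            single_le_sum (f := e0) (fun _ _ => Nat.zero_le _) (mem_erase.2 ⟨hux, hu⟩)
          have := hyA u h3
          omega
        · exfalso
          have h4 := hK u h3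
          rw [(mem_ch.1 hu).2] at h4
          rcases h4 with h4 | h4
          · exact hcK h4
          · exact hxc h4.symm
    · rcases hw with h2 | h2
      · exact absurd h2 h1
      · have h3 := hpair c (Ne.symm hxc) (Ne.symm hzc) hcK h2
        have h4 : ∑ u ∈ lch c par c, e0 u ≤ ∑ u ∈ (ch c par c).erase x, e0 u := by
          apply sum_le_sum_of_subset
          intro u hu
          rw [mem_lch] at hu
          rw [mem_erase]
          refine ⟨?_, hu.1⟩
          rintro rfl
          exact hxl hu.2
        omega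

end Pool.Agent.W104.Irr
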