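import Pool.Agent.W104.Irr.Labs

/-!
Case L2: the general form.
-/

namespace Pool.Agent.W104.Irr

open Finset Pool.Agent.Helper999.Irr

variable {V : Type} [Fintype V] [DecidableEq V] {T : SimpleGraph V} {c : V} {par : V → V}
  {dep : V → ℕ}

theorem l2gen (hfin : L2fin) (hAbs : AbsChain) (h : Rooted T c par dep) {p : ℕ} (hp : 3 ≤ p)
    (hm : (univ \ leaves c par).card ≤ p + 1)
    {x : V} (hx : x ∈ ch c par c) (hxl : x ∉ leaves c par)
    (hw : (∃ u ∈ ch c par c, u ≠ x ∧ u ∉ leaves c par) ∨ 2 ≤ (lch c par c).card)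
    {As K : Finset V} {l : V → V}
    (hA : ∀ v ∈ As, v ≠ c ∧ v ∉ leaves c par ∧ ch c par v = {l v} ∧ l v ∈ leaves c par)
    {lam e0 sl0 : V → ℕ} {f0 i : ℕ} (hLL : LL c par p lam)
    (st : St c par p {p + 1} (p - 1) (2 * i) (As ∪ K) e0 sl0 (As.card + 2 * i) f0)
    {k : V} (hk : k ∈ ch c par x) (hkP : k ∈ leaves c par ∨ k ∈ As ∪ K)
    (hK : ∀ v ∈ K, Desc c par k v ∧ (par v ∈ K ∨ v = k) ∧ v ∉ As ∧ v ≠ c ∧ v ∉ leaves c par)
    (he0 : ∀ v, v ∈ leaves c par → e0 v = lam v) (hyA : ∀ v ∈ As, p ≤ e0 v + 1)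
    (hslA : ∀ v ∈ As, sl0 v ≤ As.card) (hslK : ∀ v ∈ K, As.card + 2 * i < sl0 v)
    {z t : V} (hup : Up c par ∅ z (2 * i) t) (ht : t ∈ ch c par x) (hkt : k ≠ t)
    (hzl : z ∉ leaves c par) (hzA : z ∉ As) (hz : ∀ u ∈ ch c par z, u ∈ leaves c par ∨ u ∈ As)
    (hSz : S c par e0 z = p)
    (hAll : ∀ v, v ≠ c → ∀ l ∈ leaves c par, ch c par v = {l} → v ∈ As ∨ v = z)
    (hpair : ∀ v, v ≠ x → v ≠ z → v ∉ K → 2 ≤ (lch c par v).card →
      p ≤ ∑ u ∈ lch c par v, lam u + 1)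
    {δ : ℕ} (hδ : p ≤ e0 k + δ)
    (hcase : δ + i ≤ As.card + 2 * i ∨ (i = 0 ∧ As.card = 0 ∧ δ = 1 ∧ ∃ l', ch c par z = {l'} ∧
      l' ∈ leaves c par ∧ lam l' = p ∧ k ∈ leaves c par ∧ lam k + 1 = p)) : Lab c par p := by
  classical
  have htc : t ≠ c := (mem_ch.1 ht).1
  have hdk := dep_ch h hk
  have hdesc : Desc c par t z := hup.desc
  have hzc : z ≠ c := hdesc.ne_root htc
  have hsib : ∀ v, Desc c par t v → v ∉ K := by
    intro v hv hcon
    exact desc_sib h ht hk (Ne.symm hkt) hv (hK v hcon).1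
  have hzK : z ∉ K := hsib z hdesc
  have hxK : x ∉ K := by
    intro hcon
    have := (hK x hcon).1.dep_le h
    omega
  have hxA : x ∉ As := by
    intro hcon
    have h1 := (hA x hcon).2.2.1
    rw [h1, mem_singleton] at hk ht
    exact hkt (hk.trans ht.symm)
  have hcK : c ∉ K := fun hcon => (hK c hcon).2.2.2.1 rfl
  have hup' : Up c par (As ∪ K) z (2 * i) t := by
    apply hup.change h hzl
    rintro v hv hvz ⟨u, hu, hul⟩ hcon
    rcases mem_union.1 hcon with h1 | h1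
    · have h2 := (hA v h1).2.2.1
      rw [hu, singleton_inj] at h2
      apply hul
      rw [h2]
      exact (hA v h1).2.2.2
    · exact hsib v hv h1
  have hzP : z ∉ As ∪ K := by
    rw [mem_union]
    push Not
    exact ⟨hzA, hzK⟩
  have hz' : ∀ u ∈ ch c par z, u ∈ leaves c par ∨ u ∈ As ∪ K := by
    intro u hu
    rcases hz u hu with h1 | h1
    · exact Or.inl h1
    · exact Or.inr (mem_union_left _ h1)
  obtain ⟨C, G, F, habs⟩ := hAbs T c par dep h p (As ∪ K) e0 z hzc hzl hzP hz' hSz i As.card t hup'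
  have hLL0 : LL c par p e0 := by
    constructor
    · intro v hv
      rw [he0 v hv]; exact hLL.1 v hv
    · intro u hu v hv huv
      rw [he0 u hu, he0 v hv] at huv
      exact hLL.2 hu hv huv
  obtain ⟨hr1, hr2⟩ := ready_ok (p := p) hx hxl (As := As) (K := K) (z := z) (e0 := e0) hAll
    (by
      intro v hv
      rcases (hK v hv).2.1 with h1 | h1
      · exact Or.inl h1
      · right; rw [h1]; exact (mem_ch.1 hk).2)
    hcK hyA
    (by
      intro v h1 h2 h3 h4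
      have h5 := hpair v h1 h2 h3 h4
      rw [sum_congr rfl (fun u hu => he0 u (mem_lch.1 hu).2)]
      exact h5) hzc hw
  apply l2core hfin h hp hm hLL0 st hx hxl
    (by rw [mem_union]; push Not; exact ⟨hxA, hxK⟩) habs ht hz' (le_refl _)
    (by
      intro v hv
      rcases mem_union.1 hv with h1 | h1
      · exact Or.inl (hslA v h1)
      · exact Or.inr (hslK v h1)) hk hkt hkP hδ
    (by
      rcases hcase with h1 | ⟨h1, h2, h3, l', h4, h5, h6, h7, h8⟩
      · exact Or.inl h1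
      · right
        refine ⟨h1, by omega, h3, l', h4, h5, ?_, h7, ?_⟩
        · rw [he0 l' h5]; exact h6
        · rw [he0 k h7]; exact h8)
    (by
      intro v h1 h2 h3 h4 h5 h6
      apply hr1 v h1 h2 h3 h4 _ h6
      rintro rfl
      exact h5 habs.memz) hr2

end Pool.Agent.W104.Irr
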