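import Pool.Agent.W104.Irr.Core

/-!
The greedy procedure.
-/

namespace Pool.Agent.W104.Irr

open Finset Pool.Agent.Helper999.Irr

variable {V : Type} [Fintype V] [DecidableEq V] {T : SimpleGraph V} {c : V} {par : V → V}
  {dep : V → ℕ}

theorem greedy_aux (h : Rooted T c par dep) {p : ℕ} {Res : Finset ℕ} {q b : ℕ} (hq : q ≤ p)
    (hRes : ∀ t ∈ Res, p < t) :
    ∀ (n : ℕ) (Q P : Finset V) (e sl : V → ℕ) (a f : ℕ) (z : V), Q.card = n →
      St c par p Res q b P e sl a f → Disjoint Q P → (∀ v ∈ Q, v ≠ c ∧ v ∉ leaves c par) →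
      (∀ v ∈ Q, ∀ u ∈ ch c par v, u ∈ leaves c par ∨ u ∈ P ∨ u ∈ Q) →
      (∀ v ∈ Q, (∀ u ∈ ch c par v, u ∈ leaves c par ∨ u ∈ P) →
        (f ≤ S c par e v ∨ (p ≤ S c par e v + 1 ∧ 1 ≤ Res.card)) ∨
          (v = z ∧ a + 1 ≤ S c par e v)) →
      P.card + Q.card + b + Res.card ≤ q →
      ∃ e' sl' a' f', St c par p Res q b (P ∪ Q) e' sl' a' f' ∧ (∀ v, v ∉ Q → e' v = e v) ∧
        (∀ v, v ∉ Q → sl' v = sl v) ∧ a ≤ a' ∧ f' ≤ f ∧ (∀ v ∈ Q, a < sl' v ∧ a + 1 ≤ e' v) ∧
        (Q.Nonempty → ∃ u ∈ Q, par u ∉ Q ∧ a' + 1 ≤ e' u) := by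
  intro n
  induction n with
  | zero =>
    intro Q P e sl a f z hQ st _ _ _ _ _
    rw [card_eq_zero] at hQ
    subst hQ
    refine ⟨e, sl, a, f, by rw [union_empty]; exact st, fun _ _ => rfl, fun _ _ => rfl, le_refl _,
      le_refl _, fun v hv => absurd hv (notMem_empty v), fun h => absurd h not_nonempty_empty⟩
  | succ n ih =>
    intro Q P e sl a f z hQ st hdis hnl hcl hready hcard
    have hQne : Q.Nonempty := by rw [← card_pos]; omega
    have hcnt := st.cnt
    have hfq := st.fq
    have hk : a + (P.filter (fun v => p < sl v)).card + Res.card + 1 ≤ f := by omega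
    -- the vertex to process
    obtain ⟨v, hvQ, hvready, hvz⟩ : ∃ v ∈ Q, (∀ u ∈ ch c par v, u ∈ leaves c par ∨ u ∈ P) ∧
        (∀ w ∈ Q, (∀ u ∈ ch c par w, u ∈ leaves c par ∨ u ∈ P) → w = z → v = z) := by
      by_cases hz : z ∈ Q ∧ ∀ u ∈ ch c par z, u ∈ leaves c par ∨ u ∈ P
      · exact ⟨z, hz.1, hz.2, fun _ _ _ _ => rfl⟩
      · obtain ⟨v, hvQ, hmax⟩ := exists_max_image Q dep hQne
        refine ⟨v, hvQ, ?_, ?_⟩
        · intro u hu
          rcases hcl v hvQ u hu with h1 | h1 | h1
          · exact Or.inl h1
          · exact Or.inr h1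
          · have h2 := hmax u h1
            have h3 := dep_ch h hu
            omega
        · intro w hw hwr hwz
          subst hwz
          exact absurd ⟨hw, hwr⟩ hz
    have hvP : v ∉ P := fun hcon => disjoint_left.1 hdis hvQ hcon
    have hvS : f ≤ S c par e v ∨ a + 1 ≤ S c par e v := by
      rcases hready v hvQ hvready with (h1 | ⟨h1, h2⟩) | h1
      · exact Or.inl h1
      · right; omega
      · exact Or.inr h1.2
    obtain ⟨y, t, a1, f1, st1, ha1, hf1, hat, hy⟩ := step h st hq hRes hvP (hnl v hvQ).1
      (hnl v hvQ).2 hvready hvS hk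
    have hQ1 : (Q.erase v).card = n := by rw [card_erase_of_mem hvQ]; omega
    by_cases hn : n = 0
    · -- last vertex
      have hQv : Q = {v} := by
        rw [hn] at hQ1
        rw [card_eq_zero] at hQ1
        rw [← insert_erase hvQ, hQ1]
        rfl
      refine ⟨Function.update e v y, Function.update sl v t, a1, f1, ?_, ?_, ?_, ha1, hf1, ?_, ?_⟩
      · rw [hQv, union_comm, ← insert_eq]; exact st1
      · intro u hu
        rw [Function.update_of_ne]
        rintro rfl
        exact hu hvQ
      · intro u hu
        rw [Function.update_of_ne]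
        rintro rfl
        exact hu hvQ
      · intro u hu
        rw [hQv, mem_singleton] at hu
        subst hu
        rw [Function.update_self, Function.update_self]
        omega
      · intro _
        refine ⟨v, hvQ, ?_, ?_⟩
        · rw [hQv, mem_singleton]
          intro hcon
          have := (h.h1 v (hnl v hvQ).1).2
          rw [hcon] at this
          omega
        · rw [Function.update_self]; exact hy
    · have hdis1 : Disjoint (Q.erase v) (insert v P) := by
        rw [disjoint_left]
        intro u hu hu2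
        rcases mem_insert.1 hu2 with rfl | hu2
        · exact (mem_erase.1 hu).1 rfl
        · exact disjoint_left.1 hdis (mem_erase.1 hu).2 hu2
      obtain ⟨e', sl', a', f', st', he', hsl', haa, hff, hall, hlast⟩ :=
        ih (Q.erase v) (insert v P) _ _ a1 f1 (par v) hQ1 st1 hdis1
          (fun u hu => hnl u (mem_erase.1 hu).2)
          (by
            intro u hu w hw
            rcases hcl u (mem_erase.1 hu).2 w hw with h1 | h1 | h1
            · exact Or.inl h1
            · exact Or.inr (Or.inl (mem_insert_of_mem h1))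
            · by_cases hwv : w = v
              · subst hwv; exact Or.inr (Or.inl (mem_insert_self _ _))
              · exact Or.inr (Or.inr (mem_erase.2 ⟨hwv, h1⟩)))
          (by
            intro u hu hur
            have huv := (mem_erase.1 hu).1
            have huQ := (mem_erase.1 hu).2
            by_cases hvu : v ∈ ch c par u
            · right
              refine ⟨(mem_ch.1 hvu).2.symm, ?_⟩
              have h1 : Function.update e v y v ≤ S c par (Function.update e v y) u :=
                single_le_sum (f := Function.update e v y) (fun _ _ => Nat.zero_le _) hvu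
              rw [Function.update_self] at h1
              omega
            · have hr : ∀ w ∈ ch c par u, w ∈ leaves c par ∨ w ∈ P := by
                intro w hw
                rcases hur w hw with h1 | h1
                · exact Or.inl h1
                · rcases mem_insert.1 h1 with rfl | h1
                  · exact absurd hw hvu
                  · exact Or.inr h1
              left
              rw [S_update_of_notMem hvu]
              rcases hready u huQ hr with (h1 | h1) | h1
              · left; omega
              · right; exact h1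
              · exact absurd ((hvz u huQ hr h1.1).trans h1.1.symm).symm huv)
          (by rw [card_insert_of_notMem hvP, hQ1]; omega)
      have hU : insert v P ∪ Q.erase v = P ∪ Q := by
        ext u
        simp only [mem_union, mem_insert, mem_erase]
        constructor
        · rintro ((rfl | h1) | h1)
          · exact Or.inr hvQ
          · exact Or.inl h1
          · exact Or.inr h1.2
        · rintro (h1 | h1)
          · exact Or.inl (Or.inr h1)
          · by_cases h2 : u = v
            · exact Or.inl (Or.inl h2)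
            · exact Or.inr ⟨h2, h1⟩
      refine ⟨e', sl', a', f', ?_, ?_, ?_, ha1.trans haa, hff.trans hf1, ?_, ?_⟩
      · rw [← hU]; exact st'
      · intro u hu
        have huv : u ≠ v := by rintro rfl; exact hu hvQ
        rw [he' u (fun hcon => hu (mem_erase.1 hcon).2), Function.update_of_ne huv]
      · intro u hu
        have huv : u ≠ v := by rintro rfl; exact hu hvQ
        rw [hsl' u (fun hcon => hu (mem_erase.1 hcon).2), Function.update_of_ne huv]
      · intro u hu
        by_cases huv : u = v
        · subst huv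
          rw [he' u (notMem_erase _ _), hsl' u (notMem_erase _ _), Function.update_self,
            Function.update_self]
          omega
        · have := hall u (mem_erase.2 ⟨huv, hu⟩)
          omega
      · intro _
        obtain ⟨u, hu, hpu, hau⟩ := hlast (by rw [← card_pos]; omega)
        refine ⟨u, (mem_erase.1 hu).2, ?_, hau⟩
        intro hcon
        apply hpu
        rw [mem_erase]
        refine ⟨?_, hcon⟩
        intro h1
        have huQ := (mem_erase.1 hu).2
        rcases hvready u (mem_ch.2 ⟨(hnl u huQ).1, h1⟩) with h2 | h2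
        · exact (hnl u huQ).2 h2
        · exact disjoint_left.1 hdis huQ h2

theorem greedy (h : Rooted T c par dep) {p : ℕ} {Res : Finset ℕ} {q b : ℕ} (hq : q ≤ p)
    (hRes : ∀ t ∈ Res, p < t) {Q P : Finset V} {e sl : V → ℕ} {a f : ℕ}
    (st : St c par p Res q b P e sl a f) (hdis : Disjoint Q P)
    (hnl : ∀ v ∈ Q, v ≠ c ∧ v ∉ leaves c par)
    (hcl : ∀ v ∈ Q, ∀ u ∈ ch c par v, u ∈ leaves c par ∨ u ∈ P ∨ u ∈ Q)
    (hready : ∀ v ∈ Q, (∀ u ∈ ch c par v, u ∈ leaves c par ∨ u ∈ P) →
      f ≤ S c par e v ∨ (p ≤ S c par e v + 1 ∧ 1 ≤ Res.card))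
    (hcard : P.card + Q.card + b + Res.card ≤ q) :
    ∃ e' sl' a' f', St c par p Res q b (P ∪ Q) e' sl' a' f' ∧ (∀ v, v ∉ Q → e' v = e v) ∧
      (∀ v, v ∉ Q → sl' v = sl v) ∧ a ≤ a' ∧ f' ≤ f ∧ (∀ v ∈ Q, a < sl' v ∧ a + 1 ≤ e' v) ∧
      (Q.Nonempty → ∃ u ∈ Q, par u ∉ Q ∧ a' + 1 ≤ e' u) :=
  greedy_aux h hq hRes Q.card Q P e sl a f c rfl st hdis hnl hcl
    (fun v hv hr => Or.inl (hready v hv hr)) hcard

end Pool.Agent.W104.Irr
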