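import Pool.Agent.W104.Irr.Gen

/-!
Case L2: the kinds of the second child.
-/

namespace Pool.Agent.W104.Irr

open Finset Pool.Agent.Helper999.Irr

variable {V : Type} [Fintype V] [DecidableEq V] {T : SimpleGraph V} {c : V} {par : V → V}
  {dep : V → ℕ}

/-- the context of case L2 -/
structure Cx (T : SimpleGraph V) (c : V) (par : V → V) (dep : V → ℕ) (p : ℕ) (x : V) : Prop where
  fin : L2fin
  abs : AbsChain
  h : Rooted T c par dep
  hp : 3 ≤ p
  hm : (univ \ leaves c par).card ≤ p + 1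
  hx : x ∈ ch c par c
  hxl : x ∉ leaves c par
  hw : (∃ u ∈ ch c par c, u ≠ x ∧ u ∉ leaves c par) ∨ 2 ≤ (lch c par c).card

/-- the data of the absorber, the closed vertices and the leaf labels -/
structure Zd (c : V) (par : V → V) (p : ℕ) (x : V) (As : Finset V) (l : V → V) (lam : V → ℕ)
    (ε i : ℕ) (z t : V) : Prop where
  hA : ∀ v ∈ As, v ≠ c ∧ v ∉ leaves c par ∧ ch c par v = {l v} ∧ l v ∈ leaves c par
  hl : ∀ v ∈ As, ε < lam (l v) ∧ lam (l v) ≤ As.card + ε
  hLL : LL c par p lam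
  hε : ε ≤ 1
  hup : Up c par ∅ z (2 * i) t
  ht : t ∈ ch c par x
  hzl : z ∉ leaves c par
  hzA : z ∉ As
  hz : ∀ u ∈ ch c par z, u ∈ leaves c par ∨ u ∈ As
  hSz : S c par (fun v => if v ∈ As then p - ε else lam v) z = p
  hAll : ∀ v, v ≠ c → ∀ l ∈ leaves c par, ch c par v = {l} → v ∈ As ∨ v = z

lemma cardb {p : ℕ} {x : V} (cx : Cx T c par dep p x) {As : Finset V} {l : V → V} {lam : V → ℕ}
    {ε i : ℕ} {z t : V} (zd : Zd c par p x As l lam ε i z t) {k : V} (hk : k ∈ ch c par x)
    (hkt : k ≠ t) {D : Finset V}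
    (hD : ∀ v ∈ D, v ≠ c ∧ v ∉ leaves c par ∧ v ∉ As ∧ Desc c par k v) :
    As.card + D.card + 2 * i + 2 ≤ p := by
  classical
  obtain ⟨D1, hD1, hD2⟩ := zd.hup.verts cx.h zd.hzl
  have htc : t ≠ c := (mem_ch.1 zd.ht).1
  have hzc : z ≠ c := zd.hup.desc.ne_root htc
  have hxc : x ≠ c := (mem_ch.1 cx.hx).1
  have hdt := dep_ch cx.h zd.ht
  have hdk := dep_ch cx.h hk
  have hxA : x ∉ As := by
    intro hcon
    have h1 := (zd.hA x hcon).2.2.1
    have h2 := zd.ht
    rw [h1, mem_singleton] at hk h2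
    exact hkt (hk.trans h2.symm)
  have hzD1 : z ∉ D1 := fun hcon => (hD2 z hcon).2.2.2.1 rfl
  have hDD : Disjoint D (insert z D1) := by
    rw [disjoint_left]
    intro v hv hv2
    have h1 := (hD v hv).2.2.2
    have h2 : Desc c par t v := by
      rcases mem_insert.1 hv2 with rfl | h3
      · exact zd.hup.desc
      · exact (hD2 v h3).2.2.1
    exact desc_sib cx.h zd.ht hk (Ne.symm hkt) h2 h1
  have hAD : Disjoint As (D ∪ insert z D1) := by
    rw [disjoint_left]
    intro v hv hv2
    rcases mem_union.1 hv2 with h1 | h1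
    · exact (hD v h1).2.2.1 hv
    · rcases mem_insert.1 h1 with rfl | h1
      · exact zd.hzA hv
      · obtain ⟨u, hu, hu2⟩ := (hD2 v h1).2.2.2.2
        rw [(zd.hA v hv).2.2.1, singleton_inj] at hu2
        apply hu
        rw [← hu2]
        exact (zd.hA v hv).2.2.2
  have hall : ∀ v ∈ As ∪ (D ∪ insert z D1), v ≠ c ∧ v ≠ x ∧ v ∉ leaves c par := by
    intro v hv
    rcases mem_union.1 hv with h1 | h1
    · refine ⟨(zd.hA v h1).1, ?_, (zd.hA v h1).2.1⟩
      rintro rfl; exact hxA h1
    rcases mem_union.1 h1 with h1 | h1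
    · obtain ⟨h2, h3, h4, h5⟩ := hD v h1
      refine ⟨h2, ?_, h3⟩
      rintro rfl
      have := h5.dep_le cx.h
      omega
    rcases mem_insert.1 h1 with rfl | h1
    · refine ⟨hzc, ?_, zd.hzl⟩
      rintro rfl
      have := zd.hup.desc.dep_le cx.h
      omega
    · obtain ⟨h2, h3, h4, h5, h6⟩ := hD2 v h1
      refine ⟨h2, ?_, h3⟩
      rintro rfl
      have := h4.dep_le cx.h
      omega
  have hsub : insert c (insert x (As ∪ (D ∪ insert z D1))) ⊆ univ \ leaves c par := by
    intro v hv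
    rw [mem_sdiff]
    refine ⟨mem_univ _, ?_⟩
    rcases mem_insert.1 hv with rfl | hv
    · exact root_notMem_leaves
    rcases mem_insert.1 hv with rfl | hv
    · exact cx.hxl
    · exact (hall v hv).2.2
  have h1 := card_le_card hsub
  have hx1 : x ∉ As ∪ (D ∪ insert z D1) := fun hcon => (hall x hcon).2.1 rfl
  have hc1 : c ∉ insert x (As ∪ (D ∪ insert z D1)) := by
    rw [mem_insert]
    push Not
    exact ⟨Ne.symm hxc, fun hcon => (hall c hcon).1 rfl⟩
  rw [card_insert_of_notMem hc1, card_insert_of_notMem hx1, card_union_of_disjoint hAD,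
    card_union_of_disjoint hDD, card_insert_of_notMem hzD1, hD1] at h1
  have := cx.hm
  omega

/-- the initial state -/
lemma zinit {p : ℕ} (hp : 3 ≤ p) {x : V} {As : Finset V} {l : V → V} {lam : V → ℕ}
    {ε i : ℕ} {z t : V} (zd : Zd c par p x As l lam ε i z t) (hb : As.card + 2 * i + 2 ≤ p) :
    St c par p {p + 1} (p - 1) (2 * i) As (fun v => if v ∈ As then p - ε else lam v)
      (fun v => lam (l v) - ε) (As.card + 2 * i) (p - 1) := by
  apply init_closed zd.hA zd.hl zd.hLL
  · have := zd.hε; omega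
  · intro t ht
    rw [mem_singleton] at ht
    omega
  · omega
  · omega

/-- the second child is a leaf or a closed vertex -/
theorem kleaf {p : ℕ} {x : V} (cx : Cx T c par dep p x) {As : Finset V} {l : V → V} {lam : V → ℕ}
    {ε i : ℕ} {z t : V} (zd : Zd c par p x As l lam ε i z t) {k : V} (hk : k ∈ ch c par x)
    (hkt : k ≠ t) (hkP : k ∈ leaves c par ∨ k ∈ As)
    (hpair : ∀ v, v ≠ x → v ≠ z → 2 ≤ (lch c par v).card → p ≤ ∑ u ∈ lch c par v, lam u + 1)
    {δ : ℕ} (hδ : (k ∈ leaves c par ∧ p ≤ lam k + δ) ∨ (k ∈ As ∧ ε ≤ δ))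
    (hcase : δ + i ≤ As.card + 2 * i ∨ (i = 0 ∧ As.card = 0 ∧ δ = 1 ∧ ∃ l', ch c par z = {l'} ∧
      l' ∈ leaves c par ∧ lam l' = p ∧ k ∈ leaves c par ∧ lam k + 1 = p)) : Lab c par p := by
  classical
  have hb := cardb cx zd hk hkt (D := ∅) (fun v hv => absurd hv (notMem_empty v))
  rw [card_empty] at hb
  have st := zinit cx.hp zd (by omega)
  have hlA : ∀ v ∈ leaves c par, v ∉ As := fun v hv hcon => (zd.hA v hcon).2.1 hv
  have hε := zd.hε
  have st' : St c par p {p + 1} (p - 1) (2 * i) (As ∪ ∅) (fun v => if v ∈ As then p - ε else lam v)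
      (fun v => lam (l v) - ε) (As.card + 2 * i) (p - 1) := by
    rw [union_empty]; exact st
  apply l2gen cx.fin cx.abs cx.h cx.hp cx.hm cx.hx cx.hxl cx.hw zd.hA zd.hLL st' hk (δ := δ)
    (by rw [union_empty]; exact hkP) (fun v hv => absurd hv (notMem_empty v))
    (fun v hv => by simp only [if_neg (hlA v hv)])
    (fun v hv => by simp only [if_pos hv]; omega)
    (fun v hv => by have := zd.hl v hv; omega)
    (fun v hv => absurd hv (notMem_empty v)) zd.hup zd.ht hkt zd.hzl zd.hzA zd.hz zd.hSz zd.hAll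
    (fun v h1 h2 _ h4 => hpair v h1 h2 h4) _ hcase
  rcases hδ with ⟨h1, h2⟩ | ⟨h1, h2⟩
  · simp only [if_neg (hlA k h1)]; exact h2
  · simp only [if_pos h1]; omega

/-- the second child is a star end -/
theorem kstar {p : ℕ} {x : V} (cx : Cx T c par dep p x) {As : Finset V} {l : V → V} {lam : V → ℕ}
    {ε i : ℕ} {z t : V} (zd : Zd c par p x As l lam ε i z t) {k : V} (hk : k ∈ ch c par x)
    (hkt : k ≠ t) (hkl : k ∉ leaves c par) (hkA : k ∉ As)
    (hkc : ∀ u ∈ ch c par k, u ∈ leaves c par)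
    (hpair : ∀ v, v ≠ x → v ≠ z → v ≠ k → 2 ≤ (lch c par v).card →
      p ≤ ∑ u ∈ lch c par v, lam u + 1)
    {δ y s : ℕ} (hS : S c par lam k + y = p + s) (hy1 : 1 ≤ y) (hy2 : y ≤ p)
    (hs : p + 2 ≤ s ∨ s + 1 = p) (hδ : p ≤ y + δ) (hcase : δ + i ≤ As.card + 2 * i) :
    Lab c par p := by
  classical
  have hkc' : k ≠ c := (mem_ch.1 hk).1
  have hb := cardb cx zd hk hkt (D := {k}) (fun v hv => by
    rw [mem_singleton] at hv
    subst hv
    exact ⟨hkc', hkl, hkA, Desc.refl⟩)
  rw [card_singleton] at hb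
  have st := zinit cx.hp zd (by omega)
  have hlA : ∀ v ∈ leaves c par, v ∉ As := fun v hv hcon => (zd.hA v hcon).2.1 hv
  have hε := zd.hε
  have hSk : S c par (fun v => if v ∈ As then p - ε else lam v) k = S c par lam k := by
    apply S_congr
    intro u hu
    simp only [if_neg (hlA u (hkc u hu))]
  have hslA : ∀ v ∈ As, lam (l v) - ε ≤ As.card := by
    intro v hv
    have := zd.hl v hv
    omega
  have st2 : St c par p {p + 1} (p - 1) (2 * i) (insert k As)
      (Function.update (fun v => if v ∈ As then p - ε else lam v) k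
        (p + s - S c par (fun v => if v ∈ As then p - ε else lam v) k))
      (Function.update (fun v => lam (l v) - ε) k s) (As.card + 2 * i)
      (if p + 2 ≤ s then p - 1 else p - 2) := by
    apply st.assign cx.h hkA hkc' hkl (fun u hu => Or.inl (hkc u hu)) s (As.card + 2 * i)
      (if p + 2 ≤ s then p - 1 else p - 2)
    · rw [hSk]; omega
    · rw [hSk]; omega
    · rcases hs with h1 | h1
      · omega
      · have := cx.hp; omega
    · intro u hu hcon
      have := hslA u hu
      omega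
    · rw [mem_singleton]; omega
    · exact le_refl _
    · split_ifs <;> omega
    · split_ifs <;> omega
    · split_ifs <;> omega
    · split_ifs <;> omega
  have hy : p + s - S c par (fun v => if v ∈ As then p - ε else lam v) k = y := by
    rw [hSk]; omega
  rw [hy] at st2
  have hU : insert k As = As ∪ {k} := by
    rw [union_comm]; rfl
  rw [hU] at st2
  have hne : ∀ v, v ∉ ({k} : Finset V) → v ≠ k := fun v hv hcon => hv (mem_singleton.2 hcon)
  apply l2gen cx.fin cx.abs cx.h cx.hp cx.hm cx.hx cx.hxl cx.hw zd.hA zd.hLL st2 hk (δ := δ)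
    (Or.inr (mem_union_right _ (mem_singleton_self _)))
    (fun v hv => by
      rw [mem_singleton] at hv
      subst hv
      exact ⟨Desc.refl, Or.inr rfl, hkA, hkc', hkl⟩)
    (fun v hv => by
      have h1 : v ≠ k := by rintro rfl; exact hkl hv
      rw [Function.update_of_ne h1]
      simp only [if_neg (hlA v hv)])
    (fun v hv => by
      have h1 : v ≠ k := by rintro rfl; exact hkA hv
      rw [Function.update_of_ne h1]
      simp only [if_pos hv]; omega)
    (fun v hv => by
      have h1 : v ≠ k := by rintro rfl; exact hkA hv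
      rw [Function.update_of_ne h1]
      exact hslA v hv)
    (fun v hv => by
      rw [mem_singleton] at hv
      subst hv
      rw [Function.update_self]
      omega) zd.hup zd.ht hkt zd.hzl zd.hzA zd.hz _ zd.hAll
    (fun v h1 h2 h3 h4 => hpair v h1 h2 (hne v h3) h4) _ (Or.inl hcase)
  · rw [S_update_of_notMem]
    · exact zd.hSz
    · intro hcon
      rcases zd.hz k hcon with h1 | h1
      · exact hkl h1
      · exact hkA h1
  · rw [Function.update_self]; exact hδ

/-- the second child is a chain -/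
theorem kchain {p : ℕ} {x : V} (cx : Cx T c par dep p x) {As : Finset V} {l : V → V} {lam : V → ℕ}
    {i : ℕ} {z t : V} (zd : Zd c par p x As l lam 0 i z t) {k : V} (hk : k ∈ ch c par x)
    (hkt : k ≠ t) {z0 : V} {n : ℕ} (hup : Up c par ∅ z0 n k) (hz0 : z0 ∈ As)
    (hpair : ∀ v, v ≠ x → v ≠ z → 2 ≤ (lch c par v).card → p ≤ ∑ u ∈ lch c par v, lam u + 1)
    (hcase : (n + 1) / 2 + i ≤ As.card + 2 * i) : Lab c par p := by
  classical
  have hz0l : z0 ∉ leaves c par := (zd.hA z0 hz0).2.1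
  have hlA : ∀ v ∈ leaves c par, v ∉ As := fun v hv hcon => (zd.hA v hcon).2.1 hv
  obtain ⟨D, hD, hD2⟩ := hup.verts cx.h hz0l
  have hb := cardb cx zd hk hkt (D := D) (fun v hv => by
    obtain ⟨h1, h2, h3, h4, u, h5, h6⟩ := hD2 v hv
    refine ⟨h1, h2, ?_, h3⟩
    intro hcon
    rw [(zd.hA v hcon).2.2.1, singleton_inj] at h6
    apply h5
    rw [← h6]
    exact (zd.hA v hcon).2.2.2)
  rw [hD] at hb
  have st := zinit cx.hp zd (by omega)
  have hup' : Up c par As z0 n k := by
    apply hup.change cx.h hz0l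
    rintro v hv hvz ⟨u, hu, hul⟩ hcon
    have h2 := (zd.hA v hcon).2.2.1
    rw [hu, singleton_inj] at h2
    apply hul
    rw [h2]
    exact (zd.hA v hcon).2.2.2
  have hslA : ∀ v ∈ As, lam (l v) - 0 ≤ As.card := by
    intro v hv
    have := zd.hl v hv
    omega
  obtain ⟨K, e', sl', st', hK, he', hsl, hek, hkK⟩ := toprun cx.h st
    (by intro t ht; rw [mem_singleton] at ht; omega) hup' hz0
    (by simp only [if_pos hz0]; omega) (by omega)
  apply l2gen cx.fin cx.abs cx.h cx.hp cx.hm cx.hx cx.hxl cx.hw zd.hA zd.hLL st' hk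
    (δ := (n + 1) / 2) (Or.inr hkK)
    (fun v hv => hK v hv)
    (fun v hv => by
      rw [(he' v (fun hcon => (hK v hcon).2.2.2.2 hv)).1]
      simp only [if_neg (hlA v hv)])
    (fun v hv => by
      rw [(he' v (fun hcon => (hK v hcon).2.2.1 hv)).1]
      simp only [if_pos hv]; omega)
    (fun v hv => by
      rw [(he' v (fun hcon => (hK v hcon).2.2.1 hv)).2]
      exact hslA v hv)
    (fun v hv => (hsl v hv).1) zd.hup zd.ht hkt zd.hzl zd.hzA zd.hz _ zd.hAll
    (fun v h1 h2 _ h4 => hpair v h1 h2 h4) _ (Or.inl hcase)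
  · rw [← zd.hSz]
    apply S_congr
    intro u hu
    apply (he' u _).1
    intro hcon
    rcases zd.hz u hu with h1 | h1
    · exact (hK u hcon).2.2.2.2 h1
    · exact (hK u hcon).2.2.1 h1
  · omega

end Pool.Agent.W104.Irr
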