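import Pool.Agent.W104.Irr.Tags2

/-!
Case L2: summary.
-/

namespace Pool.Agent.W104.Irr

open Finset Pool.Agent.Helper999.Irr

variable {V : Type} [Fintype V] [DecidableEq V] {T : SimpleGraph V} {c : V} {par : V → V}
  {dep : V → ℕ}

/-- the excess formula -/
lemma excess (h : Rooted T c par dep) (hc2 : 2 ≤ (ch c par c).card) :
    ∑ v ∈ univ \ leaves c par, (dg T v - 2) + 2 = (leaves c par).card := by
  classical
  have h0 : dg T c ≠ 1 := by rw [dg_root h]; omega
  have h1 := handshake h
  have h2 : ∑ v : V, dg T v = ∑ v ∈ univ \ leaves c par, dg T v + ∑ v ∈ leaves c par, dg T v := by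
    rw [sum_sdiff (subset_univ _)]
  have h3 : ∑ v ∈ leaves c par, dg T v = (leaves c par).card := by
    rw [sum_congr rfl (fun v hv => (mem_leaves_iff h h0 v).1 hv), sum_const, smul_eq_mul, mul_one]
  have h4 : ∑ v ∈ univ \ leaves c par, dg T v =
      ∑ v ∈ univ \ leaves c par, (dg T v - 2) + (univ \ leaves c par).card * 2 := by
    rw [← smul_eq_mul, ← sum_const, ← sum_add_distrib]
    apply sum_congr rfl
    intro v hv
    rw [mem_sdiff] at hv
    have : 2 ≤ dg T v := by
      by_cases hvc : v = c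
      · rw [hvc, dg_root h]; exact hc2
      · rw [dg_ne h hvc]
        have h5 : ch c par v ≠ ∅ := fun hcon => hv.2 (mem_leaves.2 ⟨hvc, hcon⟩)
        have := card_pos.2 (nonempty_iff_ne_empty.2 h5)
        omega
    omega
  have h5 : (univ \ leaves c par).card + (leaves c par).card = Fintype.card V := by
    rw [← card_univ, card_sdiff_add_card_eq_card (subset_univ _)]
  omega

lemma count_ok (h : Rooted T c par dep) (hc2 : 2 ≤ (ch c par c).card) {x z k r : V}
    (hx3 : 3 ≤ dg T x) (hzx : z ∈ ch c par x) (hz2 : (ch c par z).card = 2)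
    (hr : r ≠ x) (hrz : r ≠ z) (hr3 : 3 ≤ dg T r) (hkA : k ∈ AA c par)
    (hno : ∀ t ∈ leaves c par, par t = z ∨ par t ∈ AA c par) :
    2 ≤ ((AA c par).erase k).card := by
  classical
  have h0 : dg T c ≠ 1 := by rw [dg_root h]; omega
  have hex := excess h hc2
  have hzc : z ≠ c := (mem_ch.1 hzx).1
  have hz3 : dg T z = 3 := by rw [dg_ne h hzc, hz2]
  have hxz : x ≠ z := by
    rintro rfl
    exact notMem_ch_self h _ hzx
  have hin : ∀ v, 3 ≤ dg T v → v ∈ univ \ leaves c par := by
    intro v hv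
    rw [mem_sdiff]
    refine ⟨mem_univ _, ?_⟩
    rw [mem_leaves_iff h h0]
    omega
  have h1 : 3 ≤ ∑ v ∈ univ \ leaves c par, (dg T v - 2) := by
    have h2 : ∑ v ∈ ({x, z, r} : Finset V), (dg T v - 2) ≤
        ∑ v ∈ univ \ leaves c par, (dg T v - 2) := by
      apply sum_le_sum_of_subset
      intro v hv
      rw [mem_insert, mem_insert, mem_singleton] at hv
      rcases hv with rfl | rfl | rfl
      · exact hin _ hx3
      · exact hin _ (by omega)
      · exact hin _ hr3
    rw [sum_insert (by simp [hxz, Ne.symm hr]), sum_insert (by simp [Ne.symm hrz]),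
      sum_singleton] at h2
    omega
  have h2 : (leaves c par).card ≤ 2 + (AA c par).card := by
    obtain ⟨l, hl⟩ := exists_lf c par
    have h3 : leaves c par ⊆ ch c par z ∪ (AA c par).image l := by
      intro t ht
      have h4 : t ∈ ch c par (par t) := mem_ch.2 ⟨(mem_leaves.1 ht).1, rfl⟩
      rcases hno t ht with h5 | h5
      · rw [h5] at h4
        exact mem_union_left _ h4
      · apply mem_union_right
        rw [(hl _ h5).2.2.1, mem_singleton] at h4
        rw [h4]
        exact mem_image_of_mem _ h5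
    have h4 := card_le_card h3
    have h5 := card_union_le (ch c par z) ((AA c par).image l)
    have h6 : ((AA c par).image l).card ≤ (AA c par).card := card_image_le
    omega
  rw [card_erase_of_mem hkA]
  omega

lemma Up.first {P : Finset V} {z t : V} {n : ℕ} (hu : Up c par P z (n + 1) t) :
    ∃ u, ch c par u = {z} ∧ u ∉ leaves c par ∧ Up c par P u n t := by
  generalize hm : n + 1 = m at hu
  induction hu generalizing n with
  | zero => omega
  | succ hu h1 h2 h3 h4 ih =>
    rename_i n' u v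
    have hn : n' = n := by omega
    subst hn
    cases hu with
    | zero => exact ⟨v, h4, h2, Up.zero⟩
    | succ hu' h1' h2' h3' h4' =>
      obtain ⟨w, hw1, hw2, hw3⟩ := ih rfl
      exact ⟨w, hw1, hw2, Up.succ hw3 h1 h2 h3 h4⟩

/-- inner descendants are chains or star ends -/
lemma chain_or_star (h : Rooted T c par dep) {x : V} (hxc : x ≠ c)
    (hd : ∀ v, Desc c par x v → v ≠ x → v ∉ leaves c par →
      (∃ u, ch c par v = {u}) ∨ (∀ u ∈ ch c par v, u ∈ leaves c par))
    (hB1 : ∀ v u, v ≠ c → ch c par v = {u} → u ∉ leaves c par →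
      (∀ w ∈ ch c par u, w ∈ leaves c par) → ∃ w, ch c par u = {w}) :
    ∀ v, Desc c par x v → v ≠ x → v ∉ leaves c par →
      ((∀ u ∈ ch c par v, u ∈ leaves c par) ∧ 2 ≤ (ch c par v).card) ∨
        ∃ z n, z ∈ AA c par ∧ Up c par ∅ z n v := by
  classical
  by_contra hcon
  push Not at hcon
  obtain ⟨v0, hv0, hv0x, hv0l, hv0n⟩ := hcon
  obtain ⟨v, hv, hmax⟩ := exists_max_image (univ.filter (fun v => Desc c par x v ∧ v ≠ x ∧
    v ∉ leaves c par ∧ ¬ (((∀ u ∈ ch c par v, u ∈ leaves c par) ∧ 2 ≤ (ch c par v).card) ∨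
        ∃ z n, z ∈ AA c par ∧ Up c par ∅ z n v))) dep ⟨v0, by
      rw [mem_filter]
      refine ⟨mem_univ _, hv0, hv0x, hv0l, ?_⟩
      rintro (h1 | ⟨z, n, h1, h2⟩)
      · have := hv0n.1 h1.1
        omega
      · exact hv0n.2 z n h1 h2⟩
  rw [mem_filter] at hv
  obtain ⟨-, hv1, hv2, hv3, hv4⟩ := hv
  apply hv4
  have hvc : v ≠ c := hv1.ne_root hxc
  have hne : ch c par v ≠ ∅ := fun hcon => hv3 (mem_leaves.2 ⟨hvc, hcon⟩)
  have hpos := card_pos.2 (nonempty_iff_ne_empty.2 hne)
  -- one child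
  have hone : ∀ u, ch c par v = {u} → ((∀ u ∈ ch c par v, u ∈ leaves c par) ∧
      2 ≤ (ch c par v).card) ∨ ∃ z n, z ∈ AA c par ∧ Up c par ∅ z n v := by
    intro u hu
    have huv : u ∈ ch c par v := by rw [hu]; exact mem_singleton_self _
    by_cases hul : u ∈ leaves c par
    · right
      exact ⟨v, 0, mem_AA.2 ⟨hvc, u, hul, hu⟩, Up.zero⟩
    · have hdu := dep_ch h huv
      have hxv := hv1.dep_le h
      have hnot : ¬ (¬ (((∀ w ∈ ch c par u, w ∈ leaves c par) ∧ 2 ≤ (ch c par u).card) ∨
          ∃ z n, z ∈ AA c par ∧ Up c par ∅ z n u)) := by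
        intro hcon
        have := hmax u (by
          rw [mem_filter]
          refine ⟨mem_univ _, hv1.child huv, ?_, hul, hcon⟩
          rintro rfl
          omega)
        omega
      rw [not_not] at hnot
      rcases hnot with h1 | ⟨z, n, hz, hup⟩
      · exfalso
        obtain ⟨w, hw⟩ := hB1 v u hvc hu hul h1.1
        have := h1.2
        rw [hw, card_singleton] at this
        omega
      · right
        exact ⟨z, n + 1, hz, Up.succ hup hvc hv3 (notMem_empty _) hu⟩
  rcases hd v hv1 hv2 hv3 with ⟨u, hu⟩ | hall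
  · exact hone u hu
  · rcases Nat.lt_or_ge 1 (ch c par v).card with h1 | h1
    · exact Or.inl ⟨hall, h1⟩
    · obtain ⟨u, hu⟩ := card_eq_one.1 (show (ch c par v).card = 1 by omega)
      exact hone u hu

/-- two chains -/
lemma two_chains (hLab : Labels) {p : ℕ} {x : V} (cx : Cx T c par dep p x)
    (hc : (leaves c par).card = p) {t k z z0 : V} {n n0 : ℕ} (ht : t ∈ ch c par x)
    (hk : k ∈ ch c par x) (hkt : k ≠ t) (hz : z ∈ AA c par) (hup : Up c par ∅ z n t)
    (hz0 : z0 ∈ AA c par) (hup0 : Up c par ∅ z0 n0 k) (hn : n0 ≤ n) : Lab c par p := by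
  rcases Nat.even_or_odd' n with ⟨i, hi | hi⟩
  · subst hi
    exact tZA_chain hLab cx hc hz hup ht hk hkt hz0 hup0 hn
  · subst hi
    obtain ⟨u, hu1, hu2, hu3⟩ := hup.first
    exact tZB_chain hLab cx hc hu2 hu1 hz hu3 ht hk hkt hz0 hup0 hn

/-- Case L2. -/
theorem l2all (hLab : Labels) {p : ℕ} {x : V} (cx : Cx T c par dep p x)
    (hc : (leaves c par).card = p) (hc2 : 2 ≤ (ch c par c).card)
    (hd : ∀ v, Desc c par x v → v ≠ x → v ∉ leaves c par →
      (∃ u, ch c par v = {u}) ∨ (∀ u ∈ ch c par v, u ∈ leaves c par))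
    (hB1 : ∀ v u, v ≠ c → ch c par v = {u} → u ∉ leaves c par →
      (∀ w ∈ ch c par u, w ∈ leaves c par) → ∃ w, ch c par u = {w})
    (hx2 : 2 ≤ (ch c par x).card)
    (hS3 : ∃ u ∈ ch c par x, u ∉ leaves c par ∧
      ¬ (3 ≤ (ch c par u).card ∧ ∀ w ∈ ch c par u, w ∈ leaves c par))
    {r : V} (hr : r ≠ x) (hr3 : 3 ≤ dg T r) (hrd : ¬ Desc c par x r) : Lab c par p := by
  classical
  have hxc : x ≠ c := (mem_ch.1 cx.hx).1
  have hcs := chain_or_star cx.h hxc hd hB1
  have hchild : ∀ u ∈ ch c par x, u ∉ leaves c par →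
      ((∀ w ∈ ch c par u, w ∈ leaves c par) ∧ 2 ≤ (ch c par u).card) ∨
        ∃ z n, z ∈ AA c par ∧ Up c par ∅ z n u := by
    intro u hu hul
    apply hcs u (Desc.refl.child hu) _ hul
    rintro rfl
    exact notMem_ch_self cx.h _ hu
  have hx3 : 3 ≤ dg T x := by rw [dg_ne cx.h hxc]; omega
  by_cases hch : ∃ t ∈ ch c par x, ∃ z n, z ∈ AA c par ∧ Up c par ∅ z n t
  · obtain ⟨t, ht, z, n, hz, hup⟩ := hch
    obtain ⟨k, hk, hkt⟩ : ∃ k ∈ ch c par x, k ≠ t := by
      obtain ⟨k, hk⟩ : ((ch c par x).erase t).Nonempty := by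
        rw [← card_pos, card_erase_of_mem ht]
        omega
      exact ⟨k, (mem_erase.1 hk).2, (mem_erase.1 hk).1⟩
    by_cases hkl : k ∈ leaves c par
    · rcases Nat.even_or_odd' n with ⟨i, hi | hi⟩
      · subst hi
        exact tZA_leaf hLab cx hc hz hup ht hk hkt hkl
      · subst hi
        obtain ⟨u, hu1, hu2, hu3⟩ := hup.first
        exact tZB_leaf hLab cx hc hu2 hu1 hz hu3 ht hk hkt hkl
    · rcases hchild k hk hkl with ⟨hk1, hk2⟩ | ⟨z0, n0, hz0, hup0⟩
      · rcases Nat.even_or_odd' n with ⟨i, hi | hi⟩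
        · subst hi
          by_cases hcond : 3 ≤ (ch c par k).card ∨ 1 ≤ i ∨ 2 ≤ ((AA c par).erase z).card
          · exact tZA_star hLab cx hc hz hup ht hk hkt hkl hk1 hk2 hcond
          · push Not at hcond
            obtain ⟨hc3, hi0, hA2⟩ := hcond
            have hi0' : i = 0 := by omega
            subst hi0'
            have hzt : z = t := by
              cases hup with
              | zero => rfl
            subst hzt
            obtain ⟨k1, k2, hk12, hkk⟩ := card_eq_two.1 (show (ch c par k).card = 2 by omega)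
            have m1 : k1 ∈ ch c par k := by rw [hkk]; simp
            have m2 : k2 ∈ ch c par k := by rw [hkk]; simp
            by_cases hno : ∀ t ∈ leaves c par, par t = k ∨ par t ∈ AA c par
            · exfalso
              have hrk : r ≠ k := by
                rintro rfl
                exact hrd (Desc.refl.child hk)
              have := count_ok cx.h hc2 hx3 hk (by omega) hr hrk hr3 hz hno
              omega
            · push Not at hno
              obtain ⟨t0, ht0, ht1, ht2⟩ := hno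
              exact tZC_A hLab cx hc hkl hkk hk12 (hk1 _ m1) (hk1 _ m2) hk ht (Ne.symm hkt) hz
                ht0 ht1 ht2
        · subst hi
          obtain ⟨u, hu1, hu2, hu3⟩ := hup.first
          exact tZB_star hLab cx hc hu2 hu1 hz hu3 ht hk hkt hkl hk1 hk2
      · rcases le_total n0 n with hn | hn
        · exact two_chains hLab cx hc ht hk hkt hz hup hz0 hup0 hn
        · exact two_chains hLab cx hc hk ht (Ne.symm hkt) hz0 hup0 hz hup hn
  · have hstar : ∀ u ∈ ch c par x, u ∉ leaves c par →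
        (∀ w ∈ ch c par u, w ∈ leaves c par) ∧ 2 ≤ (ch c par u).card := by
      intro u hu hul
      rcases hchild u hu hul with h1 | h1
      · exact h1
      · exact absurd ⟨u, hu, h1⟩ hch
    obtain ⟨z, hz, hzl, hz3⟩ := hS3
    obtain ⟨hz1, hz2⟩ := hstar z hz hzl
    have hzc : (ch c par z).card = 2 := by
      by_contra hcon
      exact hz3 ⟨by omega, hz1⟩
    obtain ⟨z1, z2, hz12, hzz⟩ := card_eq_two.1 hzc
    have m1 : z1 ∈ ch c par z := by rw [hzz]; simp
    have m2 : z2 ∈ ch c par z := by rw [hzz]; simp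
    obtain ⟨k, hk, hkz⟩ : ∃ k ∈ ch c par x, k ≠ z := by
      obtain ⟨k, hk⟩ : ((ch c par x).erase z).Nonempty := by
        rw [← card_pos, card_erase_of_mem hz]
        omega
      exact ⟨k, (mem_erase.1 hk).2, (mem_erase.1 hk).1⟩
    by_cases hkl : k ∈ leaves c par
    · exact tZC_leaf hLab cx hc hzl hzz hz12 (hz1 _ m1) (hz1 _ m2) hz hk hkz hkl
    · obtain ⟨hk1, hk2⟩ := hstar k hk hkl
      exact tZC_star hLab cx hc hzl hzz hz12 (hz1 _ m1) (hz1 _ m2) hz hk hkz hkl hk1 hk2

end Pool.Agent.W104.Irr
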