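import Pool.Agent.W104.Irr.Stmts2

/-!
Case L2: the core argument.
-/

namespace Pool.Agent.W104.Irr

open Finset Pool.Agent.Helper999.Irr

variable {V : Type} [Fintype V] [DecidableEq V] {T : SimpleGraph V} {c : V} {par : V → V}
  {dep : V → ℕ}

/-- descendants -/
inductive Desc (c : V) (par : V → V) (x : V) : V → Prop
  | refl : Desc c par x x
  | step {v : V} : v ≠ c → Desc c par x (par v) → Desc c par x v

lemma exists_desc (c : V) (par : V → V) (x : V) (hx : x ≠ c) :
    ∃ D : Finset V, x ∈ D ∧ c ∉ D ∧ (∀ v, v ≠ c → par v ∈ D → v ∈ D) ∧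
      (∀ v ∈ D, v ≠ x → par v ∈ D) := by
  classical
  refine ⟨univ.filter (fun v => Desc c par x v), ?_, ?_, ?_, ?_⟩
  · simp [Desc.refl]
  · rw [mem_filter]
    rintro ⟨-, h⟩
    cases h with
    | refl => exact hx rfl
    | step h1 _ => exact h1 rfl
  · intro v hv h
    rw [mem_filter] at h ⊢
    exact ⟨mem_univ _, Desc.step hv h.2⟩
  · intro v hv hvx
    rw [mem_filter] at hv ⊢
    refine ⟨mem_univ _, ?_⟩
    cases hv.2 with
    | refl => exact absurd rfl hvx
    | step _ h2 => exact h2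

/-- The state before the last step of case L2. -/
theorem l2pre (h : Rooted T c par dep) {p : ℕ} 
    (hm : (univ \ leaves c par).card ≤ p + 1) {P0 : Finset V} {e0 sl0 : V → ℕ} {a0 f0 i : ℕ}
    (st0 : St c par p {p + 1} (p - 1) (2 * i) P0 e0 sl0 a0 f0)
    {x : V} (hx : x ∈ ch c par c) (hxl : x ∉ leaves c par) (hxP : x ∉ P0)
    {z t : V} {C : Finset V} {G F : ℕ → V → ℕ} {base : ℕ}
    (habs : Abs c par p P0 e0 base i z t C G F) (ht : t ∈ ch c par x)
    (hz : ∀ u ∈ ch c par z, u ∈ leaves c par ∨ u ∈ P0)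
    (hready : ∀ v, v ∉ leaves c par → v ≠ c → v ≠ x → v ∉ P0 → v ∉ C →
      (∀ u ∈ ch c par v, u ∈ leaves c par ∨ u ∈ P0) → p ≤ S c par e0 v + 1)
    (hw : (∀ u ∈ ch c par c, u ≠ x → u ∈ leaves c par ∨ u ∈ P0) →
      p ≤ ∑ u ∈ (ch c par c).erase x, e0 u + 1) :
    ∃ (P : Finset V) (e sl : V → ℕ) (a f : ℕ), St c par p {p + 1} (p - 1) (2 * i) P e sl a f ∧
      P0 ⊆ P ∧ Disjoint P C ∧ x ∉ P ∧ (∀ v, v ∈ leaves c par ∨ v ∈ P0 → e v = e0 v) ∧
      (∀ v ∈ P0, sl v = sl0 v) ∧ (∀ v ∈ P, v ∉ P0 → a0 < sl v) ∧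
      a0 ≤ a ∧ (∀ v, v ∉ leaves c par → v ≠ c → v ≠ x → v ∉ C → v ∈ P) ∧
      P.card + 2 * i + 2 ≤ p ∧ a + 1 ≤ ∑ u ∈ (ch c par c).erase x, e u ∧ x ∉ C ∧
      (∀ u ∈ ch c par c, u ∉ C) := by
  classical
  have hxc : x ≠ c := (mem_ch.1 hx).1
  have hxpar : par x = c := (mem_ch.1 hx).2
  have htpar : par t = x := (mem_ch.1 ht).2
  have hcC : c ∉ C := fun hc => (habs.nl c hc).1 rfl
  have htx : t ≠ x := by
    rintro rfl
    exact notMem_ch_self h t ht
  have hxC : x ∉ C := by
    intro hxC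
    have := habs.pr x hxC (Ne.symm htx)
    rw [hxpar] at this
    exact hcC this
  -- children in `C`
  have hchC : ∀ v, v ∉ C → v ≠ x → ∀ u ∈ ch c par v, u ∉ C := by
    intro v hv hvx u hu huC
    rw [mem_ch] at hu
    by_cases hut : u = t
    · subst hut
      exact hvx (hu.2.symm.trans htpar)
    · have := habs.pr u huC hut
      rw [hu.2] at this
      exact hv this
  have hchc : ∀ u ∈ ch c par c, u ∉ C := hchC c hcC (Ne.symm hxc)
  have hP0C : Disjoint P0 C := by
    rw [disjoint_left]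
    intro v hv hvC
    exact (habs.nl v hvC).2.2 hv
  obtain ⟨D, hxD, hcD, hD1, hD2⟩ := exists_desc c par x hxc
  obtain ⟨Q, hQ⟩ : ∃ Q : Finset V, Q = univ.filter (fun v => v ∉ leaves c par ∧ v ≠ c ∧ v ≠ x ∧
    v ∉ P0 ∧ v ∉ C) := ⟨_, rfl⟩
  have hQm : ∀ v, v ∈ Q ↔ v ∉ leaves c par ∧ v ≠ c ∧ v ≠ x ∧ v ∉ P0 ∧ v ∉ C := by
    intro v; rw [hQ, mem_filter]; simp
  obtain ⟨Q1, hQ1⟩ : ∃ Q1, Q1 = Q.filter (fun v => v ∈ D) := ⟨_, rfl⟩
  obtain ⟨Q2, hQ2⟩ : ∃ Q2, Q2 = Q.filter (fun v => v ∉ D) := ⟨_, rfl⟩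
  have hQ1m : ∀ v, v ∈ Q1 ↔ v ∈ Q ∧ v ∈ D := by intro v; rw [hQ1, mem_filter]
  have hQ2m : ∀ v, v ∈ Q2 ↔ v ∈ Q ∧ v ∉ D := by intro v; rw [hQ2, mem_filter]
  have hQ12 : Q1.card + Q2.card = Q.card := by
    rw [hQ1, hQ2]; exact card_filter_add_card_filter_not _
  -- total count
  have hcard : P0.card + Q.card + 2 * i + 3 ≤ p + 1 := by
    have h1 : insert c (insert x (C ∪ (P0 ∪ Q))) ⊆ univ \ leaves c par := by
      intro v hv
      rw [mem_sdiff]
      refine ⟨mem_univ _, ?_⟩
      rw [mem_insert, mem_insert, mem_union, mem_union] at hv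
      rcases hv with rfl | rfl | hv | hv | hv
      · exact root_notMem_leaves
      · exact hxl
      · exact (habs.nl v hv).2.1
      · exact (st0.nl v hv).2
      · exact ((hQm v).1 hv).1
    have h2 := card_le_card h1
    rw [card_insert_of_notMem, card_insert_of_notMem, card_union_of_disjoint,
      card_union_of_disjoint, habs.crd] at h2
    · omega
    · rw [disjoint_left]
      intro v hv hv2
      exact ((hQm v).1 hv2).2.2.2.1 hv
    · rw [disjoint_left]
      intro v hv hv2
      rw [mem_union] at hv2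
      rcases hv2 with hv2 | hv2
      · exact (habs.nl v hv).2.2 hv2
      · exact ((hQm v).1 hv2).2.2.2.2 hv
    · rw [mem_union, mem_union]
      rintro (h3 | h3 | h3)
      · exact hxC h3
      · exact hxP h3
      · exact ((hQm x).1 h3).2.2.1 rfl
    · rw [mem_insert, mem_union, mem_union]
      rintro (h3 | h3 | h3 | h3)
      · exact hxc h3.symm
      · exact hcC h3
      · exact (st0.nl c h3).1 rfl
      · exact ((hQm c).1 h3).2.1 rfl
  have hinner : ∀ v, v ∉ leaves c par → v ≠ c → v ≠ x → v ∉ C → v ∉ P0 → v ∈ Q := by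
    intro v h1 h2 h3 h4 h5
    exact (hQm v).2 ⟨h1, h2, h3, h5, h4⟩
  have hRes : ∀ s ∈ ({p + 1} : Finset ℕ), p < s := by
    intro s hs; rw [mem_singleton] at hs; omega
  -- first phase
  obtain ⟨e1, sl1, a1, f1, st1, he1, hsl1, ha1, hf1, hall1, -⟩ := greedy h (Q := Q1)
    (Nat.sub_le p 1) hRes st0
    (by
      rw [disjoint_left]
      intro v hv hv2
      exact ((hQm v).1 ((hQ1m v).1 hv).1).2.2.2.1 hv2)
    (by
      intro v hv
      have := (hQm v).1 ((hQ1m v).1 hv).1
      exact ⟨this.2.1, this.1⟩)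
    (by
      intro v hv u hu
      have hv1 := (hQm v).1 ((hQ1m v).1 hv).1
      have hvD := ((hQ1m v).1 hv).2
      have huc : u ≠ c := (mem_ch.1 hu).1
      have hup : par u = v := (mem_ch.1 hu).2
      by_cases h1 : u ∈ leaves c par
      · exact Or.inl h1
      by_cases h2 : u ∈ P0
      · exact Or.inr (Or.inl h2)
      right; right
      rw [hQ1m]
      refine ⟨hinner u h1 huc ?_ (hchC v hv1.2.2.2.2 hv1.2.2.1 u hu) h2, ?_⟩
      · rintro rfl
        exact hv1.2.1 (hup.symm.trans hxpar)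
      · apply hD1 u huc
        rw [hup]; exact hvD)
    (by
      intro v hv hr
      have hv1 := (hQm v).1 ((hQ1m v).1 hv).1
      right
      refine ⟨hready v hv1.1 hv1.2.1 hv1.2.2.1 hv1.2.2.2.1 hv1.2.2.2.2 hr, ?_⟩
      rw [card_singleton])
    (by rw [card_singleton]; omega)
  -- second phase
  have hchQ2 : ∀ v ∈ Q2, ∀ u ∈ ch c par v, u ∈ leaves c par ∨ u ∈ P0 ∨ u ∈ Q2 := by
    intro v hv u hu
    have hv1 := (hQm v).1 ((hQ2m v).1 hv).1
    have hvD := ((hQ2m v).1 hv).2
    have huc : u ≠ c := (mem_ch.1 hu).1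
    have hup : par u = v := (mem_ch.1 hu).2
    have hux : u ≠ x := by
      rintro rfl
      exact hv1.2.1 (hup.symm.trans hxpar)
    by_cases h1 : u ∈ leaves c par
    · exact Or.inl h1
    by_cases h2 : u ∈ P0
    · exact Or.inr (Or.inl h2)
    right; right
    rw [hQ2m]
    refine ⟨hinner u h1 huc hux (hchC v hv1.2.2.2.2 hv1.2.2.1 u hu) h2, ?_⟩
    intro huD
    have := hD2 u huD hux
    rw [hup] at this
    exact hvD this
  have hQ12d : ∀ v ∈ Q2, v ∉ Q1 := by
    intro v hv hv1
    exact ((hQ2m v).1 hv).2 ((hQ1m v).1 hv1).2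
  have hleafQ : ∀ v, v ∈ leaves c par ∨ v ∈ P0 → v ∉ Q := by
    rintro v (h1 | h1) h2
    · exact ((hQm v).1 h2).1 h1
    · exact ((hQm v).1 h2).2.2.2.1 h1
  obtain ⟨e2, sl2, a2, f2, st2, he2, hsl2, ha2, hf2, hall2, hlast⟩ := greedy h (Q := Q2)
    (Nat.sub_le p 1) hRes st1
    (by
      rw [disjoint_left]
      intro v hv hv2
      rw [mem_union] at hv2
      rcases hv2 with hv2 | hv2
      · exact ((hQm v).1 ((hQ2m v).1 hv).1).2.2.2.1 hv2
      · exact hQ12d v hv hv2)
    (by
      intro v hv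
      have := (hQm v).1 ((hQ2m v).1 hv).1
      exact ⟨this.2.1, this.1⟩)
    (by
      intro v hv u hu
      rcases hchQ2 v hv u hu with h1 | h1 | h1
      · exact Or.inl h1
      · exact Or.inr (Or.inl (mem_union_left _ h1))
      · exact Or.inr (Or.inr h1))
    (by
      intro v hv hr
      have hv1 := (hQm v).1 ((hQ2m v).1 hv).1
      right
      have hr' : ∀ u ∈ ch c par v, u ∈ leaves c par ∨ u ∈ P0 := by
        intro u hu
        rcases hchQ2 v hv u hu with h1 | h1 | h1
        · exact Or.inl h1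
        · exact Or.inr h1
        · exfalso
          rcases hr u hu with h2 | h2
          · exact ((hQm u).1 ((hQ2m u).1 h1).1).1 h2
          · rcases mem_union.1 h2 with h2 | h2
            · exact ((hQm u).1 ((hQ2m u).1 h1).1).2.2.2.1 h2
            · exact hQ12d u h1 h2
      refine ⟨?_, by rw [card_singleton]⟩
      rw [S_congr (e := e0)]
      · exact hready v hv1.1 hv1.2.1 hv1.2.2.1 hv1.2.2.2.1 hv1.2.2.2.2 hr'
      · intro u hu
        apply he1
        intro hcon
        exact hleafQ u (hr' u hu) ((hQ1m u).1 hcon).1)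
    (by
      rw [card_singleton, card_union_of_disjoint]
      · omega
      · rw [disjoint_left]
        intro v hv hv2
        exact ((hQm v).1 ((hQ1m v).1 hv2).1).2.2.2.1 hv)
  have hPcard : (P0 ∪ Q1 ∪ Q2).card + 2 * i + 2 ≤ p := by
    have h1 := card_union_le (P0 ∪ Q1) Q2
    have h2 := card_union_le P0 Q1
    omega
  have he : ∀ v, v ∈ leaves c par ∨ v ∈ P0 → e2 v = e0 v := by
    intro v hv
    rw [he2 v (fun hcon => hleafQ v hv ((hQ2m v).1 hcon).1),
      he1 v (fun hcon => hleafQ v hv ((hQ1m v).1 hcon).1)]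
  refine ⟨P0 ∪ Q1 ∪ Q2, e2, sl2, a2, f2, st2, ?_, ?_, ?_, he, ?_, ?_, ha1.trans ha2, ?_, hPcard,
    ?_, hxC, hchc⟩
  · intro v hv
    exact mem_union_left _ (mem_union_left _ hv)
  · rw [disjoint_left]
    intro v hv hvC
    rcases mem_union.1 hv with hv | hv
    · rcases mem_union.1 hv with hv | hv
      · exact disjoint_left.1 hP0C hv hvC
      · exact ((hQm v).1 ((hQ1m v).1 hv).1).2.2.2.2 hvC
    · exact ((hQm v).1 ((hQ2m v).1 hv).1).2.2.2.2 hvC
  · intro hv
    rcases mem_union.1 hv with hv | hv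
    · rcases mem_union.1 hv with hv | hv
      · exact hxP hv
      · exact ((hQm x).1 ((hQ1m x).1 hv).1).2.2.1 rfl
    · exact ((hQm x).1 ((hQ2m x).1 hv).1).2.2.1 rfl
  · intro v hv
    rw [hsl2 v (fun hcon => hleafQ v (Or.inr hv) ((hQ2m v).1 hcon).1),
      hsl1 v (fun hcon => hleafQ v (Or.inr hv) ((hQ1m v).1 hcon).1)]
  · intro v hv hv0
    rcases mem_union.1 hv with hv | hv
    · rcases mem_union.1 hv with hv | hv
      · exact absurd hv hv0
      · have h1 := (hall1 v hv).1
        rw [hsl2 v (fun hcon => hQ12d v hcon hv)]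
        exact h1
    · have h1 := (hall2 v hv).1
      omega
  · intro v h1 h2 h3 h4
    by_cases h5 : v ∈ P0
    · exact mem_union_left _ (mem_union_left _ h5)
    · have h6 := hinner v h1 h2 h3 h4 h5
      by_cases h7 : v ∈ D
      · exact mem_union_left _ (mem_union_right _ ((hQ1m v).2 ⟨h6, h7⟩))
      · exact mem_union_right _ ((hQ2m v).2 ⟨h6, h7⟩)
  · by_cases hQe : Q2.Nonempty
    · obtain ⟨u, hu, hpu, hau⟩ := hlast hQe
      have huQ := (hQm u).1 ((hQ2m u).1 hu).1
      have huD := ((hQ2m u).1 hu).2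
      have hpc : par u = c := by
        by_contra hpc
        have hpn : par u ∉ leaves c par := by
          intro hcon
          rw [mem_leaves] at hcon
          have : u ∈ ch c par (par u) := mem_ch.2 ⟨huQ.2.1, rfl⟩
          rw [hcon.2] at this
          exact notMem_empty _ this
        have huch : u ∈ ch c par (par u) := mem_ch.2 ⟨huQ.2.1, rfl⟩
        have hpx : par u ≠ x := by
          intro hcon
          apply huD
          apply hD1 u huQ.2.1
          rw [hcon]; exact hxD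
        have hpC : par u ∉ C := by
          intro hcon
          rcases habs.cl _ hcon with h1 | ⟨u', hu', h1⟩
          · rw [h1] at huch
            rcases hz u huch with h2 | h2
            · exact huQ.1 h2
            · exact huQ.2.2.2.1 h2
          · rw [h1, mem_singleton] at huch
            rw [huch] at huQ
            exact huQ.2.2.2.2 hu'
        have hpP : par u ∉ P0 := by
          intro hcon
          rcases st0.cl _ hcon u huch with h2 | h2
          · exact huQ.1 h2
          · exact huQ.2.2.2.1 h2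
        apply hpu
        rw [hQ2m]
        refine ⟨hinner _ hpn hpc hpx hpC hpP, ?_⟩
        intro hcon
        exact huD (hD1 u huQ.2.1 hcon)
      have hmem : u ∈ (ch c par c).erase x := mem_erase.2 ⟨huQ.2.2.1, mem_ch.2 ⟨huQ.2.1, hpc⟩⟩
      exact hau.trans (single_le_sum (f := e2) (fun _ _ => Nat.zero_le _) hmem)
    · rw [not_nonempty_iff_eq_empty] at hQe
      have hall : ∀ u ∈ ch c par c, u ≠ x → u ∈ leaves c par ∨ u ∈ P0 := by
        intro u hu hux
        by_cases h1 : u ∈ leaves c par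
        · exact Or.inl h1
        by_cases h2 : u ∈ P0
        · exact Or.inr h2
        exfalso
        have h3 := hinner u h1 (mem_ch.1 hu).1 hux (hchc u hu) h2
        have h4 : u ∈ Q2 := by
          rw [hQ2m]
          refine ⟨h3, ?_⟩
          intro hcon
          have := hD2 u hcon hux
          rw [(mem_ch.1 hu).2] at this
          exact hcD this
        rw [hQe] at h4
        exact notMem_empty _ h4
      have h1 := hw hall
      have h2 : ∑ u ∈ (ch c par c).erase x, e2 u = ∑ u ∈ (ch c par c).erase x, e0 u := by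
        apply sum_congr rfl
        intro u hu
        rw [mem_erase] at hu
        exact he u (hall u hu.2 hu.1)
      rw [h2]
      have h3 := st2.cnt
      have h4 := st2.fq
      omega

end Pool.Agent.W104.Irr
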