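import Pool.Agent.W104.Irr.L2core

/-!
Case L2: the end.
-/

namespace Pool.Agent.W104.Irr

open Finset Pool.Agent.Helper999.Irr

variable {V : Type} [Fintype V] [DecidableEq V] {T : SimpleGraph V} {c : V} {par : V → V}
  {dep : V → ℕ}

/-- assembling the labelling -/
theorem l2asm (h : Rooted T c par dep) {p : ℕ} {P0 P : Finset V} {e0 e sl : V → ℕ}
    {a f i base : ℕ} (hLL : LL c par p e)
    (st : St c par p {p + 1} (p - 1) (2 * i) P e sl a f)
    {x : V} (hx : x ∈ ch c par c) (hxl : x ∉ leaves c par) (hxP : x ∉ P)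
    {z t : V} {C : Finset V} {G F : ℕ → V → ℕ}
    (habs : Abs c par p P0 e0 base i z t C G F) (ht : t ∈ ch c par x)
    (hPC : Disjoint P C) (he : ∀ v, v ∈ leaves c par ∨ v ∈ P0 → e v = e0 v)
    (hP0 : P0 ⊆ P)
    (hslots : ∀ v ∈ P, sl v ≤ base ∨ base + 2 * i < sl v) (hba : base + 2 * i ≤ a)
    (hall : ∀ v, v ∉ leaves c par → v ≠ c → v ≠ x → v ∉ C → v ∈ P) (hxC : x ∉ C)
    (hchc : ∀ u ∈ ch c par c, u ∉ C) {φ β X Y : ℕ}
    (hφ : φ = p ∨ (a < φ ∧ φ ≤ f)) (hβ1 : 1 ≤ β) (hβ2 : β ≤ p)
    (hX : ∑ u ∈ (ch c par x).erase t, e u + φ + β = X + i + p)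
    (hY : ∑ u ∈ (ch c par c).erase x, e u + β = p + Y)
    (hfφ : ∀ v ∈ P, sl v ≠ φ)
    (hfX : ∀ v ∈ P, sl v ≠ X) (hfY : ∀ v ∈ P, sl v ≠ Y)
    (hX1 : base + 2 * i < X) (hY1 : base + 2 * i < Y)
    (hXY : X ≠ Y) (hXφ : X ≠ φ) (hYφ : Y ≠ φ) (hap : base + 2 * i < p) : Lab c par p := by
  classical
  have hxc : x ≠ c := (mem_ch.1 hx).1
  have hxpar : par x = c := (mem_ch.1 hx).2
  have htpar : par t = x := (mem_ch.1 ht).2
  have hcC : c ∉ C := fun hc => (habs.nl c hc).1 rfl
  have hφ1 : base + 2 * i < φ := by rcases hφ with h1 | h1 <;> omega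
  have hfp := st.fq
  have hφ2 : φ ≤ p := by rcases hφ with h1 | h1 <;> omega
  have htC := habs.mem
  obtain ⟨e3, he3⟩ : ∃ e3 : V → ℕ, e3 = fun v => if v = x then β else if v ∈ C then G φ v
    else e v := ⟨_, rfl⟩
  obtain ⟨s3, hs3⟩ : ∃ s3 : V → ℕ, s3 = fun v => if v = x then X else if v ∈ C then F φ v
    else if v = c then Y else sl v := ⟨_, rfl⟩
  have ex : e3 x = β := by rw [he3]; simp
  have eC : ∀ v ∈ C, e3 v = G φ v := by
    intro v hv
    have : v ≠ x := by rintro rfl; exact hxC hv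
    rw [he3]; simp [this, hv]
  have eo : ∀ v, v ≠ x → v ∉ C → e3 v = e v := by
    intro v h1 h2
    rw [he3]; simp [h1, h2]
  have sx : s3 x = X := by rw [hs3]; simp
  have sC : ∀ v ∈ C, s3 v = F φ v := by
    intro v hv
    have : v ≠ x := by rintro rfl; exact hxC hv
    rw [hs3]; simp [this, hv]
  have sc : s3 c = Y := by
    rw [hs3]; simp [Ne.symm hxc, hcC]
  have so : ∀ v ∈ P, s3 v = sl v := by
    intro v hv
    have h1 : v ≠ x := by rintro rfl; exact hxP hv
    have h2 : v ∉ C := fun hc => disjoint_left.1 hPC hv hc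
    have h3 : v ≠ c := (st.nl v hv).1
    rw [hs3]; simp [h1, h2, h3]
  have eP : ∀ v ∈ P, e3 v = e v := by
    intro v hv
    apply eo
    · rintro rfl; exact hxP hv
    · exact fun hc => disjoint_left.1 hPC hv hc
  have eL : ∀ v ∈ leaves c par, e3 v = e v := by
    intro v hv
    apply eo
    · rintro rfl; exact hxl hv
    · exact fun hc => (habs.nl v hc).2.1 hv
  have hinner : ∀ v, v ∉ leaves c par → v = c ∨ v = x ∨ v ∈ C ∨ v ∈ P := by
    intro v hv
    by_cases h1 : v = c
    · exact Or.inl h1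
    by_cases h2 : v = x
    · exact Or.inr (Or.inl h2)
    by_cases h3 : v ∈ C
    · exact Or.inr (Or.inr (Or.inl h3))
    · exact Or.inr (Or.inr (Or.inr (hall v hv h1 h2 h3)))
  have hF : ∀ v ∈ C, base < F φ v ∧ (F φ v = φ ∨ F φ v ≤ base + 2 * i) := by
    intro v hv
    rcases habs.rng φ hφ1 hφ2 v hv with h1 | h1
    · exact ⟨by omega, Or.inl h1⟩
    · exact ⟨h1.1, Or.inr h1.2⟩
  have hFP : ∀ v ∈ C, ∀ w ∈ P, F φ v ≠ sl w := by
    intro v hv w hw hcon
    rcases habs.rng φ hφ1 hφ2 v hv with h1 | h1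
    · exact hfφ w hw (hcon.symm.trans h1)
    · have := hslots w hw
      omega
  have hFX : ∀ v ∈ C, F φ v ≠ X := by
    intro v hv hcon
    rcases habs.rng φ hφ1 hφ2 v hv with h1 | h1
    · exact hXφ (hcon.symm.trans h1)
    · omega
  have hFY : ∀ v ∈ C, F φ v ≠ Y := by
    intro v hv hcon
    rcases habs.rng φ hφ1 hφ2 v hv with h1 | h1
    · exact hYφ (hcon.symm.trans h1)
    · omega
  apply fin_lab (e := e3) (sl := s3)
  · constructor
    · intro v hv
      rw [eL v hv]; exact hLL.1 v hv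
    · intro u hu v hv huv
      rw [eL u hu, eL v hv] at huv
      exact hLL.2 hu hv huv
  · intro v hvc hvl
    rcases hinner v hvl with h1 | h1 | h1 | h1
    · exact absurd h1 hvc
    · rw [h1, ex]; exact ⟨hβ1, hβ2⟩
    · rw [eC v h1]; exact habs.lab φ hφ1 hφ2 v h1
    · rw [eP v h1]; exact st.lab v h1
  · intro v hvc hvl
    rcases hinner v hvl with h1 | h1 | h1 | h1
    · exact absurd h1 hvc
    · subst h1
      have h2 : S c par e3 v = G φ t + ∑ u ∈ (ch c par v).erase t, e u := by
        unfold S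
        rw [← add_sum_erase _ _ ht, eC t htC]
        congr 1
        apply sum_congr rfl
        intro u hu
        rw [mem_erase] at hu
        apply eo
        · rintro rfl
          exact notMem_ch_self h _ hu.2
        · intro hcon
          have := habs.pr u hcon hu.1
          rw [(mem_ch.1 hu.2).2] at this
          exact hxC this
      have h3 := habs.out φ hφ1 hφ2
      rw [h2, ex, sx]
      omega
    · rw [sC v h1]
      exact habs.val φ hφ1 hφ2 e3 (by
        rintro u (hu | hu)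
        · rw [eL u hu]; exact he u (Or.inl hu)
        · rw [eP u (hP0 hu)]; exact he u (Or.inr hu)) eC v h1
    · rw [so v h1, eP v h1, ← st.val v h1]
      congr 1
      apply S_congr
      intro u hu
      rcases st.cl v h1 u hu with h2 | h2
      · exact eL u h2
      · exact eP u h2
  · have h2 : S c par e3 c = β + ∑ u ∈ (ch c par c).erase x, e u := by
      unfold S
      rw [← add_sum_erase _ _ hx, ex]
      congr 1
      apply sum_congr rfl
      intro u hu
      rw [mem_erase] at hu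
      exact eo u hu.1 (hchc u hu.2)
    rw [h2, sc]
    omega
  · intro v hvl
    rcases hinner v hvl with h1 | h1 | h1 | h1
    · rw [h1, sc]; omega
    · rw [h1, sx]; omega
    · rw [sC v h1]; have := hF v h1; omega
    · rw [so v h1]; exact st.one v h1
  · intro u v hul hvl huv
    rcases hinner u hul with h1 | h1 | h1 | h1 <;> rcases hinner v hvl with h2 | h2 | h2 | h2
    · rw [h1, h2]
    · rw [h1, h2, sc, sx] at huv; exact absurd huv.symm hXY
    · rw [h1, sc, sC v h2] at huv; exact absurd huv.symm (hFY v h2)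
    · rw [h1, sc, so v h2] at huv; exact absurd huv.symm (hfY v h2)
    · rw [h1, h2, sc, sx] at huv; exact absurd huv hXY
    · rw [h1, h2]
    · rw [h1, sx, sC v h2] at huv; exact absurd huv.symm (hFX v h2)
    · rw [h1, sx, so v h2] at huv; exact absurd huv.symm (hfX v h2)
    · rw [h2, sc, sC u h1] at huv; exact absurd huv (hFY u h1)
    · rw [h2, sx, sC u h1] at huv; exact absurd huv (hFX u h1)
    · rw [sC u h1, sC v h2] at huv; exact habs.inj φ hφ1 hφ2 h1 h2 huv
    · rw [sC u h1, so v h2] at huv; exact absurd huv (hFP u h1 v h2)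
    · rw [h2, sc, so u h1] at huv; exact absurd huv (hfY u h1)
    · rw [h2, sx, so u h1] at huv; exact absurd huv (hfX u h1)
    · rw [sC v h2, so u h1] at huv; exact absurd huv.symm (hFP v h2 u h1)
    · rw [so u h1, so v h2] at huv; exact st.inj h1 h2 huv

end Pool.Agent.W104.Irr
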