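import Pool.Agent.W104.Irr.L2end

/-!
Case L2: conclusion.
-/

namespace Pool.Agent.W104.Irr

open Finset Pool.Agent.Helper999.Irr

variable {V : Type} [Fintype V] [DecidableEq V] {T : SimpleGraph V} {c : V} {par : V → V}
  {dep : V → ℕ}

/-- the exceptional situation: swap the labels `p` and `p - 1` -/
theorem l2dead (h : Rooted T c par dep) {p : ℕ} (hp : 3 ≤ p) {P : Finset V} {e sl : V → ℕ}
    (hLL : LL c par p e)
    (st : St c par p {p + 1} (p - 1) 0 P e sl 0 1)
    (hU : ∀ v ∈ P, sl v ≤ p)
    {x z l k : V} (hx : x ∈ ch c par c) (hxl : x ∉ leaves c par) (hxP : x ∉ P)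
    (hz : z ∈ ch c par x) (hzl : z ∉ leaves c par) (hzP : z ∉ P) (hl : ch c par z = {l})
    (hll : l ∈ leaves c par) (hlp : e l = p) (hk : k ∈ ch c par x) (hkl : k ∈ leaves c par)
    (hkp : e k + 1 = p) (hall : ∀ v, v ∉ leaves c par → v ≠ c → v ≠ x → v ≠ z → v ∈ P)
    (hX : ∑ u ∈ (ch c par x).erase z, e u + 1 = p)
    (hY : ∑ u ∈ (ch c par c).erase x, e u = p) : Lab c par p := by
  classical
  have hxc : x ≠ c := (mem_ch.1 hx).1
  have hzc : z ≠ c := (mem_ch.1 hz).1
  have hxpar : par x = c := (mem_ch.1 hx).2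
  have hzpar : par z = x := (mem_ch.1 hz).2
  have hzx : z ≠ x := by
    rintro rfl
    exact notMem_ch_self h _ hz
  have hlch : l ∈ ch c par z := by rw [hl]; exact mem_singleton_self _
  have hlpar : par l = z := (mem_ch.1 hlch).2
  have hkpar : par k = x := (mem_ch.1 hk).2
  have hlk : l ≠ k := by
    rintro rfl
    exact hzx (hlpar.symm.trans hkpar)
  have hlx : l ≠ x := by rintro rfl; exact hxl hll
  have hlz : l ≠ z := by rintro rfl; exact hzl hll
  have hkx : k ≠ x := by rintro rfl; exact hxl hkl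
  have hkz : k ≠ z := by rintro rfl; exact hzl hkl
  obtain ⟨e3, he3⟩ : ∃ e3 : V → ℕ, e3 = fun v => if v = x then p else if v = z then 2
    else e (Equiv.swap l k v) := ⟨_, rfl⟩
  obtain ⟨s3, hs3⟩ : ∃ s3 : V → ℕ, s3 = fun v => if v = x then p + 2 else if v = z then 1
    else if v = c then p else sl v := ⟨_, rfl⟩
  have ex : e3 x = p := by rw [he3]; simp
  have ez : e3 z = 2 := by rw [he3]; simp [hzx]
  have el : e3 l + 1 = p := by
    rw [he3]; simp [hlx, hlz, hkp]
  have ek : e3 k = p := by
    rw [he3]; simp [hkx, hkz, hlp]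
  have eo : ∀ v, v ≠ x → v ≠ z → v ≠ l → v ≠ k → e3 v = e v := by
    intro v h1 h2 h3 h4
    rw [he3]
    simp only [if_neg h1, if_neg h2]
    rw [Equiv.swap_apply_of_ne_of_ne h3 h4]
  have sx : s3 x = p + 2 := by rw [hs3]; simp
  have sz : s3 z = 1 := by rw [hs3]; simp [hzx]
  have sc : s3 c = p := by rw [hs3]; simp [Ne.symm hxc, Ne.symm hzc]
  have so : ∀ v ∈ P, s3 v = sl v := by
    intro v hv
    have h1 : v ≠ x := by rintro rfl; exact hxP hv
    have h2 : v ≠ z := by rintro rfl; exact hzP hv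
    have h3 : v ≠ c := (st.nl v hv).1
    rw [hs3]; simp [h1, h2, h3]
  have eP : ∀ v ∈ P, e3 v = e v := by
    intro v hv
    apply eo
    · rintro rfl; exact hxP hv
    · rintro rfl; exact hzP hv
    · rintro rfl; exact (st.nl _ hv).2 hll
    · rintro rfl; exact (st.nl _ hv).2 hkl
  have hinner : ∀ v, v ∉ leaves c par → v = c ∨ v = x ∨ v = z ∨ v ∈ P := by
    intro v hv
    by_cases h1 : v = c
    · exact Or.inl h1
    by_cases h2 : v = x
    · exact Or.inr (Or.inl h2)
    by_cases h3 : v = z
    · exact Or.inr (Or.inr (Or.inl h3))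
    · exact Or.inr (Or.inr (Or.inr (hall v hv h1 h2 h3)))
  have hsw : ∀ v ∈ leaves c par, Equiv.swap l k v ∈ leaves c par := by
    intro v hv
    rcases eq_or_ne v l with rfl | h1
    · rw [Equiv.swap_apply_left]; exact hkl
    rcases eq_or_ne v k with rfl | h2
    · rw [Equiv.swap_apply_right]; exact hll
    rw [Equiv.swap_apply_of_ne_of_ne h1 h2]; exact hv
  have eL : ∀ v ∈ leaves c par, e3 v = e (Equiv.swap l k v) := by
    intro v hv
    have h1 : v ≠ x := by rintro rfl; exact hxl hv
    have h2 : v ≠ z := by rintro rfl; exact hzl hv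
    rw [he3]; simp only [if_neg h1, if_neg h2]
  have hlow : ∀ v ∈ P, 1 < sl v ∧ sl v < p := by
    intro v hv
    have h1 := st.low v hv
    have h2 := st.one v hv
    have h3 := hU v hv
    omega
  apply fin_lab (e := e3) (sl := s3)
  · constructor
    · intro v hv
      rw [eL v hv]; exact hLL.1 _ (hsw v hv)
    · intro u hu v hv huv
      rw [eL u hu, eL v hv] at huv
      exact (Equiv.swap l k).injective (hLL.2 (hsw u hu) (hsw v hv) huv)
  · intro v hvc hvl
    rcases hinner v hvl with h1 | h1 | h1 | h1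
    · exact absurd h1 hvc
    · rw [h1, ex]; omega
    · rw [h1, ez]; omega
    · rw [eP v h1]; exact st.lab v h1
  · intro v hvc hvl
    rcases hinner v hvl with h1 | h1 | h1 | h1
    · exact absurd h1 hvc
    · subst h1
      have hk' : k ∈ (ch c par v).erase z := mem_erase.2 ⟨hkz, hk⟩
      have h2 : S c par e3 v = e3 z + (e3 k + ∑ u ∈ ((ch c par v).erase z).erase k, e u) := by
        unfold S
        rw [← add_sum_erase _ _ hz, ← add_sum_erase _ _ hk']
        congr 2
        apply sum_congr rfl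
        intro u hu
        rw [mem_erase, mem_erase] at hu
        apply eo
        · rintro rfl
          exact notMem_ch_self h _ hu.2.2
        · exact hu.2.1
        · rintro rfl
          exact hzx (hlpar.symm.trans (mem_ch.1 hu.2.2).2)
        · exact hu.1
      rw [← add_sum_erase _ _ hk'] at hX
      rw [h2, ex, ez, ek, sx]
      omega
    · subst h1
      have h2 : S c par e3 v = e3 l := by
        unfold S
        rw [hl, sum_singleton]
      rw [h2, ez, sz]
      omega
    · rw [so v h1, eP v h1, ← st.val v h1]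
      congr 1
      apply S_congr
      intro u hu
      have h3 := (mem_ch.1 hu).2
      rcases st.cl v h1 u hu with h2 | h2
      · apply eo
        · rintro rfl; exact hxl h2
        · rintro rfl; exact hzl h2
        · rintro rfl
          rw [hlpar] at h3
          rw [← h3] at h1
          exact hzP h1
        · rintro rfl
          rw [hkpar] at h3
          rw [← h3] at h1
          exact hxP h1
      · exact eP u h2
  · have h2 : S c par e3 c = p + ∑ u ∈ (ch c par c).erase x, e u := by
      unfold S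
      rw [← add_sum_erase _ _ hx, ex]
      congr 1
      apply sum_congr rfl
      intro u hu
      rw [mem_erase] at hu
      have h3 := (mem_ch.1 hu.2).2
      apply eo u hu.1
      · rintro rfl
        rw [hzpar] at h3
        exact hxc h3
      · rintro rfl
        rw [hlpar] at h3
        exact hzc h3
      · rintro rfl
        rw [hkpar] at h3
        exact hxc h3
    rw [h2, sc]
    omega
  · intro v hvl
    rcases hinner v hvl with h1 | h1 | h1 | h1
    · rw [h1, sc]; omega
    · rw [h1, sx]; omega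
    · rw [h1, sz]
    · rw [so v h1]; exact st.one v h1
  · intro u v hul hvl huv
    rcases hinner u hul with h1 | h1 | h1 | h1 <;> rcases hinner v hvl with h2 | h2 | h2 | h2
    · rw [h1, h2]
    · rw [h1, h2, sc, sx] at huv; omega
    · rw [h1, h2, sc, sz] at huv; omega
    · rw [h1, sc, so v h2] at huv; have := hlow v h2; omega
    · rw [h1, h2, sc, sx] at huv; omega
    · rw [h1, h2]
    · rw [h1, h2, sx, sz] at huv; omega
    · rw [h1, sx, so v h2] at huv; have := hlow v h2; omega
    · rw [h1, h2, sc, sz] at huv; omega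
    · rw [h1, h2, sx, sz] at huv; omega
    · rw [h1, h2]
    · rw [h1, sz, so v h2] at huv; have := hlow v h2; omega
    · rw [h2, sc, so u h1] at huv; have := hlow u h1; omega
    · rw [h2, sx, so u h1] at huv; have := hlow u h1; omega
    · rw [h2, sz, so u h1] at huv; have := hlow u h1; omega
    · rw [so u h1, so v h2] at huv; exact st.inj h1 h2 huv

/-- Case L2. -/
theorem l2core (hfin : L2fin) (h : Rooted T c par dep) {p : ℕ} (hp : 3 ≤ p)
    (hm : (univ \ leaves c par).card ≤ p + 1) {P0 : Finset V} {e0 sl0 : V → ℕ} {a0 f0 i : ℕ}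
    (hLL : LL c par p e0)
    (st0 : St c par p {p + 1} (p - 1) (2 * i) P0 e0 sl0 a0 f0)
    {x : V} (hx : x ∈ ch c par c) (hxl : x ∉ leaves c par) (hxP : x ∉ P0)
    {z t : V} {C : Finset V} {G F : ℕ → V → ℕ} {base : ℕ}
    (habs : Abs c par p P0 e0 base i z t C G F) (ht : t ∈ ch c par x)
    (hz : ∀ u ∈ ch c par z, u ∈ leaves c par ∨ u ∈ P0)
    (hba : base + 2 * i ≤ a0) (hslots : ∀ v ∈ P0, sl0 v ≤ base ∨ base + 2 * i < sl0 v)
    {k : V} (hk : k ∈ ch c par x) (hkt : k ≠ t) (hkP : k ∈ leaves c par ∨ k ∈ P0)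
    {δ : ℕ} (hδ : p ≤ e0 k + δ)
    (hcase : δ + i ≤ a0 ∨ (i = 0 ∧ a0 = 0 ∧ δ = 1 ∧ ∃ l, ch c par z = {l} ∧
      l ∈ leaves c par ∧ e0 l = p ∧ k ∈ leaves c par ∧ e0 k + 1 = p))
    (hready : ∀ v, v ∉ leaves c par → v ≠ c → v ≠ x → v ∉ P0 → v ∉ C →
      (∀ u ∈ ch c par v, u ∈ leaves c par ∨ u ∈ P0) → p ≤ S c par e0 v + 1)
    (hw : (∀ u ∈ ch c par c, u ≠ x → u ∈ leaves c par ∨ u ∈ P0) →
      p ≤ ∑ u ∈ (ch c par c).erase x, e0 u + 1) : Lab c par p := by
  classical
  obtain ⟨P, e, sl, a, f, st, hP0, hPC, hxP', he, hsl0, hnew, haa, hall, hcard, hwild, hxC, hchc⟩ :=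
    l2pre h hm st0 hx hxl hxP habs ht hz hready hw
  have hcnt := st.cnt
  have hfq := st.fq
  have htc := top_card st
  have htx : t ≠ x := by
    rintro rfl
    exact notMem_ch_self h t ht
  have hk1 : e0 k ≤ ∑ u ∈ (ch c par x).erase t, e u := by
    rw [← he k hkP]
    exact single_le_sum (f := e) (fun _ _ => Nat.zero_le _) (mem_erase.2 ⟨hkt, hk⟩)
  have hLL' : LL c par p e := by
    constructor
    · intro v hv
      rw [he v (Or.inl hv)]; exact hLL.1 v hv
    · intro u hu v hv huv
      rw [he u (Or.inl hu), he v (Or.inl hv)] at huv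
      exact hLL.2 hu hv huv
  have hslots' : ∀ v ∈ P, sl v ≤ base ∨ base + 2 * i < sl v := by
    intro v hv
    by_cases h1 : v ∈ P0
    · rw [hsl0 v h1]; exact hslots v h1
    · have := hnew v hv h1
      omega
  obtain ⟨cx, hcx⟩ : ∃ cx, cx = ∑ u ∈ (ch c par x).erase t, e u := ⟨_, rfl⟩
  obtain ⟨Sw, hSw⟩ : ∃ Sw, Sw = ∑ u ∈ (ch c par c).erase x, e u := ⟨_, rfl⟩
  rw [← hcx] at hk1
  rw [← hSw] at hwild
  by_cases hdead : Sw = p ∧ cx + a + 1 = p + i ∧ f = a + 1
  · -- the exceptional case
    obtain ⟨hd1, hd2, hd3⟩ := hdead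
    rcases hcase with h1 | ⟨hi, ha0, hδ1, l, hl, hll, hlp, hkl, hkp⟩
    · omega
    · have ha : a = 0 := by omega
      subst hi
      have hzt : z = t := by
        have h1 := habs.crd
        rw [mul_zero, zero_add, card_eq_one] at h1
        obtain ⟨y, hy⟩ := h1
        have h2 := habs.mem
        have h3 := habs.memz
        rw [hy, mem_singleton] at h2 h3
        rw [h2, h3]
      subst hzt
      have hg : (P.filter (fun v => p < sl v)).card = 0 := by omega
      have hU : ∀ v ∈ P, sl v ≤ p := by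
        intro v hv
        by_contra hcon
        rw [card_eq_zero] at hg
        have : v ∈ P.filter (fun v => p < sl v) := mem_filter.2 ⟨hv, by omega⟩
        rw [hg] at this
        exact notMem_empty _ this
      have hzn := habs.nl z habs.memz
      have hzP : z ∉ P := fun hcon => disjoint_left.1 hPC hcon habs.memz
      subst ha
      have hf1 : f = 1 := by omega
      subst hf1
      apply l2dead h hp hLL' st hU hx hxl hxP' ht hzn.2.1 hzP hl hll
        (by rw [he l (Or.inl hll)]; exact hlp) hk hkl (by rw [he k hkP]; exact hkp)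
      · intro v h1 h2 h3 h4
        apply hall v h1 h2 h3
        intro h5
        have h6 := habs.crd
        rw [mul_zero, zero_add, card_eq_one] at h6
        obtain ⟨y, hy⟩ := h6
        have h7 := habs.memz
        rw [hy, mem_singleton] at h5 h7
        exact h4 (h5.trans h7.symm)
      · rw [← hcx]; omega
      · rw [← hSw]; exact hd1
  · have hiff : p + i ≤ cx + a + 1 := by
      rcases hcase with h1 | ⟨hi, ha0, hδ1, -⟩ <;> omega
    obtain ⟨φ, β, X, Y, hφ, hβ1, hβ2, hX, hY, hX2, hY2, hXY, hXφ, hYφ⟩ :=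
      hfin p a f i cx Sw (top p P sl) (by omega) (by omega) (by omega)
        (by
          intro s hs
          obtain ⟨v, hv, h1, h2⟩ := mem_top.1 hs
          have h3 := st.res v hv
          rw [h2, mem_singleton] at h3
          omega)
        hwild hiff hdead
    have hmid : ∀ s, a < s → s ≤ f → ∀ v ∈ P, sl v ≠ s := fun s h1 h2 =>
      free_mid st (Nat.sub_le p 1) h1 h2
    have hpf : ∀ v ∈ P, sl v ≠ p := by
      intro v hv hcon
      have := st.low v hv
      omega
    have htop : ∀ s, p < s → s ∉ top p P sl → ∀ v ∈ P, sl v ≠ s := by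
      intro s h1 h2 v hv hcon
      exact h2 (mem_top.2 ⟨v, hv, h1, hcon⟩)
    have hfree : ∀ s, (s = p ∨ (a < s ∧ s ≤ f) ∨ (p < s ∧ s ∉ top p P sl)) →
        ∀ v ∈ P, sl v ≠ s := by
      rintro s (h1 | h1 | h1)
      · rw [h1]; exact hpf
      · exact hmid s h1.1 h1.2
      · exact htop s h1.1 h1.2
    apply l2asm h hLL' st hx hxl hxP' habs ht hPC he hP0 hslots' (by omega) hall hxC hchc hφ hβ1
      hβ2 (by rw [← hcx]; exact hX) (by rw [← hSw]; exact hY) _ (hfree X hX2) (hfree Y hY2) _ _
      hXY hXφ hYφ _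
    · rcases hφ with h1 | h1
      · rw [h1]; exact hpf
      · exact hmid φ h1.1 h1.2
    · rcases hX2 with h1 | h1 | h1 <;> omega
    · rcases hY2 with h1 | h1 | h1 <;> omega
    · omega

end Pool.Agent.W104.Irr
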