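import Pool.Agent.W104.Irr.Desc

/-!
Leaf labels for case L2, top runs.
-/

namespace Pool.Agent.W104.Irr

open Finset Pool.Agent.Helper999.Irr

variable {V : Type} [Fintype V] [DecidableEq V] {T : SimpleGraph V} {c : V} {par : V → V}
  {dep : V → ℕ}

theorem labs (hL : Labels) {p : ℕ} (hp : (leaves c par).card = p) {As : Finset V} {l : V → V}
    (hA : ∀ v ∈ As, v ≠ c ∧ v ∉ leaves c par ∧ ch c par v = {l v} ∧ l v ∈ leaves c par)
    (Pre Xl Tl : List V) (hnd : (Pre ++ Xl ++ Tl).Nodup)
    (hmem : ∀ y ∈ Pre ++ Xl ++ Tl, y ∈ leaves c par ∧ par y ∉ As) :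
    ∃ lam : V → ℕ, LL c par p lam ∧
      (∀ v ∈ As, Pre.length < lam (l v) ∧ lam (l v) ≤ As.card + Pre.length) ∧
      (∀ (i : ℕ) (h : i < Pre.length), lam Pre[i] = i + 1) ∧
      (∀ (i : ℕ) (h : i < Xl.length), lam Xl[i] = Pre.length + As.card + i + 1) ∧
      (∀ (i : ℕ) (h : i < Tl.length), lam Tl[i] + i = p) ∧
      (∀ v, 2 ≤ (lch c par v).card → (∀ y ∈ Pre ++ Xl ++ Tl, par y ≠ v) →
        p + Pre.length + As.card + Xl.length + 1 ≤ ∑ u ∈ lch c par v, lam u + Tl.length) := by
  classical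
  have hlpar : ∀ v ∈ As, par (l v) = v := by
    intro v hv
    have : l v ∈ ch c par v := by rw [(hA v hv).2.2.1]; exact mem_singleton_self _
    exact (mem_ch.1 this).2
  have hinj : Set.InjOn l As := by
    intro u hu v hv huv
    rw [← hlpar u hu, ← hlpar v hv, huv]
  have hcard : (As.image l).card = As.card := card_image_of_injOn hinj
  have hch2 : ∀ v, ∃ a b, 2 ≤ (lch c par v).card → a ∈ lch c par v ∧ b ∈ lch c par v ∧ a ≠ b := by
    intro v
    by_cases h2 : 2 ≤ (lch c par v).card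
    · obtain ⟨a, ha, b, hb, hab⟩ := one_lt_card.1 h2
      exact ⟨a, b, fun _ => ⟨ha, hb, hab⟩⟩
    · exact ⟨v, v, fun h => absurd h h2⟩
  choose f1 f2 hf using hch2
  obtain ⟨M, hM⟩ : ∃ M : Finset V, M = univ.filter (fun v => 2 ≤ (lch c par v).card ∧
    ∀ y ∈ Pre ++ Xl ++ Tl, par y ≠ v) := ⟨_, rfl⟩
  have hmM : ∀ v, v ∈ M ↔ 2 ≤ (lch c par v).card ∧ ∀ y ∈ Pre ++ Xl ++ Tl, par y ≠ v := by
    intro v
    rw [hM, mem_filter]
    simp
  have hgen : ∀ v ∈ M, ∀ w ∈ lch c par v, w ∈ leaves c par ∧ w ∉ As.image l ∧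
      w ∉ Pre ++ Xl ++ Tl := by
    intro v hv w hw
    have h1 := (hmM v).1 hv
    have h2 := mem_lch.1 hw
    have h3 := (mem_ch.1 h2.1).2
    refine ⟨h2.2, ?_, ?_⟩
    · intro hcon
      obtain ⟨u, hu, hul⟩ := mem_image.1 hcon
      have h4 := hlpar u hu
      rw [hul, h3] at h4
      subst h4
      have h5 := h1.1
      have h6 : (lch c par v).card ≤ (ch c par v).card := card_le_card (filter_subset _ _)
      rw [(hA v hu).2.2.1, card_singleton] at h6
      omega
    · intro hcon
      exact h1.2 w hcon h3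
  obtain ⟨lam, h1, h2, h3, h4, h5, h6, h7⟩ := hL (leaves c par) (As.image l) M Pre Xl Tl f1 f2 hnd
    (by
      intro y hy
      refine ⟨(hmem y hy).1, ?_⟩
      intro hcon
      obtain ⟨u, hu, hul⟩ := mem_image.1 hcon
      apply (hmem y hy).2
      rw [← hul, hlpar u hu]
      exact hu)
    (by
      intro y hy
      obtain ⟨u, hu, hul⟩ := mem_image.1 hy
      rw [← hul]
      exact (hA u hu).2.2.2)
    (fun v hv => hgen v hv _ (hf v ((hmM v).1 hv).1).1)
    (fun v hv => hgen v hv _ (hf v ((hmM v).1 hv).1).2.1)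
    (by
      intro u hu v hv huv
      have a1 := (mem_ch.1 (mem_lch.1 (hf u ((hmM u).1 hu).1).1).1).2
      have a2 := (mem_ch.1 (mem_lch.1 (hf v ((hmM v).1 hv).1).1).1).2
      rw [← a1, ← a2, huv])
    (by
      intro u hu v hv huv
      have a1 := (mem_ch.1 (mem_lch.1 (hf u ((hmM u).1 hu).1).2.1).1).2
      have a2 := (mem_ch.1 (mem_lch.1 (hf v ((hmM v).1 hv).1).2.1).1).2
      rw [← a1, ← a2, huv])
    (by
      intro u hu v hv huv
      have a1 := (mem_ch.1 (mem_lch.1 (hf u ((hmM u).1 hu).1).1).1).2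
      have a2 := (mem_ch.1 (mem_lch.1 (hf v ((hmM v).1 hv).1).2.1).1).2
      rw [huv, a2] at a1
      subst a1
      exact (hf v ((hmM v).1 hv).1).2.2 huv)
  rw [hcard] at h4 h5 h6
  rw [hp] at h1 h6 h7
  refine ⟨lam, ⟨h1, h2⟩, ?_, h3, h5, h7, ?_⟩
  · intro v hv
    have := h4 (l v) (mem_image_of_mem _ hv)
    omega
  · intro v hv2 hvy
    have hv : v ∈ M := (hmM v).2 ⟨hv2, hvy⟩
    have h8 := h6 v hv
    obtain ⟨b1, b2, b3⟩ := hf v hv2
    have h9 : lam (f1 v) + lam (f2 v) ≤ ∑ u ∈ lch c par v, lam u := by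
      rw [← sum_pair b3]
      apply sum_le_sum_of_subset
      intro w hw
      rw [mem_insert, mem_singleton] at hw
      rcases hw with rfl | rfl
      · exact b1
      · exact b2
    omega

/-- a top run along a chain -/
theorem toprun (h : Rooted T c par dep) {p : ℕ} {Res : Finset ℕ} {b : ℕ} {P : Finset V}
    {e sl : V → ℕ} {a : ℕ} (st : St c par p Res (p - 1) b P e sl a (p - 1))
    (hRes : ∀ t ∈ Res, p < t) {z k : V} {n : ℕ} (hup : Up c par P z n k) (hz : z ∈ P)
    (hez : e z = p) (hn : a + n + 1 ≤ p) :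
    ∃ (K : Finset V) (e' sl' : V → ℕ), St c par p Res (p - 1) b (P ∪ K) e' sl' a (p - 1 - n) ∧
      (∀ v ∈ K, Desc c par k v ∧ (par v ∈ K ∨ v = k) ∧ v ∉ P ∧ v ≠ c ∧ v ∉ leaves c par) ∧
      (∀ v, v ∉ K → e' v = e v ∧ sl' v = sl v) ∧ (∀ v ∈ K, a < sl' v ∧ sl' v < p) ∧
      e' k + (n + 1) / 2 = p ∧ k ∈ P ∪ K := by
  induction hup with
  | zero =>
    refine ⟨∅, e, sl, ?_, ?_, ?_, ?_, ?_, ?_⟩
    · rw [union_empty]; exact st
    · intro v hv; exact absurd hv (notMem_empty v)
    · intro v _; exact ⟨rfl, rfl⟩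
    · intro v hv; exact absurd hv (notMem_empty v)
    · rw [hez]; omega
    · rw [union_empty]; exact hz
  | succ hu h1 h2 h3 h4 ih =>
    rename_i n u v
    obtain ⟨K, e', sl', st', hK, he', hsl, heu, huK⟩ := ih (by omega)
    have huv : u ∈ ch c par v := by rw [h4]; exact mem_singleton_self _
    have hdu := dep_ch h huv
    have hvK : v ∉ K := by
      intro hv
      have := (hK v hv).1.dep_le h
      omega
    have hvP : v ∉ P ∪ K := by
      intro hv
      rcases mem_union.1 hv with h5 | h5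
      · exact h3 h5
      · exact hvK h5
    have hS : S c par e' v = e' u := by
      unfold S
      rw [h4, sum_singleton]
    have st2 := st'.assign h hvP h1 h2 (by
        intro w hw
        rw [h4, mem_singleton] at hw
        subst hw
        exact Or.inr huK) (p - 1 - n) a (p - 1 - (n + 1)) (by rw [hS]; omega) (by rw [hS]; omega)
        (by omega) (free_mid st' (by omega) (by omega) (le_refl _))
        (by
          intro hcon
          have := hRes _ hcon
          omega) (le_refl _) (by omega) (by omega) (Or.inr (Or.inl (by omega)))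
        (by rw [if_neg (by omega)]; omega)
    refine ⟨insert v K, Function.update e' v (p + (p - 1 - n) - S c par e' v),
      Function.update sl' v (p - 1 - n), ?_, ?_, ?_, ?_, ?_, ?_⟩
    · rw [union_insert]; exact st2
    · intro w hw
      rcases mem_insert.1 hw with rfl | hw
      · exact ⟨Desc.refl, Or.inr rfl, h3, h1, h2⟩
      · obtain ⟨h5, h6, h7, h8, h9⟩ := hK w hw
        refine ⟨Desc.of_ch huv h5, ?_, h7, h8, h9⟩
        left
        rcases h6 with h6 | h6
        · exact mem_insert_of_mem h6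
        · rw [h6, (mem_ch.1 huv).2]; exact mem_insert_self _ _
    · intro w hw
      rw [mem_insert] at hw
      push Not at hw
      rw [Function.update_of_ne hw.1, Function.update_of_ne hw.1]
      exact he' w hw.2
    · intro w hw
      rcases mem_insert.1 hw with rfl | hw2
      · rw [Function.update_self]; omega
      · have hwv : w ≠ v := fun hcon => hvK (hcon ▸ hw2)
        rw [Function.update_of_ne hwv]
        exact hsl w hw2
    · rw [Function.update_self, hS]
      omega
    · rw [mem_union]; right; exact mem_insert_self _ _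

end Pool.Agent.W104.Irr
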