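import Pool.Agent.W104.Irr.Struct
import Pool.Agent.W249.IR.Abs
import Pool.Agent.W249.IR.S3
import Pool.Agent.W249.IR.AS
import Pool.Agent.W249.IR.B1
import Pool.Agent.W340.Irr.Labels
import Pool.Agent.W349.IR.Arith
import Pool.Agent.W349.IR.E3
import Pool.Agent.W826.Irr.LabList

/-!
Every tree with `p ≥ 3` leaves and at most `2 p + 1` vertices has irregularity strength `p`.
-/

namespace Pool.Agent.W104.Irr

open Finset Pool.Agent.Helper999.Irr

lemma lab_pf : Labels := Pool.Agent.W340.Irr.labels Pool.Agent.W826.Irr.labelList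
lemma b1_pf : B1case := Pool.Agent.W249.IR.b1case Pool.Agent.W349.IR.b1fin lab_pf
lemma s3_pf : S3case :=
  Pool.Agent.W249.IR.s3case Pool.Agent.W349.IR.s3fin Pool.Agent.W349.IR.e3 lab_pf
lemma as_pf : AScase := Pool.Agent.W249.IR.ascase lab_pf

variable {V : Type} [Fintype V] [DecidableEq V] {T : SimpleGraph V}

lemma exists_deg3 (hT : T.IsTree) {p : ℕ} (hp3 : 3 ≤ p) (hp : leafCount T = p) :
    ∃ v, 3 ≤ dg T v := by
  classical
  obtain ⟨r0⟩ := hT.connected.nonempty
  obtain ⟨par, dep, h⟩ := exists_rooted T hT r0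
  by_contra hcon
  push Not at hcon
  have h1 := handshake h
  have h2 : ∑ v : V, (dg T v + if dg T v = 1 then 1 else 0) ≤ ∑ _v : V, 2 := by
    apply sum_le_sum
    intro v _
    have := hcon v
    split_ifs <;> omega
  rw [sum_add_distrib, sum_const, card_univ, smul_eq_mul, ← sum_filter, sum_const, smul_eq_mul,
    mul_one, ← leafCount_eq, hp] at h2
  omega

lemma adj_of_ch {c : V} {par : V → V} {dep : V → ℕ} (h : Rooted T c par dep) {u v : V}
    (hu : u ∈ ch c par v) : T.Adj v u := adj_of_mem_ch h hu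

/-- the case B1 -/
lemma caseB1 (hT : T.IsTree) {p : ℕ} (hp3 : 3 ≤ p) (hp : leafCount T = p)
    (hm : (univ.filter (fun v => dg T v ≠ 1)).card ≤ p + 1)
    (hH : ∀ c x, T.Adj x c → 3 ≤ dg T c → dg T x ≠ 1 → ∃ v, v ≠ c ∧ v ≠ x ∧ dg T v ≠ 1)
    (hB : B1T T) : strength T = p := by
  classical
  obtain ⟨z, b, ⟨hzb, hz3, hz1⟩, hb2⟩ := hB
  obtain ⟨par, dep, h⟩ := exists_rooted T hT z
  have hzi : dg T z ≠ 1 := by omega
  have hleaf := mem_leaves_iff h hzi
  have hbch : b ∈ ch z par z := mem_ch_of_adj h hzb.symm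
  have hbc : b ≠ z := (mem_ch.1 hbch).1
  have hbl : b ∉ leaves z par := by rw [hleaf]; omega
  have hdb := dg_ne h hbc
  obtain ⟨v, hv⟩ := card_eq_one.1 (show (ch z par b).card = 1 by omega)
  apply finish_strength h p hp
  apply b1_pf T z par dep h p hp3 (by rw [leaves_card h hzi, hp]) _ b v hbch hbl _
    (by rw [← dg_root h]; exact hz3) hv _
  · rw [leaves_eq h hzi, ← filter_not]
    exact hm
  · intro u hu hub
    rw [hleaf]
    exact hz1 u (adj_of_ch h hu) hub
  · intro hvl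
    obtain ⟨w, hw1, hw2, hw3⟩ := hH z b hzb.symm hz3 (by omega)
    have h1 := inner_ind h (Q := fun w => w = z ∨ w = b) (Or.inl rfl) (by
      intro y hy u hu hul
      rcases hy with rfl | rfl
      · by_contra hcon
        push Not at hcon
        apply hul
        rw [hleaf]
        exact hz1 u (adj_of_ch h hu) hcon.2
      · exfalso
        rw [hv, mem_singleton] at hu
        subst hu
        exact hul hvl) w (fun hcon => hw3 ((hleaf w).1 hcon))
    rcases h1 with h1 | h1
    · exact hw1 h1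
    · exact hw2 h1

/-- the case S3 -/
lemma caseS3 (hT : T.IsTree) {p : ℕ} (hp3 : 3 ≤ p) (hp : leafCount T = p)
    (hm : (univ.filter (fun v => dg T v ≠ 1)).card ≤ p + 1)
    (hS : S3T T) : strength T = p := by
  classical
  obtain ⟨z, x, ⟨hzx, hz3, hz1⟩, hz4, hx3, ⟨u0, hu0, hu0z, hu0i⟩, halt⟩ := hS
  obtain ⟨par, dep, h⟩ := exists_rooted T hT z
  have hzi : dg T z ≠ 1 := by omega
  have hleaf := mem_leaves_iff h hzi
  have hxch : x ∈ ch z par z := mem_ch_of_adj h hzx.symm
  have hxc : x ≠ z := (mem_ch.1 hxch).1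
  have hxl : x ∉ leaves z par := by rw [hleaf]; omega
  have hdx := dg_ne h hxc
  have hxp : par x = z := (mem_ch.1 hxch).2
  have hnb : ∀ u, T.Adj x u → u ≠ z → u ∈ ch z par x := by
    intro u hu huz
    rcases adj_cases h hxc hu with h1 | h1
    · exact absurd (h1.trans hxp) huz
    · exact h1
  apply finish_strength h p hp
  apply s3_pf T z par dep h p hp3 (by rw [leaves_card h hzi, hp]) _ x hxch hxl _
    (by rw [← dg_root h]; exact hz4) (by omega) _ _
  · rw [leaves_eq h hzi, ← filter_not]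
    exact hm
  · intro u hu hux
    rw [hleaf]
    exact hz1 u (adj_of_ch h hu) hux
  · exact ⟨u0, hnb u0 hu0 hu0z, fun hcon => hu0i ((hleaf u0).1 hcon)⟩
  · rcases halt with ⟨u, hu, hul⟩ | ⟨z2, hz2z, ⟨hz2x, hz23, hz21⟩, hz24⟩
    · left
      refine ⟨u, hnb u hu ?_, (hleaf u).2 hul⟩
      rintro rfl
      omega
    · right
      have hz2 : z2 ∈ ch z par x := hnb z2 hz2x.symm hz2z
      have hz2c : z2 ≠ z := hz2z
      have hdz2 := dg_ne h hz2c
      refine ⟨z2, hz2, fun hcon => ?_, by omega, ?_⟩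
      · have := (hleaf z2).1 hcon
        omega
      · intro u hu
        rw [hleaf]
        apply hz21 u (adj_of_ch h hu)
        rintro rfl
        have h1 := (mem_ch.1 hu).2
        rw [hxp] at h1
        exact hz2c h1.symm

/-- there is a vertex of degree at least three with two inner neighbours -/
lemma exists_Bs (hT : T.IsTree) {p : ℕ} (hp3 : 3 ≤ p) (hp : leafCount T = p)
    (hst : ¬ ∃ c, 3 ≤ dg T c ∧ ∀ v, v ≠ c → dg T v = 1)
    (hH : ∀ c x, T.Adj x c → 3 ≤ dg T c → dg T x ≠ 1 → ∃ v, v ≠ c ∧ v ≠ x ∧ dg T v ≠ 1)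
    (hB1 : ¬ B1T T) : ∃ x, Bs T x := by
  classical
  obtain ⟨v0, hv0⟩ := exists_deg3 hT hp3 hp
  obtain ⟨par, dep, h⟩ := exists_rooted T hT v0
  have hi : dg T v0 ≠ 1 := by omega
  have hleaf := mem_leaves_iff h hi
  -- an inner child
  obtain ⟨b, hb, hbl⟩ : ∃ b ∈ ch v0 par v0, b ∉ leaves v0 par := by
    by_contra hcon
    push Not at hcon
    apply hst
    refine ⟨v0, hv0, ?_⟩
    intro v hv
    by_contra hcon2
    have h1 := inner_ind h (Q := fun w => w = v0) rfl (by
      intro y hy u hu hul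
      subst hy
      exact absurd (hcon u hu) hul) v (fun hcon3 => hcon2 ((hleaf v).1 hcon3))
    exact hv h1
  have hbc : b ≠ v0 := (mem_ch.1 hb).1
  have hadj : T.Adj v0 b := adj_of_ch h hb
  have hbi : dg T b ≠ 1 := fun hcon => hbl ((hleaf b).2 hcon)
  by_cases h2 : ∃ b' ∈ ch v0 par v0, b' ≠ b ∧ b' ∉ leaves v0 par
  · obtain ⟨b', hb', hbb, hb'l⟩ := h2
    exact ⟨v0, hv0, b, b', Ne.symm hbb, hadj, adj_of_ch h hb', hbi,
      fun hcon => hb'l ((hleaf b').2 hcon)⟩
  · push Not at h2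
    have hse : SE T v0 b := ⟨hadj, hv0, fun u hu hub => (hleaf u).1
      (h2 u (mem_ch_of_adj h hu.symm) hub)⟩
    have hb2 : dg T b ≠ 2 := fun hcon => hB1 ⟨v0, b, hse, hcon⟩
    have hb1 : 1 ≤ dg T b := dg_pos_of_adj hadj.symm
    obtain ⟨u, hu, hul⟩ : ∃ u ∈ ch v0 par b, u ∉ leaves v0 par := by
      by_contra hcon
      push Not at hcon
      obtain ⟨w, hw1, hw2, hw3⟩ := hH v0 b hadj.symm hv0 hbi
      have h1 := inner_ind h (Q := fun w => w = v0 ∨ w = b) (Or.inl rfl) (by
        intro y hy u hu hul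
        rcases hy with rfl | rfl
        · by_contra hcon3
          push Not at hcon3
          exact hul (h2 u hu hcon3.2)
        · exact absurd (hcon u hu) hul) w (fun hcon3 => hw3 ((hleaf w).1 hcon3))
      rcases h1 with h1 | h1
      · exact hw1 h1
      · exact hw2 h1
    refine ⟨b, by omega, v0, u, ?_, hadj.symm, adj_of_ch h hu, hi,
      fun hcon => hul ((hleaf u).2 hcon)⟩
    exact Ne.symm (mem_ch.1 hu).1

end Pool.Agent.W104.Irr
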