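import Pool.Agent.W104.Irr.Main

/-!
Every tree with `p ≥ 3` leaves and at most `2 p + 1` vertices has irregularity strength `p`:
conclusion.
-/

namespace Pool.Agent.W104.Irr

open Finset Pool.Agent.Helper999.Irr

variable {V : Type} [Fintype V] [DecidableEq V] {T : SimpleGraph V}

/-- descendants after moving the root -/
lemma desc_reroot {r w x : V} {par dep par' dep'} (h : Rooted T r par dep)
    (h' : Rooted T w par' dep') (hxr : x ≠ r) (hw : par x = w) {v : V}
    (hd : Desc w par' x v) : Desc r par x v := by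
  induction hd with
  | refl => exact Desc.refl
  | step h1 h2 ih =>
    rename_i v
    have hadj := (h'.h1 v h1).1
    rcases h.h2 v (par' v) hadj with ⟨h3, h4⟩ | ⟨h3, h4⟩
    · apply Desc.step h3
      rw [h4]
      exact ih
    · -- `par (par' v) = v`
      generalize hu : par' v = u at *
      cases ih with
      | refl => exact absurd (h4.symm.trans hw) h1
      | step h5 h6 => rw [h4] at h6; exact h6

/-- the case of at least two vertices in `B*` -/
lemma caseTwo (hT : T.IsTree) {p : ℕ} (hp3 : 3 ≤ p) (hp : leafCount T = p)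
    (hm : (univ.filter (fun v => dg T v ≠ 1)).card ≤ p + 1)
    (hB1 : ¬ B1T T) (hS3 : ¬ S3T T) {r x0 : V} (hr : Bs T r) (hx0 : Bs T x0) (hne : x0 ≠ r) :
    strength T = p := by
  classical
  obtain ⟨par, dep, h⟩ := exists_rooted T hT r
  have hri : dg T r ≠ 1 := by have := hr.1; omega
  obtain ⟨x, hx, hmax⟩ := exists_max_image (univ.filter (fun v => Bs T v ∧ v ≠ r)) dep
    ⟨x0, by rw [mem_filter]; exact ⟨mem_univ _, hx0, hne⟩⟩
  rw [mem_filter] at hx
  obtain ⟨-, hxB, hxr⟩ := hx
  obtain ⟨w, hw⟩ : ∃ w, w = par x := ⟨_, rfl⟩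
  have hadj : T.Adj x w := by rw [hw]; exact (h.h1 x hxr).1
  have hwi : dg T w ≠ 1 := by rw [hw]; exact par_inner h hri hxr
  obtain ⟨par', dep', h'⟩ := exists_rooted T hT w
  apply finish_strength h' p hp
  have hwx : w ≠ x := hadj.ne.symm
  apply l2tree Pool.Agent.W349.IR.l2fin Pool.Agent.W249.IR.absChain lab_pf hp3 h'
    (by rw [leaves_card h' hwi, hp]) _ hadj hwi hxB _ _ hB1 hS3 (r := r) (Ne.symm hxr) hr.1
  · intro hcon
    have h1 := desc_reroot h h' hxr hw.symm hcon
    exact h1.ne_root hxr rfl
  · rw [leaves_eq h' hwi, ← filter_not]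
    exact hm
  · by_cases hwr : w = r
    · right; rw [hwr]; exact hr.1
    · left
      refine ⟨par w, (h.h1 w hwr).1, ?_, par_inner h hri hwr⟩
      intro hcon
      have h1 := (h.h1 w hwr).2
      have h2 := (h.h1 x hxr).2
      rw [hcon] at h1
      rw [← hw] at h2
      omega
  · intro v hv hvx hvB
    have h1 := desc_reroot h h' hxr hw.symm hv
    have hvr : v ≠ r := h1.ne_root hxr
    have h2 := hmax v (by rw [mem_filter]; exact ⟨mem_univ _, hvB, hvr⟩)
    cases h1 with
    | refl => exact hvx rfl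
    | step h3 h4 =>
      have h5 := h4.dep_le h
      have h6 := (h.h1 v h3).2
      omega

/-- the case of exactly one vertex in `B*` -/
lemma caseOne (hT : T.IsTree) {p : ℕ} (hp3 : 3 ≤ p) (hp : leafCount T = p)
    (hm : (univ.filter (fun v => dg T v ≠ 1)).card ≤ p + 1)
    (hB1 : ¬ B1T T) (hS3 : ¬ S3T T) {x : V} (hx : Bs T x) (huniq : ∀ v, Bs T v → v = x) :
    strength T = p := by
  classical
  by_cases hstar : ∃ w, T.Adj x w ∧ 3 ≤ dg T w
  · obtain ⟨w, hadj, hw3⟩ := hstar
    have hwi : dg T w ≠ 1 := by omega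
    obtain ⟨par', dep', h'⟩ := exists_rooted T hT w
    apply finish_strength h' p hp
    have hxw : x ≠ w := hadj.ne
    apply l2tree Pool.Agent.W349.IR.l2fin Pool.Agent.W249.IR.absChain lab_pf hp3 h'
      (by rw [leaves_card h' hwi, hp]) _ hadj hwi hx (Or.inr hw3) _ hB1 hS3 (r := w) (Ne.symm hxw)
      hw3
    · intro hcon
      exact hcon.ne_root hxw rfl
    · rw [leaves_eq h' hwi, ← filter_not]
      exact hm
    · intro v hv hvx hvB
      exact hvx (huniq v hvB)
  · push Not at hstar
    obtain ⟨par, dep, h⟩ := exists_rooted T hT x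
    have hxi : dg T x ≠ 1 := by have := hx.1; omega
    have hleaf := mem_leaves_iff h hxi
    apply finish_strength h p hp
    apply as_pf T x par dep h p hp3 (by rw [leaves_card h hxi, hp])
    · rw [leaves_eq h hxi, ← filter_not]
      exact hm
    · intro v hvx hvl
      have hvi : dg T v ≠ 1 := fun hcon => hvl ((hleaf v).2 hcon)
      have hdv := dg_ne h hvx
      have hpar := (h.h1 v hvx).1
      have hpi := par_inner h hxi hvx
      have hne : ch x par v ≠ ∅ := fun hcon => hvl (mem_leaves.2 ⟨hvx, hcon⟩)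
      have hpos := card_pos.2 (nonempty_iff_ne_empty.2 hne)
      by_contra hcon
      have hv3 : 3 ≤ dg T v := by omega
      -- all children are leaves
      have hall : ∀ u, T.Adj v u → u ≠ par v → dg T u = 1 := by
        intro u hu hup
        by_contra hui
        apply hvx
        apply huniq
        exact ⟨hv3, par v, u, Ne.symm hup, hpar, hu, hpi, hui⟩
      by_cases hpx : par v = x
      · rw [hpx] at hpar
        have := hstar v hpar.symm
        omega
      · apply hB1
        refine ⟨v, par v, ⟨hpar, hv3, hall⟩, ?_⟩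
        have h1 : 1 ≤ dg T (par v) := dg_pos_of_adj hpar.symm
        by_contra hcon2
        apply hpx
        apply huniq
        have hpp := (h.h1 (par v) hpx).1
        refine ⟨by omega, v, par (par v), ?_, hpar.symm, hpp, hvi, par_inner h hxi hpx⟩
        intro h2
        have h3 := (h.h1 v hvx).2
        have h4 := (h.h1 (par v) hpx).2
        rw [← h2] at h4
        omega
    · obtain ⟨-, a, b, hab, hxa, hxb, ha1, hb1⟩ := hx
      have : ({a, b} : Finset V) ⊆ (ch x par x).filter (fun u => u ∉ leaves x par) := by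
        intro u hu
        rw [mem_insert, mem_singleton] at hu
        rw [mem_filter]
        rcases hu with rfl | rfl
        · exact ⟨mem_ch_of_adj h hxa.symm, fun hcon => ha1 ((hleaf _).1 hcon)⟩
        · exact ⟨mem_ch_of_adj h hxb.symm, fun hcon => hb1 ((hleaf _).1 hcon)⟩
      have h2 := card_le_card this
      rw [card_pair hab] at h2
      exact h2

/-- Every tree with `p ≥ 3` leaves and order at most `2 p + 1` has irregularity strength `p`. -/
theorem strength_exact (T : SimpleGraph V) (hT : T.IsTree) (p : ℕ) (hp3 : 3 ≤ p)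
    (hp : leafCount T = p) (hm0 : Fintype.card V ≤ 2 * p + 1) : strength T = p := by
  classical
  have hm : (univ.filter (fun v => dg T v ≠ 1)).card ≤ p + 1 := by
    have h1 : (univ.filter (fun v => dg T v = 1)).card + (univ.filter (fun v => dg T v ≠ 1)).card =
        Fintype.card V := by
      rw [card_filter_add_card_filter_not, card_univ]
    rw [← leafCount_eq, hp] at h1
    omega
  by_cases hst : ∃ c, 3 ≤ dg T c ∧ ∀ v, v ≠ c → dg T v = 1
  · obtain ⟨c, hc3, hc⟩ := hst
    obtain ⟨par, dep, h⟩ := exists_rooted T hT c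
    have hci : dg T c ≠ 1 := by omega
    apply finish_strength h p hp
    apply star c par dep (fun v hv => (h.h1 v hv).2) p
      (by rw [leaves_card h hci, hp]) (by rw [← dg_root h]; omega)
    intro v hv
    rw [mem_leaves_iff h hci]
    exact hc v hv
  by_cases hds : ∃ c x, T.Adj x c ∧ 3 ≤ dg T c ∧ dg T x ≠ 1 ∧ ∀ v, v ≠ c → v ≠ x → dg T v = 1
  · obtain ⟨c, x, hadj, hc3, hxi, hall⟩ := hds
    obtain ⟨par, dep, h⟩ := exists_rooted T hT c
    have hci : dg T c ≠ 1 := by omega
    have hxch := mem_ch_of_adj h hadj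
    have hxc : x ≠ c := (mem_ch.1 hxch).1
    have hdx := dg_ne h hxc
    apply finish_strength h p hp
    apply double_star c par dep (fun v hv => (h.h1 v hv).2) p (by rw [leaves_card h hci, hp])
      (by rw [← dg_root h]; omega) x hxch
    · rw [← card_pos]; omega
    · intro v hvc hvx
      rw [mem_leaves_iff h hci]
      exact hall v hvc hvx
  have hH : ∀ c x, T.Adj x c → 3 ≤ dg T c → dg T x ≠ 1 → ∃ v, v ≠ c ∧ v ≠ x ∧ dg T v ≠ 1 := by
    intro c x h1 h2 h3
    by_contra hcon
    push Not at hcon
    exact hds ⟨c, x, h1, h2, h3, hcon⟩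
  by_cases hB1 : B1T T
  · exact caseB1 hT hp3 hp hm hH hB1
  by_cases hS3 : S3T T
  · exact caseS3 hT hp3 hp hm hS3
  obtain ⟨x, hx⟩ := exists_Bs hT hp3 hp hst hH hB1
  by_cases h2 : ∃ r, r ≠ x ∧ Bs T r
  · obtain ⟨r, hrx, hr⟩ := h2
    exact caseTwo hT hp3 hp hm hB1 hS3 hr hx (Ne.symm hrx)
  · push Not at h2
    exact caseOne hT hp3 hp hm hB1 hS3 hx (fun v hv => by
      by_contra hcon
      exact h2 v hcon hv)

end Pool.Agent.W104.Irr
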