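import Pool.Agent.W104.Irr.Main2

/-!
The case `p = 2`: paths.
-/

namespace Pool.Agent.W104.Irr

open Pool.Agent.Helper999.Irr Finset

/-- the path with five vertices -/
def p5 : SimpleGraph (Fin 5) where
  Adj i j := i.val + 1 = j.val ∨ j.val + 1 = i.val
  symm := ⟨fun _ _ h => h.symm⟩
  loopless := ⟨fun i h => by rcases h with h | h <;> omega⟩

instance : DecidableRel p5.Adj := fun i j =>
  inferInstanceAs (Decidable (i.val + 1 = j.val ∨ j.val + 1 = i.val))

lemma p5_tree : p5.IsTree := by
  have hc : p5.Connected := by
    rw [SimpleGraph.connected_iff_exists_forall_reachable]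
    refine ⟨0, ?_⟩
    have h01 : p5.Adj 0 1 := by decide
    have h12 : p5.Adj 1 2 := by decide
    have h23 : p5.Adj 2 3 := by decide
    have h34 : p5.Adj 3 4 := by decide
    intro w
    fin_cases w
    · exact SimpleGraph.Reachable.refl _
    · exact h01.reachable
    · exact h01.reachable.trans h12.reachable
    · exact (h01.reachable.trans h12.reachable).trans h23.reachable
    · exact ((h01.reachable.trans h12.reachable).trans h23.reachable).trans h34.reachable
  rw [SimpleGraph.isTree_iff_connected_and_card]
  refine ⟨hc, ?_⟩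
  rw [Nat.card_eq_fintype_card, Nat.card_eq_fintype_card, ← SimpleGraph.edgeFinset_card]
  decide

lemma dg_eq_degree {V : Type} [Fintype V] (T : SimpleGraph V) [DecidableRel T.Adj] (v : V) :
    dg T v = T.degree v := by
  unfold dg SimpleGraph.degree SimpleGraph.neighborFinset
  rw [Set.ncard_eq_toFinset_card']

lemma p5_leaf : leafCount p5 = 2 := by
  rw [leafCount_eq]
  simp only [dg_eq_degree]
  decide

lemma p5_strength : strength p5 ≠ 2 := by
  classical
  intro h
  have hne : {k : ℕ | ∃ w : Sym2 (Fin 5) → ℕ, IsIrregular p5 w ∧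
      ∀ e ∈ p5.edgeSet, w e ≤ k}.Nonempty := by
    apply Nat.nonempty_of_pos_sInf
    change 0 < strength p5
    omega
  obtain ⟨w, ⟨hw1, hw2⟩, hw3⟩ := Nat.sInf_mem hne
  change ∀ e ∈ p5.edgeSet, w e ≤ strength p5 at hw3
  rw [h] at hw3
  have hb : ∀ v : Fin 5, (∑ u : Fin 5, if p5.Adj v u then 2 else 0) ≤ 4 := by decide
  have ha : ∀ v : Fin 5, 1 ≤ (∑ u : Fin 5, if p5.Adj v u then 1 else 0) := by decide
  have h5 : (univ : Finset (Fin 5)).card ≤ (Finset.Icc 1 4).card := by
    apply Finset.card_le_card_of_injOn (wdeg p5 w)
    · intro v _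
      rw [Finset.mem_coe, Finset.mem_Icc]
      constructor
      · refine (ha v).trans ?_
        unfold wdeg
        apply Finset.sum_le_sum
        intro u _
        by_cases hvu : p5.Adj v u
        · simp only [if_pos hvu]
          exact hw1 _ hvu
        · simp only [if_neg hvu]
          exact le_refl _
      · refine le_trans ?_ (hb v)
        unfold wdeg
        apply Finset.sum_le_sum
        intro u _
        by_cases hvu : p5.Adj v u
        · simp only [if_pos hvu]
          exact hw3 _ hvu
        · simp only [if_neg hvu]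
          exact le_refl _
    · exact fun a _ b _ hab => hw2 hab
  rw [Finset.card_univ, Fintype.card_fin, Nat.card_Icc] at h5
  omega

/-- paths with three or four vertices -/
theorem good_two (V : Type) [Fintype V] (T : SimpleGraph V) (hT : T.IsTree)
    (h3 : 3 ≤ Fintype.card V) (h4 : Fintype.card V ≤ 4) (hl : leafCount T = 2) :
    strength T = 2 := by
  classical
  have hcount : (univ.filter (fun v => dg T v = 1)).card +
      (univ.filter (fun v => dg T v ≠ 1)).card = Fintype.card V := by
    rw [card_filter_add_card_filter_not, card_univ]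
  rw [← leafCount_eq, hl] at hcount
  obtain ⟨c, hc⟩ : (univ.filter (fun v => dg T v ≠ 1)).Nonempty := by
    rw [← card_pos]; omega
  have hci : dg T c ≠ 1 := (mem_filter.1 hc).2
  obtain ⟨par, dep, h⟩ := exists_rooted T hT c
  have hnt : Nontrivial V := Fintype.one_lt_card_iff_nontrivial.1 (by omega)
  have hpos : ∀ v, 1 ≤ dg T v := by
    intro v
    rw [dg_eq_degree]
    exact hT.connected.preconnected.degree_pos_of_nontrivial v
  have hc2 := hpos c
  have hleaf := mem_leaves_iff h hci
  apply finish_strength h 2 hl
  by_cases hst : ∀ v, v ≠ c → dg T v = 1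
  · apply star c par dep (fun v hv => (h.h1 v hv).2) 2
      (by rw [leaves_card h hci, hl]) (by rw [← dg_root h]; omega)
    intro v hv
    rw [hleaf]
    exact hst v hv
  · push Not at hst
    obtain ⟨x, hxc, hxi⟩ := hst
    have hall : ∀ v, v ≠ c → v ≠ x → dg T v = 1 := by
      intro v hvc hvx
      by_contra hvi
      have h5 : ({c, x, v} : Finset V) ⊆ univ.filter (fun v => dg T v ≠ 1) := by
        intro u hu
        rw [mem_insert, mem_insert, mem_singleton] at hu
        rw [mem_filter]
        rcases hu with rfl | rfl | rfl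
        · exact ⟨mem_univ _, hci⟩
        · exact ⟨mem_univ _, hxi⟩
        · exact ⟨mem_univ _, hvi⟩
      have h6 := card_le_card h5
      rw [card_insert_of_notMem (by simp [Ne.symm hxc, Ne.symm hvc]),
        card_insert_of_notMem (by simp [Ne.symm hvx]), card_singleton] at h6
      omega
    have hpx : par x = c := by
      by_contra hcon
      have h5 := par_inner h hci hxc
      have h6 : par x ≠ x := par_ne_self h hxc
      exact h5 (hall (par x) hcon h6)
    have hxch : x ∈ ch c par c := mem_ch.2 ⟨hxc, hpx⟩
    have hdx := dg_ne h hxc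
    have hx2 := hpos x
    apply double_star c par dep (fun v hv => (h.h1 v hv).2) 2 (by rw [leaves_card h hci, hl])
      (by rw [← dg_root h]; omega) x hxch
    · rw [← card_pos]; omega
    · intro v hvc hvx
      rw [hleaf]
      exact hall v hvc hvx

end Pool.Agent.W104.Irr
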