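import Pool.Agent.W104.Irr.Base

/-!
Statements of the tree lemmas used in the exact determination of `n(p)` (MP_033e98_co).
-/

namespace Pool.Agent.W104.Irr

open Finset Pool.Agent.Helper999.Irr

/-- Labels: `Pre`, then the set `A`, then `Xl`, then the `f1 v` (`v ∈ M`) from the bottom;
`Tl`, then the `f2 v` from the top. -/
def Labels : Prop :=
  ∀ {V : Type} [DecidableEq V] (Lf A M : Finset V) (Pre Xl Tl : List V) (f1 f2 : V → V),
    (Pre ++ Xl ++ Tl).Nodup → (∀ x ∈ Pre ++ Xl ++ Tl, x ∈ Lf ∧ x ∉ A) → A ⊆ Lf →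
    (∀ v ∈ M, f1 v ∈ Lf ∧ f1 v ∉ A ∧ f1 v ∉ Pre ++ Xl ++ Tl) →
    (∀ v ∈ M, f2 v ∈ Lf ∧ f2 v ∉ A ∧ f2 v ∉ Pre ++ Xl ++ Tl) →
    Set.InjOn f1 M → Set.InjOn f2 M → (∀ u ∈ M, ∀ v ∈ M, f1 u ≠ f2 v) →
    ∃ e : V → ℕ, (∀ x ∈ Lf, 1 ≤ e x ∧ e x ≤ Lf.card) ∧ Set.InjOn e Lf ∧
      (∀ (i : ℕ) (h : i < Pre.length), e Pre[i] = i + 1) ∧
      (∀ x ∈ A, Pre.length < e x ∧ e x ≤ Pre.length + A.card) ∧
      (∀ (i : ℕ) (h : i < Xl.length), e Xl[i] = Pre.length + A.card + i + 1) ∧
      (∀ v ∈ M, e (f1 v) + e (f2 v) + Tl.length =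
        Lf.card + Pre.length + A.card + Xl.length + 1) ∧
      (∀ (i : ℕ) (h : i < Tl.length), e Tl[i] + i = Lf.card)

/-- Case B1: the root `c` is a star end (all neighbours but `b` are leaves, at least two of them)
and `b` has degree two. -/
def B1case : Prop :=
  ∀ {V : Type} [Fintype V] [DecidableEq V] (T : SimpleGraph V) (c : V) (par : V → V)
    (dep : V → ℕ), Rooted T c par dep → ∀ (p : ℕ), 3 ≤ p → (leaves c par).card = p →
    (univ \ leaves c par).card ≤ p + 1 → ∀ (b v : V), b ∈ ch c par c → b ∉ leaves c par →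
    (∀ u ∈ ch c par c, u ≠ b → u ∈ leaves c par) → 3 ≤ (ch c par c).card →
    ch c par b = {v} → v ∉ leaves c par → Lab c par p

/-- Case S3: the root `c` is a star end with at least three leaves, its inner neighbour `x` has
degree at least three, `x` has an inner child, and `x` has a leaf or is adjacent to another star
end with at least three leaves. -/
def S3case : Prop :=
  ∀ {V : Type} [Fintype V] [DecidableEq V] (T : SimpleGraph V) (c : V) (par : V → V)
    (dep : V → ℕ), Rooted T c par dep → ∀ (p : ℕ), 3 ≤ p → (leaves c par).card = p →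
    (univ \ leaves c par).card ≤ p + 1 → ∀ (x : V), x ∈ ch c par c → x ∉ leaves c par →
    (∀ u ∈ ch c par c, u ≠ x → u ∈ leaves c par) → 4 ≤ (ch c par c).card →
    2 ≤ (ch c par x).card → (∃ u ∈ ch c par x, u ∉ leaves c par) →
    ((∃ u ∈ ch c par x, u ∈ leaves c par) ∨
      (∃ z ∈ ch c par x, z ∉ leaves c par ∧ 3 ≤ (ch c par z).card ∧
        ∀ u ∈ ch c par z, u ∈ leaves c par)) → Lab c par p

/-- Case AS: all inner vertices other than the root `c` have exactly one child; at least two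
children of the root are inner vertices. -/
def AScase : Prop :=
  ∀ {V : Type} [Fintype V] [DecidableEq V] (T : SimpleGraph V) (c : V) (par : V → V)
    (dep : V → ℕ), Rooted T c par dep → ∀ (p : ℕ), 3 ≤ p → (leaves c par).card = p →
    (univ \ leaves c par).card ≤ p + 1 →
    (∀ v, v ≠ c → v ∉ leaves c par → (ch c par v).card = 1) →
    2 ≤ ((ch c par c).filter (fun u => u ∉ leaves c par)).card → Lab c par p

/-- `Up n z t`: `t` is reached from `z` by going up `n` steps through inner vertices with only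
one child -/
inductive Up {V : Type} [Fintype V] [DecidableEq V] (c : V) (par : V → V) (P : Finset V) (z : V) :
    ℕ → V → Prop
  | zero : Up c par P z 0 z
  | succ {n : ℕ} {u v : V} : Up c par P z n u → v ≠ c → v ∉ leaves c par → v ∉ P →
      ch c par v = {u} → Up c par P z (n + 1) v

/-- A family of labellings `G φ` of a vertex `z` and the `2 i` vertices with one child above it,
with slots `F φ`: `z` has the slot `φ`, the others have slots in `(base, base + 2 i]`. The top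
vertex `t` has the label `φ - i`. -/
structure Abs {V : Type} [Fintype V] [DecidableEq V] (c : V) (par : V → V) (p : ℕ)
    (P : Finset V) (e0 : V → ℕ) (base i : ℕ) (z t : V) (C : Finset V) (G F : ℕ → V → ℕ) :
    Prop where
  mem : t ∈ C
  memz : z ∈ C
  crd : C.card = 2 * i + 1
  nl : ∀ v ∈ C, v ≠ c ∧ v ∉ leaves c par ∧ v ∉ P
  cl : ∀ v ∈ C, v = z ∨ ∃ u ∈ C, ch c par v = {u}
  pr : ∀ v ∈ C, v ≠ t → par v ∈ C
  lab : ∀ φ, base + 2 * i < φ → φ ≤ p → ∀ v ∈ C, 1 ≤ G φ v ∧ G φ v ≤ p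
  val : ∀ φ, base + 2 * i < φ → φ ≤ p → ∀ e : V → ℕ,
    (∀ v, v ∈ leaves c par ∨ v ∈ P → e v = e0 v) → (∀ v ∈ C, e v = G φ v) →
    ∀ v ∈ C, S c par e v + e v = p + F φ v
  inj : ∀ φ, base + 2 * i < φ → φ ≤ p → Set.InjOn (F φ) C
  rng : ∀ φ, base + 2 * i < φ → φ ≤ p → ∀ v ∈ C,
    F φ v = φ ∨ (base < F φ v ∧ F φ v ≤ base + 2 * i)
  out : ∀ φ, base + 2 * i < φ → φ ≤ p → G φ t + i = φ

/-- existence of the family -/
def AbsChain : Prop :=
  ∀ {V : Type} [Fintype V] [DecidableEq V] (T : SimpleGraph V) (c : V) (par : V → V)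
    (dep : V → ℕ), Rooted T c par dep → ∀ (p : ℕ) (P : Finset V) (e0 : V → ℕ) (z : V),
    z ≠ c → z ∉ leaves c par → z ∉ P → (∀ u ∈ ch c par z, u ∈ leaves c par ∨ u ∈ P) →
    S c par e0 z = p → ∀ (i base : ℕ) (t : V), Up c par P z (2 * i) t →
    ∃ (C : Finset V) (G F : ℕ → V → ℕ), Abs c par p P e0 base i z t C G F

end Pool.Agent.W104.Irr
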