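import Pool.Agent.W104.Irr.L2all

/-!
The case distinction.
-/

namespace Pool.Agent.W104.Irr

open Finset Pool.Agent.Helper999.Irr

variable {V : Type} [Fintype V] [DecidableEq V] {T : SimpleGraph V} {c : V} {par : V → V}
  {dep : V → ℕ}

/-- `z` is a star end, its only inner neighbour is `b` -/
def SE {V : Type} (T : SimpleGraph V) (z b : V) : Prop :=
  T.Adj z b ∧ 3 ≤ dg T z ∧ ∀ u, T.Adj z u → u ≠ b → dg T u = 1

/-- case B1 -/
def B1T {V : Type} (T : SimpleGraph V) : Prop := ∃ z b, SE T z b ∧ dg T b = 2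

/-- case S3 -/
def S3T {V : Type} (T : SimpleGraph V) : Prop :=
  ∃ z x, SE T z x ∧ 4 ≤ dg T z ∧ 3 ≤ dg T x ∧ (∃ u, T.Adj x u ∧ u ≠ z ∧ dg T u ≠ 1) ∧
    ((∃ u, T.Adj x u ∧ dg T u = 1) ∨ ∃ z2, z2 ≠ z ∧ SE T z2 x ∧ 4 ≤ dg T z2)

/-- degree at least three and at least two inner neighbours -/
def Bs {V : Type} (T : SimpleGraph V) (x : V) : Prop :=
  3 ≤ dg T x ∧ ∃ a b, a ≠ b ∧ T.Adj x a ∧ T.Adj x b ∧ dg T a ≠ 1 ∧ dg T b ≠ 1

lemma notMem_leaves_of_ch {u v : V} (hu : u ∈ ch c par v) : v ∉ leaves c par := by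
  intro hcon
  rw [(mem_leaves.1 hcon).2] at hu
  exact notMem_empty _ hu

lemma par_ne_self (h : Rooted T c par dep) {v : V} (hv : v ≠ c) : par v ≠ v := by
  intro hcon
  have := (h.h1 v hv).2
  rw [hcon] at this
  omega

lemma inner_ind (h : Rooted T c par dep) {Q : V → Prop} (hc : Q c)
    (hQ : ∀ v, Q v → ∀ u ∈ ch c par v, u ∉ leaves c par → Q u) :
    ∀ v, v ∉ leaves c par → Q v := by
  have key : ∀ n v, dep v = n → v ∉ leaves c par → Q v := by
    intro n
    induction n using Nat.strong_induction_on with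
    | _ n ih =>
      intro v hvn hvl
      by_cases hvc : v = c
      · rw [hvc]; exact hc
      · have h1 := (h.h1 v hvc).2
        have h2 : v ∈ ch c par (par v) := mem_ch.2 ⟨hvc, rfl⟩
        exact hQ (par v) (ih (dep (par v)) (by omega) (par v) rfl (notMem_leaves_of_ch h2)) v h2 hvl
  exact fun v hv => key _ v rfl hv

lemma adj_cases (h : Rooted T c par dep) {u v : V} (_ : v ≠ c) (ha : T.Adj v u) :
    u = par v ∨ u ∈ ch c par v := by
  rcases h.h2 v u ha with h1 | h1
  · exact Or.inl h1.2.symm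
  · exact Or.inr (mem_ch.2 h1)

lemma dg_pos_of_adj {u v : V} (ha : T.Adj u v) : 1 ≤ dg T u := by
  unfold dg
  rw [Nat.one_le_iff_ne_zero, Ne, Set.ncard_eq_zero (Set.toFinite _)]
  intro hcon
  have : v ∈ T.neighborSet u := ha
  rw [hcon] at this
  exact this

/-- case L2 in a tree -/
theorem l2tree (hfin : L2fin) (hAbs : AbsChain) (hLab : Labels) {p : ℕ} (hp : 3 ≤ p)
    (h : Rooted T c par dep) (hc : (leaves c par).card = p)
    (hm : (univ \ leaves c par).card ≤ p + 1) {x r : V} (hadj : T.Adj x c) (hci : dg T c ≠ 1)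
    (hBx : Bs T x) (hwc : (∃ u, T.Adj c u ∧ u ≠ x ∧ dg T u ≠ 1) ∨ 3 ≤ dg T c)
    (hnB : ∀ v, Desc c par x v → v ≠ x → ¬ Bs T v) (hB1 : ¬ B1T T) (hS3 : ¬ S3T T)
    (hr : r ≠ x) (hr3 : 3 ≤ dg T r) (hrd : ¬ Desc c par x r) : Lab c par p := by
  classical
  have hx : x ∈ ch c par c := mem_ch_of_adj h hadj
  have hxc : x ≠ c := (mem_ch.1 hx).1
  have hxpar : par x = c := (mem_ch.1 hx).2
  have hleaf := mem_leaves_iff h hci
  obtain ⟨hx3, a, b, hab, hxa, hxb, ha1, hb1⟩ := hBx
  have hdx := dg_ne h hxc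
  have hc1 : 1 ≤ dg T c := dg_pos_of_adj hadj.symm
  have hdc := dg_root h
  have hxl : x ∉ leaves c par := by rw [hleaf]; omega
  have hcardx : 0 < (ch c par c).card := card_pos.2 ⟨x, hx⟩
  -- an inner child of x
  obtain ⟨u0, hu0, hu0l⟩ : ∃ u ∈ ch c par x, u ∉ leaves c par := by
    rcases adj_cases h hxc hxa with h1 | h1
    · rcases adj_cases h hxc hxb with h2 | h2
      · exact absurd (h1.trans h2.symm) hab
      · exact ⟨b, h2, by rw [hleaf]; exact hb1⟩
    · exact ⟨a, h1, by rw [hleaf]; exact ha1⟩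
  have hw : (∃ u ∈ ch c par c, u ≠ x ∧ u ∉ leaves c par) ∨ 2 ≤ (lch c par c).card := by
    by_cases h1 : ∃ u ∈ ch c par c, u ≠ x ∧ u ∉ leaves c par
    · exact Or.inl h1
    · right
      push Not at h1
      have h2 : (ch c par c).erase x ⊆ lch c par c := by
        intro u hu
        rw [mem_erase] at hu
        exact mem_lch.2 ⟨hu.2, h1 u hu.2 hu.1⟩
      have h3 := card_le_card h2
      rw [card_erase_of_mem hx] at h3
      rcases hwc with ⟨u, hu1, hu2, hu3⟩ | h4
      · exfalso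
        have h5 := h1 u (mem_ch_of_adj h hu1.symm) hu2
        rw [hleaf] at h5
        exact hu3 h5
      · omega
  have cx : Cx T c par dep p x := ⟨hfin, hAbs, h, hp, hm, hx, hxl, hw⟩
  have hc2 : 2 ≤ (ch c par c).card := by clear hwc hw; omega
  have hx2 : 2 ≤ (ch c par x).card := by clear hwc hw; omega
  apply l2all hLab cx hc hc2 _ _ hx2 _ hr hr3 hrd
  · intro v hv hvx hvl
    have hvc : v ≠ c := hv.ne_root hxc
    have hdv := dg_ne h hvc
    by_cases h1 : ∀ u ∈ ch c par v, u ∈ leaves c par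
    · exact Or.inr h1
    · left
      push Not at h1
      obtain ⟨u, hu, hul⟩ := h1
      rw [← card_eq_one]
      have h2 : 0 < (ch c par v).card := card_pos.2 ⟨u, hu⟩
      by_contra hcon
      apply hnB v hv hvx
      have hpu : par v ≠ u := by
        intro h3
        have h4 := dep_ch h hu
        have h5 := (h.h1 v hvc).2
        rw [h3] at h5
        omega
      refine ⟨by omega, par v, u, hpu, (h.h1 v hvc).1, adj_of_mem_ch h hu, ?_, ?_⟩
      · exact par_inner h hci hvc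
      · exact fun hcon2 => hul ((hleaf u).2 hcon2)
  · intro v u hvc hvu hul hall
    have hu : u ∈ ch c par v := by rw [hvu]; exact mem_singleton_self _
    have huc : u ≠ c := (mem_ch.1 hu).1
    rw [← card_eq_one]
    by_contra hcon
    apply hB1
    have h2 : ch c par u ≠ ∅ := fun hcon => hul (mem_leaves.2 ⟨huc, hcon⟩)
    have h3 := card_pos.2 (nonempty_iff_ne_empty.2 h2)
    have hdu := dg_ne h huc
    refine ⟨u, v, ⟨(adj_of_mem_ch h hu).symm, by omega, ?_⟩, ?_⟩
    · intro w hw hwv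
      rcases adj_cases h huc hw with h4 | h4
      · exact absurd (h4.trans (mem_ch.1 hu).2) hwv
      · rw [← hleaf w]; exact hall w h4
    · rw [dg_ne h hvc, hvu, card_singleton]
  · by_contra hcon
    push Not at hcon
    apply hS3
    have hse : ∀ u ∈ ch c par x, u ∉ leaves c par → SE T u x ∧ 4 ≤ dg T u := by
      intro u hu hul
      have huc : u ≠ c := (mem_ch.1 hu).1
      obtain ⟨h1, h2⟩ := hcon u hu hul
      have hdu := dg_ne h huc
      refine ⟨⟨(adj_of_mem_ch h hu).symm, by omega, ?_⟩, by omega⟩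
      intro w hw hwx
      rcases adj_cases h huc hw with h4 | h4
      · exact absurd (h4.trans (mem_ch.1 hu).2) hwx
      · rw [← hleaf w]; exact h2 w h4
    obtain ⟨h1, h2⟩ := hse u0 hu0 hu0l
    refine ⟨u0, x, h1, h2, hx3, ⟨c, hadj, ?_, hci⟩, ?_⟩
    · exact Ne.symm (mem_ch.1 hu0).1
    · obtain ⟨k, hk⟩ : ((ch c par x).erase u0).Nonempty := by
        rw [← card_pos, card_erase_of_mem hu0]
        omega
      rw [mem_erase] at hk
      by_cases hkl : k ∈ leaves c par
      · left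
        exact ⟨k, adj_of_mem_ch h hk.2, by rw [← hleaf k]; exact hkl⟩
      · right
        obtain ⟨h3, h4⟩ := hse k hk.2 hkl
        exact ⟨k, hk.1, h3, h4⟩

end Pool.Agent.W104.Irr
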