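import Pool.Agent.W104.Irr.Kinds

/-!
Case L2: all combinations.
-/

namespace Pool.Agent.W104.Irr

open Finset Pool.Agent.Helper999.Irr

variable {V : Type} [Fintype V] [DecidableEq V] {T : SimpleGraph V} {c : V} {par : V → V}
  {dep : V → ℕ}

/-- vertices of degree two with a leaf -/
noncomputable def AA (c : V) (par : V → V) : Finset V :=
  open Classical in univ.filter (fun v => v ≠ c ∧ ∃ l ∈ leaves c par, ch c par v = {l})

lemma mem_AA {v : V} : v ∈ AA c par ↔ v ≠ c ∧ ∃ l ∈ leaves c par, ch c par v = {l} := by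
  unfold AA
  rw [mem_filter]
  simp

lemma exists_lf (c : V) (par : V → V) : ∃ l : V → V, ∀ v ∈ AA c par, v ≠ c ∧ v ∉ leaves c par ∧
    ch c par v = {l v} ∧ l v ∈ leaves c par := by
  have h : ∀ v, ∃ l, v ∈ AA c par → l ∈ leaves c par ∧ ch c par v = {l} := by
    intro v
    by_cases hv : v ∈ AA c par
    · obtain ⟨h1, l, h2, h3⟩ := mem_AA.1 hv
      exact ⟨l, fun _ => ⟨h2, h3⟩⟩
    · exact ⟨v, fun h => absurd h hv⟩
  choose l hl using h
  refine ⟨l, fun v hv => ⟨(mem_AA.1 hv).1, ?_, (hl v hv).2, (hl v hv).1⟩⟩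
  intro hcon
  have h1 := (mem_leaves.1 hcon).2
  rw [(hl v hv).2] at h1
  exact singleton_ne_empty _ h1

lemma notMem_AA_of_ne {x u v : V} (hu : u ∈ ch c par x) (hv : v ∈ ch c par x) (huv : u ≠ v) :
    x ∉ AA c par := by
  intro hcon
  obtain ⟨-, l, -, h⟩ := mem_AA.1 hcon
  rw [h, mem_singleton] at hu hv
  exact huv (hu.trans hv.symm)

lemma ne_of_ch {u v a b : V} (hu : u ∈ ch c par a) (hv : v ∈ ch c par b) (hab : a ≠ b) : u ≠ v := by
  rintro rfl
  exact hab ((mem_ch.1 hu).2.symm.trans (mem_ch.1 hv).2)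

lemma two_le_sum {s : Finset V} {f : V → ℕ} {a b : V} (ha : a ∈ s) (hb : b ∈ s) (hab : a ≠ b) :
    f a + f b ≤ ∑ u ∈ s, f u := by
  rw [← sum_pair hab]
  apply sum_le_sum_of_subset
  intro w hw
  rw [mem_insert, mem_singleton] at hw
  rcases hw with rfl | rfl
  · exact ha
  · exact hb

/-- open `A`, leaf -/
theorem tZA_leaf (hLab : Labels) {p : ℕ} {x : V} (cx : Cx T c par dep p x)
    (hc : (leaves c par).card = p) {z t : V} {i : ℕ} (hz : z ∈ AA c par)
    (hup : Up c par ∅ z (2 * i) t) (ht : t ∈ ch c par x) {k : V} (hk : k ∈ ch c par x)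
    (hkt : k ≠ t) (hkl : k ∈ leaves c par) : Lab c par p := by
  classical
  obtain ⟨l, hl⟩ := exists_lf c par
  obtain ⟨hzc, hzl, hz1, hz2⟩ := hl z hz
  have hxA := notMem_AA_of_ne hk ht hkt
  have hdesc := hup.desc.dep_le cx.h
  have hdt := dep_ch cx.h ht
  have hzx : z ≠ x := by rintro rfl; omega
  have hlz : l z ∈ ch c par z := by rw [hz1]; exact mem_singleton_self _
  have hA : ∀ v ∈ (AA c par).erase z, v ≠ c ∧ v ∉ leaves c par ∧ ch c par v = {l v} ∧
      l v ∈ leaves c par := fun v hv => hl v (mem_erase.1 hv).2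
  have hne : l z ≠ k := ne_of_ch hlz hk hzx
  obtain ⟨lam, h1, h2, -, -, h5, h6⟩ := labs hLab hc hA [] [] [l z, k] (by simp [hne])
    (by
      intro y hy
      simp only [List.nil_append, List.mem_cons, List.not_mem_nil, or_false] at hy
      rcases hy with rfl | rfl
      · rw [(mem_ch.1 hlz).2]
        exact ⟨hz2, notMem_erase _ _⟩
      · rw [(mem_ch.1 hk).2]
        exact ⟨hkl, fun hcon => hxA (mem_erase.1 hcon).2⟩)
  have h51 := h5 0 (by simp)
  have h52 := h5 1 (by simp)
  simp only [List.getElem_cons_zero, List.getElem_cons_succ] at h51 h52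
  have hSz : S c par (fun v => if v ∈ (AA c par).erase z then p - 0 else lam v) z = p := by
    unfold S
    rw [hz1, sum_singleton, if_neg]
    · omega
    · intro hcon
      exact (hA _ hcon).2.1 hz2
  have zd : Zd c par p x ((AA c par).erase z) l lam 0 i z t :=
    ⟨hA, h2, h1, by omega, hup, ht, hzl, notMem_erase _ _, fun u hu => by
      rw [hz1, mem_singleton] at hu
      subst hu
      exact Or.inl hz2, hSz, fun v hv l' hl' hch => by
      by_cases hvz : v = z
      · exact Or.inr hvz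
      · exact Or.inl (mem_erase.2 ⟨hvz, mem_AA.2 ⟨hv, l', hl', hch⟩⟩)⟩
  apply kleaf cx zd hk hkt (Or.inl hkl) _ (δ := 1) (Or.inl ⟨hkl, by omega⟩)
  · by_cases hd : i = 0 ∧ ((AA c par).erase z).card = 0
    · right
      exact ⟨hd.1, hd.2, rfl, l z, hz1, hz2, by omega, hkl, by omega⟩
    · left
      omega
  · intro v hvx hvz hv2
    have := h6 v hv2 (by
      intro y hy
      simp only [List.nil_append, List.mem_cons, List.not_mem_nil, or_false] at hy
      rcases hy with rfl | rfl
      · rw [(mem_ch.1 hlz).2]; exact Ne.symm hvz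
      · rw [(mem_ch.1 hk).2]; exact Ne.symm hvx)
    simp only [List.length_nil, List.length_cons] at this
    omega

lemma zaZd {p : ℕ} {x : V} {l : V → V} {lam : V → ℕ} {z t : V} {i : ℕ}
    (hl : ∀ v ∈ AA c par, v ≠ c ∧ v ∉ leaves c par ∧ ch c par v = {l v} ∧ l v ∈ leaves c par)
    (hz : z ∈ AA c par) (hup : Up c par ∅ z (2 * i) t) (ht : t ∈ ch c par x)
    (h1 : LL c par p lam)
    (h2 : ∀ v ∈ (AA c par).erase z, 0 < lam (l v) ∧ lam (l v) ≤ ((AA c par).erase z).card + 0)
    (hp : lam (l z) = p) : Zd c par p x ((AA c par).erase z) l lam 0 i z t := by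
  obtain ⟨hzc, hzl, hz1, hz2⟩ := hl z hz
  have hA : ∀ v ∈ (AA c par).erase z, v ≠ c ∧ v ∉ leaves c par ∧ ch c par v = {l v} ∧
      l v ∈ leaves c par := fun v hv => hl v (mem_erase.1 hv).2
  refine ⟨hA, h2, h1, by omega, hup, ht, hzl, notMem_erase _ _, ?_, ?_, ?_⟩
  · intro u hu
    rw [hz1, mem_singleton] at hu
    subst hu
    exact Or.inl hz2
  · unfold S
    rw [hz1, sum_singleton, if_neg]
    · exact hp
    · intro hcon
      exact (hA _ hcon).2.1 hz2
  · intro v hv l' hl' hch
    by_cases hvz : v = z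
    · exact Or.inr hvz
    · exact Or.inl (mem_erase.2 ⟨hvz, mem_AA.2 ⟨hv, l', hl', hch⟩⟩)

lemma zbZd {p : ℕ} {x : V} {l : V → V} {lam : V → ℕ} {z z1 t : V} {i : ℕ}
    (hl : ∀ v ∈ AA c par, v ≠ c ∧ v ∉ leaves c par ∧ ch c par v = {l v} ∧ l v ∈ leaves c par)
    (hzl : z ∉ leaves c par) (hz : ch c par z = {z1}) (hz1 : z1 ∈ AA c par)
    (hup : Up c par ∅ z (2 * i) t) (ht : t ∈ ch c par x)
    (h1 : LL c par p lam)
    (h2 : ∀ v ∈ AA c par, 0 < lam (l v) ∧ lam (l v) ≤ (AA c par).card + 0) :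
    Zd c par p x (AA c par) l lam 0 i z t := by
  refine ⟨hl, h2, h1, by omega, hup, ht, hzl, ?_, ?_, ?_, ?_⟩
  · intro hcon
    have h3 := (hl z hcon).2.2
    rw [hz, singleton_inj] at h3
    rw [← h3.1] at h3
    exact (hl z1 hz1).2.1 h3.2
  · intro u hu
    rw [hz, mem_singleton] at hu
    subst hu
    exact Or.inr hz1
  · unfold S
    rw [hz, sum_singleton, if_pos hz1]
    rfl
  · intro v hv l' hl' hch
    exact Or.inl (mem_AA.2 ⟨hv, l', hl', hch⟩)

lemma zcZd {p : ℕ} {x : V} {l : V → V} {lam : V → ℕ} {z z1 z2 : V}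
    (hl : ∀ v ∈ AA c par, v ≠ c ∧ v ∉ leaves c par ∧ ch c par v = {l v} ∧ l v ∈ leaves c par)
    (hzl : z ∉ leaves c par) (hz : ch c par z = {z1, z2}) (hz12 : z1 ≠ z2)
    (hz1 : z1 ∈ leaves c par) (hz2 : z2 ∈ leaves c par) (hzx : z ∈ ch c par x)
    (h1 : LL c par p lam)
    (h2 : ∀ v ∈ AA c par, 1 < lam (l v) ∧ lam (l v) ≤ (AA c par).card + 1)
    (hS : lam z1 + lam z2 = p) :
    Zd c par p x (AA c par) l lam 1 0 z z := by
  have m1 : z1 ∈ ch c par z := by rw [hz]; simp
  have m2 : z2 ∈ ch c par z := by rw [hz]; simp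
  refine ⟨hl, h2, h1, le_refl _, Up.zero, hzx, hzl, notMem_AA_of_ne m1 m2 hz12, ?_, ?_, ?_⟩
  · intro u hu
    rw [hz, mem_insert, mem_singleton] at hu
    rcases hu with rfl | rfl
    · exact Or.inl hz1
    · exact Or.inl hz2
  · unfold S
    rw [hz, sum_pair hz12, if_neg, if_neg]
    · exact hS
    · intro hcon
      exact (hl _ hcon).2.1 hz2
    · intro hcon
      exact (hl _ hcon).2.1 hz1
  · intro v hv l' hl' hch
    exact Or.inl (mem_AA.2 ⟨hv, l', hl', hch⟩)

/-- open `A`, chain -/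
theorem tZA_chain (hLab : Labels) {p : ℕ} {x : V} (cx : Cx T c par dep p x)
    (hc : (leaves c par).card = p) {z t : V} {i : ℕ} (hz : z ∈ AA c par)
    (hup : Up c par ∅ z (2 * i) t) (ht : t ∈ ch c par x) {k : V} (hk : k ∈ ch c par x)
    (hkt : k ≠ t) {z0 : V} {n : ℕ} (hz0 : z0 ∈ AA c par) (hup0 : Up c par ∅ z0 n k)
    (hn : n ≤ 2 * i) : Lab c par p := by
  classical
  obtain ⟨l, hl⟩ := exists_lf c par
  obtain ⟨hzc, hzl, hz1, hz2⟩ := hl z hz
  have hz0z : z0 ≠ z := by
    rintro rfl
    exact desc_sib cx.h ht hk (Ne.symm hkt) hup.desc hup0.desc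
  have hlz : l z ∈ ch c par z := by rw [hz1]; exact mem_singleton_self _
  have hA : ∀ v ∈ (AA c par).erase z, v ≠ c ∧ v ∉ leaves c par ∧ ch c par v = {l v} ∧
      l v ∈ leaves c par := fun v hv => hl v (mem_erase.1 hv).2
  obtain ⟨lam, h1, h2, -, -, h5, h6⟩ := labs hLab hc hA [] [] [l z] (by simp)
    (by
      intro y hy
      simp only [List.nil_append, List.mem_cons, List.not_mem_nil, or_false] at hy
      rw [hy, (mem_ch.1 hlz).2]
      exact ⟨hz2, notMem_erase _ _⟩)
  have h51 := h5 0 (by simp)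
  simp only [List.getElem_cons_zero] at h51
  have zd := zaZd hl hz hup ht h1 h2 h51
  apply kchain cx zd hk hkt hup0 (mem_erase.2 ⟨hz0z, hz0⟩)
  · intro v hvx hvz hv2
    have := h6 v hv2 (by
      intro y hy
      simp only [List.nil_append, List.mem_cons, List.not_mem_nil, or_false] at hy
      rw [hy, (mem_ch.1 hlz).2]; exact Ne.symm hvz)
    simp only [List.length_nil, List.length_cons] at this
    omega
  · have : 0 < ((AA c par).erase z).card := card_pos.2 ⟨z0, mem_erase.2 ⟨hz0z, hz0⟩⟩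
    omega

/-- open `A`, star end -/
theorem tZA_star (hLab : Labels) {p : ℕ} {x : V} (cx : Cx T c par dep p x)
    (hc : (leaves c par).card = p) {z t : V} {i : ℕ} (hz : z ∈ AA c par)
    (hup : Up c par ∅ z (2 * i) t) (ht : t ∈ ch c par x) {k : V} (hk : k ∈ ch c par x)
    (hkt : k ≠ t) (hkl : k ∉ leaves c par) (hkc : ∀ u ∈ ch c par k, u ∈ leaves c par)
    (hk2 : 2 ≤ (ch c par k).card)
    (hcond : 3 ≤ (ch c par k).card ∨ 1 ≤ i ∨ 2 ≤ ((AA c par).erase z).card) : Lab c par p := by
  classical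
  have hp := cx.hp
  obtain ⟨l, hl⟩ := exists_lf c par
  obtain ⟨hzc, hzl, hz1, hz2⟩ := hl z hz
  have hlz : l z ∈ ch c par z := by rw [hz1]; exact mem_singleton_self _
  have hA : ∀ v ∈ (AA c par).erase z, v ≠ c ∧ v ∉ leaves c par ∧ ch c par v = {l v} ∧
      l v ∈ leaves c par := fun v hv => hl v (mem_erase.1 hv).2
  obtain ⟨k1, hk1, k2, hk2', hk12⟩ := one_lt_card.1 (show 1 < (ch c par k).card by omega)
  have hkA : k ∉ AA c par := notMem_AA_of_ne hk1 hk2' hk12
  have hzk : z ≠ k := by rintro rfl; exact hkA hz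
  have hzk1 : l z ≠ k1 := ne_of_ch hlz hk1 hzk
  have hzk2 : l z ≠ k2 := ne_of_ch hlz hk2' hzk
  by_cases h3 : 3 ≤ (ch c par k).card
  · obtain ⟨k3, hk3⟩ : (((ch c par k).erase k1).erase k2).Nonempty := by
      rw [← card_pos, card_erase_of_mem (mem_erase.2 ⟨Ne.symm hk12, hk2'⟩),
        card_erase_of_mem hk1]
      omega
    have hk32 : k3 ≠ k2 := (mem_erase.1 hk3).1
    have hk31 : k3 ≠ k1 := (mem_erase.1 (mem_erase.1 hk3).2).1
    have hk3' : k3 ∈ ch c par k := (mem_erase.1 (mem_erase.1 hk3).2).2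
    have hzk3 : l z ≠ k3 := ne_of_ch hlz hk3' hzk
    obtain ⟨lam, h1, h2, -, h4, h5, h6⟩ := labs hLab hc hA [] [k1, k3] [l z, k2]
      (by simp [hk12, hk31, hk32, Ne.symm hk31, Ne.symm hzk1, Ne.symm hzk3, hzk2])
      (by
        intro y hy
        simp only [List.nil_append, List.cons_append, List.mem_cons, List.not_mem_nil,
          or_false] at hy
        rcases hy with rfl | rfl | rfl | rfl
        · rw [(mem_ch.1 hk1).2]
          exact ⟨hkc _ hk1, fun hcon => hkA (mem_erase.1 hcon).2⟩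
        · rw [(mem_ch.1 hk3').2]
          exact ⟨hkc _ hk3', fun hcon => hkA (mem_erase.1 hcon).2⟩
        · rw [(mem_ch.1 hlz).2]
          exact ⟨hz2, notMem_erase _ _⟩
        · rw [(mem_ch.1 hk2').2]
          exact ⟨hkc _ hk2', fun hcon => hkA (mem_erase.1 hcon).2⟩)
    have h41 := h4 0 (by simp)
    have h42 := h4 1 (by simp)
    have h51 := h5 0 (by simp)
    have h52 := h5 1 (by simp)
    simp only [List.getElem_cons_zero, List.getElem_cons_succ, List.length_nil] at h41 h42 h51 h52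
    have zd := zaZd hl hz hup ht h1 h2 h51
    have hS : lam k1 + lam k2 + lam k3 ≤ S c par lam k := by
      unfold S
      rw [← add_sum_erase _ _ hk1, ← add_sum_erase _ _ (mem_erase.2 ⟨Ne.symm hk12, hk2'⟩)]
      have : lam k3 ≤ ∑ u ∈ ((ch c par k).erase k1).erase k2, lam u :=
        single_le_sum (f := lam) (fun _ _ => Nat.zero_le _) hk3
      omega
    apply kstar cx zd hk hkt hkl (fun hcon => hkA (mem_erase.1 hcon).2) hkc (δ := 0) (y := p)
      (s := S c par lam k) _ (by omega) (by omega) (le_refl _) (by omega) (by omega) (by omega)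
    intro v hvx hvz hvk hv2
    have := h6 v hv2 (by
      intro y hy
      simp only [List.nil_append, List.cons_append, List.mem_cons, List.not_mem_nil,
          or_false] at hy
      rcases hy with rfl | rfl | rfl | rfl
      · rw [(mem_ch.1 hk1).2]; exact Ne.symm hvk
      · rw [(mem_ch.1 hk3').2]; exact Ne.symm hvk
      · rw [(mem_ch.1 hlz).2]; exact Ne.symm hvz
      · rw [(mem_ch.1 hk2').2]; exact Ne.symm hvk)
    simp only [List.length_nil, List.length_cons] at this
    omega
  · have hk2c : (ch c par k).card = 2 := by omega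
    obtain ⟨lam, h1, h2, -, h4, h5, h6⟩ := labs hLab hc hA [] [k1] [l z, k2]
      (by simp [hk12, Ne.symm hzk1, hzk2])
      (by
        intro y hy
        simp only [List.nil_append, List.cons_append, List.mem_cons, List.not_mem_nil,
          or_false] at hy
        rcases hy with rfl | rfl | rfl
        · rw [(mem_ch.1 hk1).2]
          exact ⟨hkc _ hk1, fun hcon => hkA (mem_erase.1 hcon).2⟩
        · rw [(mem_ch.1 hlz).2]
          exact ⟨hz2, notMem_erase _ _⟩
        · rw [(mem_ch.1 hk2').2]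
          exact ⟨hkc _ hk2', fun hcon => hkA (mem_erase.1 hcon).2⟩)
    have h41 := h4 0 (by simp)
    have h51 := h5 0 (by simp)
    have h52 := h5 1 (by simp)
    simp only [List.getElem_cons_zero, List.getElem_cons_succ, List.length_nil] at h41 h51 h52
    have zd := zaZd hl hz hup ht h1 h2 h51
    have hS : S c par lam k = lam k1 + lam k2 := by
      have h7 : ch c par k = {k1, k2} := by
        symm
        apply eq_of_subset_of_card_le
        · intro w hw
          rw [mem_insert, mem_singleton] at hw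
          rcases hw with rfl | rfl
          · exact hk1
          · exact hk2'
        · rw [hk2c, card_pair hk12]
      unfold S
      rw [h7, sum_pair hk12]
    have hpair : ∀ v, v ≠ x → v ≠ z → v ≠ k → 2 ≤ (lch c par v).card →
        p ≤ ∑ u ∈ lch c par v, lam u + 1 := by
      intro v hvx hvz hvk hv2
      have := h6 v hv2 (by
        intro y hy
        simp only [List.nil_append, List.cons_append, List.mem_cons, List.not_mem_nil,
            or_false] at hy
        rcases hy with rfl | rfl | rfl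
        · rw [(mem_ch.1 hk1).2]; exact Ne.symm hvk
        · rw [(mem_ch.1 hlz).2]; exact Ne.symm hvz
        · rw [(mem_ch.1 hk2').2]; exact Ne.symm hvk)
      simp only [List.length_nil, List.length_cons] at this
      omega
    have hkA' : k ∉ (AA c par).erase z := fun hcon => hkA (mem_erase.1 hcon).2
    rcases Nat.lt_or_ge 1 ((AA c par).erase z).card with ha | ha
    · apply kstar cx zd hk hkt hkl hkA' hkc hpair (δ := 0) (y := p)
        (s := S c par lam k) (by omega) (by omega) (le_refl _) (by omega) (by omega) (by omega)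
    · rcases Nat.lt_or_ge 0 ((AA c par).erase z).card with ha' | ha'
      · apply kstar cx zd hk hkt hkl hkA' hkc hpair (δ := 2) (y := p - 2)
          (s := p - 1) (by omega) (by omega) (by omega) (by omega) (by omega) (by omega)
      · apply kstar cx zd hk hkt hkl hkA' hkc hpair (δ := 1) (y := p - 1)
          (s := p - 1) (by omega) (by omega) (by omega) (by omega) (by omega) (by omega)

end Pool.Agent.W104.Irr
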