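import Pool.Agent.W104.Irr.Tags

/-!
Case L2: the remaining combinations.
-/

namespace Pool.Agent.W104.Irr

open Finset Pool.Agent.Helper999.Irr

variable {V : Type} [Fintype V] [DecidableEq V] {T : SimpleGraph V} {c : V} {par : V → V}
  {dep : V → ℕ}

/-- `B`, leaf -/
theorem tZB_leaf (hLab : Labels) {p : ℕ} {x : V} (cx : Cx T c par dep p x)
    (hc : (leaves c par).card = p) {z z1 t : V} {i : ℕ} (hzl : z ∉ leaves c par)
    (hz : ch c par z = {z1}) (hz1 : z1 ∈ AA c par)
    (hup : Up c par ∅ z (2 * i) t) (ht : t ∈ ch c par x) {k : V} (hk : k ∈ ch c par x)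
    (hkt : k ≠ t) (hkl : k ∈ leaves c par) : Lab c par p := by
  classical
  obtain ⟨l, hl⟩ := exists_lf c par
  have hxA := notMem_AA_of_ne hk ht hkt
  obtain ⟨lam, h1, h2, -, -, h5, h6⟩ := labs hLab hc hl [] [] [k] (by simp)
    (by
      intro y hy
      simp only [List.nil_append, List.mem_cons, List.not_mem_nil, or_false] at hy
      rw [hy, (mem_ch.1 hk).2]
      exact ⟨hkl, hxA⟩)
  have h51 := h5 0 (by simp)
  simp only [List.getElem_cons_zero] at h51
  have zd := zbZd hl hzl hz hz1 hup ht h1 h2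
  apply kleaf cx zd hk hkt (Or.inl hkl) _ (δ := 0) (Or.inl ⟨hkl, by omega⟩)
  · left
    omega
  · intro v hvx hvz hv2
    have := h6 v hv2 (by
      intro y hy
      simp only [List.nil_append, List.mem_cons, List.not_mem_nil, or_false] at hy
      rw [hy, (mem_ch.1 hk).2]; exact Ne.symm hvx)
    simp only [List.length_nil, List.length_cons] at this
    omega

/-- `B`, star end -/
theorem tZB_star (hLab : Labels) {p : ℕ} {x : V} (cx : Cx T c par dep p x)
    (hc : (leaves c par).card = p) {z z1 t : V} {i : ℕ} (hzl : z ∉ leaves c par)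
    (hz : ch c par z = {z1}) (hz1 : z1 ∈ AA c par)
    (hup : Up c par ∅ z (2 * i) t) (ht : t ∈ ch c par x) {k : V} (hk : k ∈ ch c par x)
    (hkt : k ≠ t) (hkl : k ∉ leaves c par) (hkc : ∀ u ∈ ch c par k, u ∈ leaves c par)
    (hk2 : 2 ≤ (ch c par k).card) : Lab c par p := by
  classical
  have hp := cx.hp
  obtain ⟨l, hl⟩ := exists_lf c par
  obtain ⟨k1, hk1, k2, hk2', hk12⟩ := one_lt_card.1 (show 1 < (ch c par k).card by omega)
  have hkA : k ∉ AA c par := notMem_AA_of_ne hk1 hk2' hk12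
  obtain ⟨lam, h1, h2, -, h4, h5, h6⟩ := labs hLab hc hl [] [k1] [k2]
    (by simp [hk12])
    (by
      intro y hy
      simp only [List.nil_append, List.cons_append, List.mem_cons, List.not_mem_nil,
        or_false] at hy
      rcases hy with rfl | rfl
      · rw [(mem_ch.1 hk1).2]
        exact ⟨hkc _ hk1, hkA⟩
      · rw [(mem_ch.1 hk2').2]
        exact ⟨hkc _ hk2', hkA⟩)
  have h41 := h4 0 (by simp)
  have h51 := h5 0 (by simp)
  simp only [List.getElem_cons_zero, List.length_nil] at h41 h51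
  have zd := zbZd hl hzl hz hz1 hup ht h1 h2
  have hS : lam k1 + lam k2 ≤ S c par lam k := two_le_sum hk1 hk2' hk12
  have ha : 0 < (AA c par).card := card_pos.2 ⟨z1, hz1⟩
  apply kstar cx zd hk hkt hkl hkA hkc (δ := 0) (y := p)
    (s := S c par lam k) _ (by omega) (by omega) (le_refl _) (by omega) (by omega) (by omega)
  intro v hvx hvz hvk hv2
  have := h6 v hv2 (by
    intro y hy
    simp only [List.nil_append, List.cons_append, List.mem_cons, List.not_mem_nil,
        or_false] at hy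
    rcases hy with rfl | rfl
    · rw [(mem_ch.1 hk1).2]; exact Ne.symm hvk
    · rw [(mem_ch.1 hk2').2]; exact Ne.symm hvk)
  simp only [List.length_nil, List.length_cons] at this
  omega

/-- `B`, chain -/
theorem tZB_chain (hLab : Labels) {p : ℕ} {x : V} (cx : Cx T c par dep p x)
    (hc : (leaves c par).card = p) {z z1 t : V} {i : ℕ} (hzl : z ∉ leaves c par)
    (hz : ch c par z = {z1}) (hz1 : z1 ∈ AA c par)
    (hup : Up c par ∅ z (2 * i) t) (ht : t ∈ ch c par x) {k : V} (hk : k ∈ ch c par x)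
    (hkt : k ≠ t) {z0 : V} {n : ℕ} (hz0 : z0 ∈ AA c par) (hup0 : Up c par ∅ z0 n k)
    (hn : n ≤ 2 * i + 1) : Lab c par p := by
  classical
  obtain ⟨l, hl⟩ := exists_lf c par
  obtain ⟨lam, h1, h2, -, -, h5, h6⟩ := labs hLab hc hl [] [] [] (by simp)
    (by
      intro y hy
      simp at hy)
  have zd := zbZd hl hzl hz hz1 hup ht h1 h2
  apply kchain cx zd hk hkt hup0 hz0
  · intro v hvx hvz hv2
    have := h6 v hv2 (by
      intro y hy
      simp at hy)
    simp only [List.length_nil] at this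
    omega
  · have : 0 < (AA c par).card := card_pos.2 ⟨z0, hz0⟩
    omega

/-- cherry, leaf -/
theorem tZC_leaf (hLab : Labels) {p : ℕ} {x : V} (cx : Cx T c par dep p x)
    (hc : (leaves c par).card = p) {z z1 z2 : V} (hzl : z ∉ leaves c par)
    (hz : ch c par z = {z1, z2}) (hz12 : z1 ≠ z2) (hz1 : z1 ∈ leaves c par)
    (hz2 : z2 ∈ leaves c par) (hzx : z ∈ ch c par x) {k : V} (hk : k ∈ ch c par x)
    (hkz : k ≠ z) (hkl : k ∈ leaves c par) : Lab c par p := by
  classical
  have hp := cx.hp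
  obtain ⟨l, hl⟩ := exists_lf c par
  have m1 : z1 ∈ ch c par z := by rw [hz]; simp
  have m2 : z2 ∈ ch c par z := by rw [hz]; simp
  have hzA := notMem_AA_of_ne m1 m2 hz12
  have hxA := notMem_AA_of_ne hk hzx hkz
  have hxz : x ≠ z := by
    rintro rfl
    exact notMem_ch_self cx.h _ hzx
  have hk1 : k ≠ z1 := ne_of_ch hk m1 hxz
  have hk2 : k ≠ z2 := ne_of_ch hk m2 hxz
  obtain ⟨lam, h1, h2, h3, -, h5, h6⟩ := labs hLab hc hl [z1] [] [k, z2]
    (by simp [hz12, Ne.symm hk1, hk2])
    (by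
      intro y hy
      simp only [List.cons_append, List.append_nil, List.nil_append, List.mem_cons,
        List.not_mem_nil, or_false] at hy
      rcases hy with rfl | rfl | rfl
      · rw [(mem_ch.1 m1).2]
        exact ⟨hz1, hzA⟩
      · rw [(mem_ch.1 hk).2]
        exact ⟨hkl, hxA⟩
      · rw [(mem_ch.1 m2).2]
        exact ⟨hz2, hzA⟩)
  have h31 := h3 0 (by simp)
  have h51 := h5 0 (by simp)
  have h52 := h5 1 (by simp)
  simp only [List.getElem_cons_zero, List.getElem_cons_succ] at h31 h51 h52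
  have zd := zcZd hl hzl hz hz12 hz1 hz2 hzx h1 h2 (by omega)
  apply kleaf cx zd hk hkz (Or.inl hkl) _ (δ := 0) (Or.inl ⟨hkl, by omega⟩)
  · left
    omega
  · intro v hvx hvz hv2
    have := h6 v hv2 (by
      intro y hy
      simp only [List.cons_append, List.append_nil, List.nil_append, List.mem_cons,
        List.not_mem_nil, or_false] at hy
      rcases hy with rfl | rfl | rfl
      · rw [(mem_ch.1 m1).2]; exact Ne.symm hvz
      · rw [(mem_ch.1 hk).2]; exact Ne.symm hvx
      · rw [(mem_ch.1 m2).2]; exact Ne.symm hvz)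
    simp only [List.length_nil, List.length_cons] at this
    omega

/-- cherry, star end -/
theorem tZC_star (hLab : Labels) {p : ℕ} {x : V} (cx : Cx T c par dep p x)
    (hc : (leaves c par).card = p) {z z1 z2 : V} (hzl : z ∉ leaves c par)
    (hz : ch c par z = {z1, z2}) (hz12 : z1 ≠ z2) (hz1 : z1 ∈ leaves c par)
    (hz2 : z2 ∈ leaves c par) (hzx : z ∈ ch c par x) {k : V} (hk : k ∈ ch c par x)
    (hkz : k ≠ z) (hkl : k ∉ leaves c par) (hkc : ∀ u ∈ ch c par k, u ∈ leaves c par)
    (hk2 : 2 ≤ (ch c par k).card) : Lab c par p := by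
  classical
  have hp := cx.hp
  obtain ⟨l, hl⟩ := exists_lf c par
  have m1 : z1 ∈ ch c par z := by rw [hz]; simp
  have m2 : z2 ∈ ch c par z := by rw [hz]; simp
  have hzA := notMem_AA_of_ne m1 m2 hz12
  obtain ⟨k1, hk1, k2, hk2', hk12⟩ := one_lt_card.1 (show 1 < (ch c par k).card by omega)
  have hkA : k ∉ AA c par := notMem_AA_of_ne hk1 hk2' hk12
  have a11 : k1 ≠ z1 := ne_of_ch hk1 m1 hkz
  have a12 : k1 ≠ z2 := ne_of_ch hk1 m2 hkz
  have a21 : k2 ≠ z1 := ne_of_ch hk2' m1 hkz
  have a22 : k2 ≠ z2 := ne_of_ch hk2' m2 hkz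
  obtain ⟨lam, h1, h2, h3, h4, h5, h6⟩ := labs hLab hc hl [z1] [k1] [k2, z2]
    (by simp [hz12, Ne.symm a11, a12, Ne.symm a21, a22, hk12])
    (by
      intro y hy
      simp only [List.cons_append, List.nil_append, List.mem_cons,
        List.not_mem_nil, or_false] at hy
      rcases hy with rfl | rfl | rfl | rfl
      · rw [(mem_ch.1 m1).2]
        exact ⟨hz1, hzA⟩
      · rw [(mem_ch.1 hk1).2]
        exact ⟨hkc _ hk1, hkA⟩
      · rw [(mem_ch.1 hk2').2]
        exact ⟨hkc _ hk2', hkA⟩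
      · rw [(mem_ch.1 m2).2]
        exact ⟨hz2, hzA⟩)
  have h31 := h3 0 (by simp)
  have h41 := h4 0 (by simp)
  have h51 := h5 0 (by simp)
  have h52 := h5 1 (by simp)
  simp only [List.getElem_cons_zero, List.getElem_cons_succ, List.length_cons,
    List.length_nil] at h31 h41 h51 h52
  have zd := zcZd hl hzl hz hz12 hz1 hz2 hzx h1 h2 (by omega)
  have hS : lam k1 + lam k2 ≤ S c par lam k := two_le_sum hk1 hk2' hk12
  apply kstar cx zd hk hkz hkl hkA hkc (δ := 0) (y := p)
    (s := S c par lam k) _ (by omega) (by omega) (le_refl _) (by omega) (by omega) (by omega)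
  intro v hvx hvz hvk hv2
  have := h6 v hv2 (by
    intro y hy
    simp only [List.cons_append, List.nil_append, List.mem_cons,
        List.not_mem_nil, or_false] at hy
    rcases hy with rfl | rfl | rfl | rfl
    · rw [(mem_ch.1 m1).2]; exact Ne.symm hvz
    · rw [(mem_ch.1 hk1).2]; exact Ne.symm hvk
    · rw [(mem_ch.1 hk2').2]; exact Ne.symm hvk
    · rw [(mem_ch.1 m2).2]; exact Ne.symm hvz)
  simp only [List.length_nil, List.length_cons] at this
  omega

/-- cherry, closed `A`, with another leaf -/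
theorem tZC_A (hLab : Labels) {p : ℕ} {x : V} (cx : Cx T c par dep p x)
    (hc : (leaves c par).card = p) {z z1 z2 : V} (hzl : z ∉ leaves c par)
    (hz : ch c par z = {z1, z2}) (hz12 : z1 ≠ z2) (hz1 : z1 ∈ leaves c par)
    (hz2 : z2 ∈ leaves c par) (hzx : z ∈ ch c par x) {k : V} (hk : k ∈ ch c par x)
    (hkz : k ≠ z) (hkA : k ∈ AA c par) {t0 : V} (ht0 : t0 ∈ leaves c par) (ht0z : par t0 ≠ z)
    (ht0A : par t0 ∉ AA c par) : Lab c par p := by
  classical
  have hp := cx.hp
  obtain ⟨l, hl⟩ := exists_lf c par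
  have m1 : z1 ∈ ch c par z := by rw [hz]; simp
  have m2 : z2 ∈ ch c par z := by rw [hz]; simp
  have hzA := notMem_AA_of_ne m1 m2 hz12
  have hm0 : t0 ∈ ch c par (par t0) := mem_ch.2 ⟨(mem_leaves.1 ht0).1, rfl⟩
  have hk1 : t0 ≠ z1 := ne_of_ch hm0 m1 ht0z
  have hk2 : t0 ≠ z2 := ne_of_ch hm0 m2 ht0z
  obtain ⟨lam, h1, h2, h3, -, h5, h6⟩ := labs hLab hc hl [z1] [] [t0, z2]
    (by simp [hz12, Ne.symm hk1, hk2])
    (by
      intro y hy
      simp only [List.cons_append, List.append_nil, List.nil_append, List.mem_cons,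
        List.not_mem_nil, or_false] at hy
      rcases hy with rfl | rfl | rfl
      · rw [(mem_ch.1 m1).2]
        exact ⟨hz1, hzA⟩
      · exact ⟨ht0, ht0A⟩
      · rw [(mem_ch.1 m2).2]
        exact ⟨hz2, hzA⟩)
  have h31 := h3 0 (by simp)
  have h51 := h5 0 (by simp)
  have h52 := h5 1 (by simp)
  simp only [List.getElem_cons_zero, List.getElem_cons_succ] at h31 h51 h52
  have zd := zcZd hl hzl hz hz12 hz1 hz2 hzx h1 h2 (by omega)
  apply kleaf cx zd hk hkz (Or.inr hkA) _ (δ := 1) (Or.inr ⟨hkA, le_refl _⟩)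
  · left
    have : 0 < (AA c par).card := card_pos.2 ⟨k, hkA⟩
    omega
  · intro v hvx hvz hv2
    by_cases hvt : par t0 = v
    · subst hvt
      have h7 : lam t0 ≤ ∑ u ∈ lch c par (par t0), lam u :=
        single_le_sum (f := lam) (fun _ _ => Nat.zero_le _) (mem_lch.2 ⟨hm0, ht0⟩)
      omega
    · have := h6 v hv2 (by
        intro y hy
        simp only [List.cons_append, List.append_nil, List.nil_append, List.mem_cons,
          List.not_mem_nil, or_false] at hy
        rcases hy with rfl | rfl | rfl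
        · rw [(mem_ch.1 m1).2]; exact Ne.symm hvz
        · exact hvt
        · rw [(mem_ch.1 m2).2]; exact Ne.symm hvz)
      simp only [List.length_nil, List.length_cons] at this
      omega

end Pool.Agent.W104.Irr
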